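import Pool.Agent.Helper21.BX.Ad

/-!
Project BX (MP_4a5e7e_lc): windows.
-/

namespace Pool.Agent.Helper21.BX

theorem aw_lt_nw (m : ℕ) : aw m < nw m := Nat.lt_two_pow_self

theorem nw_pos (m : ℕ) : 0 < nw m := Nat.two_pow_pos _

theorem nw_le_tw (m : ℕ) : nw m ≤ tw m := by
  unfold nw tw
  exact Nat.pow_le_pow_right (by norm_num) (Nat.le_self_pow two_ne_zero (aw m))

/-- `tw m = 2 ^ (aw m) ^ 2 < 2 ^ ((aw m) ^ 2 + 1)`. -/
theorem tw_lt_aw (m : ℕ) : tw m < aw (m + 1) := by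
  show 2 ^ (aw m) ^ 2 < 2 ^ ((aw m) ^ 2 + 1)
  exact Nat.pow_lt_pow_right (by norm_num) (Nat.lt_succ_self _)

theorem aw_lt_succ (m : ℕ) : aw m < aw (m + 1) := by
  show aw m < 2 ^ ((aw m) ^ 2 + 1)
  have h1 : aw m ≤ (aw m) ^ 2 := Nat.le_self_pow two_ne_zero (aw m)
  have h2 : (aw m) ^ 2 + 1 < 2 ^ ((aw m) ^ 2 + 1) := Nat.lt_two_pow_self
  omega

theorem aw_strictMono : StrictMono aw := strictMono_nat_of_lt_succ aw_lt_succ

theorem le_aw (m : ℕ) : m ≤ aw m := aw_strictMono.id_le m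

/-- `Nat.findGreatest_spec` with `0` (`aw 0 = 0`), and `Nat.findGreatest_is_greatest` (`m ≤ aw m ≤ l`). -/
theorem win_spec (l : ℕ) : aw (win l) ≤ l ∧ l < aw (win l + 1) := by
  have h0 : aw (win l) ≤ l := by
    have h := Nat.findGreatest_spec (P := fun m => aw m ≤ l) (Nat.zero_le l) (Nat.zero_le l)
    exact h
  refine ⟨h0, ?_⟩
  by_contra hc
  rw [not_lt] at hc
  have h1 : win l + 1 ≤ l := (le_aw _).trans hc
  have h2 : win l + 1 ≤ win l := Nat.le_findGreatest (P := fun m => aw m ≤ l) h1 hc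
  omega

theorem win_eq {m l : ℕ} (h1 : aw m ≤ l) (h2 : l < aw (m + 1)) : win l = m := by
  obtain ⟨h3, h4⟩ := win_spec l
  have h5 : win l < m + 1 := aw_strictMono.lt_iff_lt.1 (h3.trans_lt h2)
  have h6 : m < win l + 1 := aw_strictMono.lt_iff_lt.1 (h1.trans_lt h4)
  omega

theorem win_lt {m l : ℕ} (h : l < aw m) : win l < m := by
  exact aw_strictMono.lt_iff_lt.1 ((win_spec l).1.trans_lt h)

/-- A level in the attack interval of `m` belongs to window `m`. -/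
theorem win_att {m l : ℕ} (h1 : nw m ≤ l) (h2 : l ≤ tw m) : win l = m :=
  win_eq ((aw_lt_nw m).le.trans h1) (h2.trans_lt (tw_lt_aw m))

end Pool.Agent.Helper21.BX
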