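import Pool.Agent.Helper21.BX.Ad

/-!
Project BX (MP_4a5e7e_lc): each program is attacked at infinitely many windows.
-/

namespace Pool.Agent.Helper21.BX

private theorem A2_inc_true (w : S) : inc (true :: w) = false :: inc w := by
  unfold inc
  rw [lead, List.replicate_succ]
  rfl

private theorem A2_inc_false (w : S) : inc (false :: w) = true :: w := by
  unfold inc
  simp [lead]

private theorem A2_inc_nil : inc [] = [true] := by
  unfold inc
  simp [lead]

private theorem A2_bn_succ (m : ℕ) : bn (m + 1) = inc (bn m) :=
  Function.iterate_succ_apply' inc m []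

private theorem A2_bn_pair (m : ℕ) :
    bn (2 * m + 1) = true :: bn m ∧ bn (2 * m + 2) = false :: bn (m + 1) := by
  induction m with
  | zero =>
    have h1 : bn (2 * 0 + 1) = true :: bn 0 := by
      rw [A2_bn_succ]
      exact A2_inc_nil
    refine ⟨h1, ?_⟩
    calc bn (2 * 0 + 2) = inc (bn (2 * 0 + 1)) := A2_bn_succ _
      _ = inc (true :: bn 0) := congrArg inc h1
      _ = false :: inc (bn 0) := A2_inc_true _
      _ = false :: bn (0 + 1) := congrArg (fun x => false :: x) (A2_bn_succ 0).symm
  | succ m ih =>
    have h1 : bn (2 * (m + 1) + 1) = true :: bn (m + 1) := by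
      rw [A2_bn_succ, show 2 * (m + 1) = 2 * m + 2 by ring, ih.2, A2_inc_false]
    refine ⟨h1, ?_⟩
    rw [A2_bn_succ, h1, A2_inc_true, ← A2_bn_succ]

private theorem A2_inc_length (w : S) : (inc w).length ≤ w.length + 1 := by
  induction w with
  | nil => rw [A2_inc_nil]; simp
  | cons b w ih =>
    cases b with
    | false => rw [A2_inc_false]; simp
    | true =>
      rw [A2_inc_true, List.length_cons, List.length_cons]
      omega

private theorem A2_bn_length (m : ℕ) : (bn m).length ≤ m := by
  induction m with
  | zero => simp [bn]
  | succ m ih =>
    rw [A2_bn_succ]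
    have := A2_inc_length (bn m)
    omega

private theorem A2_lead (N : ℕ) (x : S) : lead (List.replicate N true ++ false :: x) = N := by
  induction N with
  | zero => simp [lead]
  | succ N ih => rw [List.replicate_succ, List.cons_append, lead, ih]

/-- Each binary numeral, i.e. each string that ends with `true` (least significant digit first), is
reached. One way: `inc` adds one to the value (`lval` of `Fd.lean`), `bn m` is empty or ends with `true`, and
strings that end with `true` (or are empty) are determined by their value: so `bn (lval w) = w` for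
`w = v ++ [true]`. -/
theorem bn_surj (v : S) : ∃ m, bn m = v ++ [true] := by
  have key : ∃ m, 0 < m ∧ bn m = v ++ [true] := by
    induction v with
    | nil =>
      refine ⟨1, one_pos, ?_⟩
      have := (A2_bn_pair 0).1
      simpa [bn] using this
    | cons b v ih =>
      obtain ⟨m, hm, h⟩ := ih
      cases b with
      | false =>
        obtain ⟨n, rfl⟩ : ∃ n, m = n + 1 := ⟨m - 1, by omega⟩
        refine ⟨2 * n + 2, by omega, ?_⟩
        rw [(A2_bn_pair n).2, h, List.cons_append]
      | true =>
        refine ⟨2 * m + 1, by omega, ?_⟩
        rw [(A2_bn_pair m).1, h, List.cons_append]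
  obtain ⟨m, -, h⟩ := key
  exact ⟨m, h⟩

/-- `bn m = List.replicate p true ++ false :: (e ++ [true])` with `p ≥ N`; then `pg m = e`. `N ≤ m` because
the length of `bn m` is at most `m` (by induction, `inc` adds at most one symbol). -/
theorem pg_inf (e : S) (N : ℕ) : ∃ m, N ≤ m ∧ pg m = e := by
  obtain ⟨m, hm⟩ := bn_surj (List.replicate N true ++ false :: e)
  have hm' : bn m = List.replicate N true ++ false :: (e ++ [true]) := by
    rw [hm, List.append_assoc, List.cons_append]
  refine ⟨m, ?_, ?_⟩
  · have h := A2_bn_length m
    rw [hm'] at h
    simp only [List.length_append, List.length_replicate, List.length_cons] at h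
    omega
  · unfold pg rest
    rw [hm', A2_lead, ← List.drop_drop, List.drop_left' (by simp)]
    simp

end Pool.Agent.Helper21.BX
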