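import Pool.Agent.Helper21.BX.A1

/-!
Project BX (MP_4a5e7e_lc): the history of the plans.
-/

namespace Pool.Agent.Helper21.BX

variable (E : Env)

theorem hist_length (m : ℕ) : (hist E m).length = m := by
  induction m with
  | zero => rfl
  | succ m ih => simp [hist, ih]

/-- Induction on `m'`. -/
theorem hist_getD {m m' : ℕ} (h : m < m') : (hist E m').getD m [] = plan E m (hist E m) := by
  induction m' with
  | zero => exact absurd h (Nat.not_lt_zero _)
  | succ n ih =>
    rw [hist]
    rcases Nat.lt_succ_iff_lt_or_eq.1 h with h1 | h1
    · rw [List.getD_append _ _ _ _ (by rw [hist_length]; exact h1)]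
      exact ih h1
    · subst h1
      rw [List.getD_append_right _ _ _ _ (by rw [hist_length]), hist_length, Nat.sub_self]
      rfl

/-- Membership in terms of the plan of the window. -/
theorem inA_eq (q : S) :
    inA E q = inW E (plan E (win (lev q)) (hist E (win (lev q)))) q := by
  unfold inA lowh
  rw [hist_getD E (Nat.lt_succ_self _)]

/-- Below the window the history gives the set. -/
theorem lowh_hist {m : ℕ} {q : S} (h : lev q < aw m) : lowh E (hist E m) q = inA E q := by
  rw [inA_eq]
  unfold lowh
  rw [hist_getD E (win_lt h)]

end Pool.Agent.Helper21.BX
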