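import Pool.Agent.Helper21.BX.A3

/-!
Project BX (MP_4a5e7e_lc): legitimate plans, and decoding.
-/

namespace Pool.Agent.Helper21.BX

variable (E : Env)

/-- The machine has `k` queries. -/
theorem macW_qs_length (m : ℕ) (q : S) : ((macW E m).qs q).length = E.k := by
  simp [macW, mac]

private theorem A4_sel_false {α : Type} (j : ℕ) (l : List α) :
    sel (List.replicate j false) l = [] := by
  unfold sel
  rw [List.map_eq_nil_iff, List.filter_eq_nil_iff]
  rintro ⟨a, b⟩ hp
  have h1 : a ∈ List.replicate j false := (List.of_mem_zip hp).1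
  rw [List.eq_of_mem_replicate h1]
  simp

private theorem A4_mem_sel {α : Type} {bs : List Bool} {l : List α} {x : α} (h : x ∈ sel bs l) :
    x ∈ l := by
  unfold sel at h
  rw [List.mem_map] at h
  obtain ⟨⟨a, b⟩, hp, rfl⟩ := h
  exact (List.of_mem_zip (List.mem_filter.1 hp).1).2

/-- The default plan has no `L`. -/
theorem pL_dfl (M : Mac) (k n : ℕ) : pL M k n (dfl k n) = [] := by
  unfold pL pD dfl
  rw [List.drop_replicate, List.drop_replicate, List.take_replicate]
  exact A4_sel_false _ _

theorem legit_dfl (M : Mac) (k n τ : ℕ) (hk : 3 ≤ k) : legit M k n τ (dfl k n) = true := by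
  unfold legit
  rw [List.all_eq_true]
  intro r _
  have h1 : (List.range (if pB n (dfl k n) then k - 2 else k - 1)).all
      (fun a => decide (sh a (rest r) ∈ pL M k n (dfl k n))) = false := by
    rw [List.all_eq_false]
    refine ⟨0, ?_, ?_⟩
    · rw [List.mem_range]
      split_ifs <;> omega
    · rw [pL_dfl]
      simp
  rw [h1]
  simp

/-- The plan of a window is legitimate: it comes from `findS` with `val` (`findS_some`), or is the
default plan. -/
theorem plan_legit (hk : 3 ≤ E.k) (m : ℕ) (h : List S) :
    legit (macW E m) E.k (nw m) (tw m) (plan E m h) = true := by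
  have key : ∀ {md : Bool} {lo : S → Bool} {w : S},
      val (macW E m) E.k (nw m) (tw m) (aw m) md lo w = true →
      legit (macW E m) E.k (nw m) (tw m) w = true := by
    intro md lo w hw
    unfold val at hw
    rw [Bool.and_eq_true, Bool.and_eq_true] at hw
    exact hw.1.1
  unfold plan
  split
  · rename_i w hw
    exact key (findS_some hw).2
  · cases hf : findS (val (macW E m) E.k (nw m) (tw m) (aw m) true (lowh E h)) (WW E.k (nw m)) with
    | none => exact legit_dfl _ _ _ _ hk
    | some w => exact key (findS_some hf).2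

/-- For a legitimate plan not all the decoding shares of an instance are in `L`: if they are, then
`sh 0 c` is in `L`, hence in `rel` (`sel` gives members of the list), and `legit` says the contrary. -/
theorem legit_share {M : Mac} {k n τ : ℕ} {w : S} (hk : 3 ≤ k) (h : legit M k n τ w = true) {c : S}
    (h1 : n ≤ c.length) (h2 : c.length ≤ τ) :
    ∃ a < (if pB n w then k - 2 else k - 1), sh a c ∉ pL M k n w := by
  by_contra hc
  push Not at hc
  have h0 : 0 < (if pB n w then k - 2 else k - 1) := by split_ifs <;> omega
  have hm : sh 0 c ∈ rel M k n w := A4_mem_sel (hc 0 h0)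
  unfold legit at h
  rw [List.all_eq_true] at h
  have h3 := h _ hm
  have h4 : (isSh k (sh 0 c) && inI n τ (sh 0 c)) = true := by
    rw [isSh_sh]
    unfold inI
    rw [lev_sh]
    simp only [Bool.and_eq_true, decide_eq_true_eq]
    omega
  have h5 : (List.range (if pB n w then k - 2 else k - 1)).all
      (fun a => decide (sh a (rest (sh 0 c)) ∈ pL M k n w)) = true := by
    rw [List.all_eq_true]
    intro a ha
    rw [rest_sh]
    exact decide_eq_true (hc a (List.mem_range.1 ha))
  rw [h4, h5] at h3
  simp at h3

private theorem A4_msk_att {m : ℕ} :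
    inA E (msk (nw m)) = pB (nw m) (plan E m (hist E m)) := by
  rw [inA_eq, lev_msk, win_att le_rfl (nw_le_tw m)]
  unfold inW
  rw [lev_msk, win_att le_rfl (nw_le_tw m)]
  unfold rul isCod inI
  rw [isMsk_msk, lev_msk]
  simp [nw_le_tw m]

private theorem A4_sh_att {m a : ℕ} {c : S} (h1 : nw m ≤ c.length) (h2 : c.length ≤ tw m)
    (ha : a + 1 < E.k) :
    inA E (sh a c) = (decide (sh a c ∈ pL (macW E m) E.k (nw m) (plan E m (hist E m))) ||
      (Kd E c && (decide (a + 2 < E.k) || !(pB (nw m) (plan E m (hist E m)))))) := by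
  rw [inA_eq, lev_sh, win_att h1 h2]
  unfold inW
  rw [lev_sh, win_att h1 h2]
  unfold rul isCod inI Kq
  rw [isMsk_sh, isFre_sh, isSh_sh, lev_sh, rest_sh, idx_sh]
  simp [ha, h1, h2]

/-- Decoding in an attack interval. -/
theorem decode_att (hk : 4 ≤ E.k) {m : ℕ} {c : S} (h1 : nw m ≤ c.length) (h2 : c.length ≤ tw m) :
    Kd E c = if inA E (msk (nw m)) then (List.range (E.k - 2)).all (fun a => inA E (sh a c))
      else (List.range (E.k - 1)).all (fun a => inA E (sh a c)) := by
  obtain ⟨a0, ha0, hn0⟩ := legit_share (by omega : 3 ≤ E.k)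
    (plan_legit E (by omega) m (hist E m)) h1 h2
  rw [A4_msk_att]
  cases hb : pB (nw m) (plan E m (hist E m)) with
  | true =>
    rw [hb, if_pos rfl] at ha0
    rw [if_pos rfl]
    cases hK : Kd E c with
    | true =>
      symm
      rw [List.all_eq_true]
      intro a ha
      rw [List.mem_range] at ha
      rw [A4_sh_att E h1 h2 (by omega), hK, hb]
      have : a + 2 < E.k := by omega
      simp [this]
    | false =>
      symm
      rw [List.all_eq_false]
      refine ⟨a0, List.mem_range.2 ha0, ?_⟩
      rw [A4_sh_att E h1 h2 (by omega), hK]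
      simp [hn0]
  | false =>
    rw [hb] at ha0
    rw [if_neg (by simp)] at ha0
    rw [if_neg (by simp)]
    cases hK : Kd E c with
    | true =>
      symm
      rw [List.all_eq_true]
      intro a ha
      rw [List.mem_range] at ha
      rw [A4_sh_att E h1 h2 (by omega), hK, hb]
      simp
    | false =>
      symm
      rw [List.all_eq_false]
      refine ⟨a0, List.mem_range.2 ha0, ?_⟩
      rw [A4_sh_att E h1 h2 (by omega), hK]
      simp [hn0]

/-- Decoding outside the attack intervals. -/
theorem decode_ser (hk : 4 ≤ E.k) {m : ℕ} {c : S} (hm : win c.length = m)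
    (h : ¬ (nw m ≤ c.length ∧ c.length ≤ tw m)) :
    Kd E c = if inA E (msk c.length) then inA E (sh 1 c) else inA E (sh 0 c) := by
  have hI : (decide (nw m ≤ c.length) && decide (c.length ≤ tw m)) = false := by
    rw [Bool.eq_false_iff]
    intro h'
    simp only [Bool.and_eq_true, decide_eq_true_eq] at h'
    exact h h'
  have e1 : inA E (msk c.length) = bl E m c.length := by
    rw [inA_eq, lev_msk, hm]
    unfold inW
    rw [lev_msk, hm]
    unfold rul isCod inI
    rw [isMsk_msk, lev_msk, hI]
    simp
  have e2 : ∀ a, a + 1 < E.k → inA E (sh a c) = (if a = 0 then Kd E c || bl E m c.length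
      else if a = 1 then Kd E c && bl E m c.length else false) := by
    intro a ha
    rw [inA_eq, lev_sh, hm]
    unfold inW
    rw [lev_sh, hm]
    unfold rul isCod inI Kq
    rw [isMsk_sh, isFre_sh, isSh_sh, lev_sh, rest_sh, idx_sh, hI]
    simp [ha]
  rw [e1, e2 0 (by omega), e2 1 (by omega)]
  cases bl E m c.length <;> simp

end Pool.Agent.Helper21.BX
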