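import Pool.Agent.Helper21.BX.Gd

/-!
Project BX (MP_4a5e7e_lc): a valid plan works for all values of the unknown bits.
-/

namespace Pool.Agent.Helper21.BX

/-- `allB n` contains all the strings of length `n`. -/
theorem mem_allB {n : ℕ} {w : S} : w ∈ allB n ↔ w.length = n := by
  induction n generalizing w with
  | zero => simp [allB]
  | succ n ih =>
    rw [allB, List.mem_flatMap]
    constructor
    · rintro ⟨v, hv, hw⟩
      rw [ih] at hv
      simp only [List.mem_cons, List.not_mem_nil, or_false] at hw
      rcases hw with rfl | rfl <;> simp [hv]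
    · intro hw
      cases w with
      | nil => simp at hw
      | cons b v =>
        refine ⟨v, ih.2 (by simpa using hw), ?_⟩
        cases b <;> simp

/-- `sel` picks members. -/
theorem mem_of_mem_sel {α : Type} {bs : List Bool} {l : List α} {x : α} (h : x ∈ sel bs l) :
    x ∈ l := by
  unfold sel at h
  rw [List.mem_map] at h
  obtain ⟨p, hp, rfl⟩ := h
  rw [List.mem_filter] at hp
  exact (List.of_mem_zip (a := p.1) (b := p.2) hp.1).2

/-- The bits `X (g r)`, `r` in `l`, select from `l.map g` exactly the members with `X`. -/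
theorem mem_sel_map {α : Type} (X : S → Bool) (g : α → S) (l : List α) {p : S} :
    p ∈ sel (l.map (fun r => X (g r))) (l.map g) ↔ (∃ r ∈ l, g r = p) ∧ X p = true := by
  induction l with
  | nil => simp [sel]
  | cons r l ih =>
    unfold sel at ih ⊢
    simp only [List.map_cons, List.zip_cons_cons]
    by_cases hr : X (g r) = true
    · rw [List.filter_cons_of_pos (by simpa using hr), List.map_cons, List.mem_cons, ih]
      constructor
      · rintro (rfl | ⟨⟨r', h1, h2⟩, h3⟩)
        · exact ⟨⟨r, List.mem_cons_self, rfl⟩, hr⟩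
        · exact ⟨⟨r', List.mem_cons_of_mem _ h1, h2⟩, h3⟩
      · rintro ⟨⟨r', h1, h2⟩, h3⟩
        rcases List.mem_cons.1 h1 with rfl | h1
        · exact Or.inl h2.symm
        · exact Or.inr ⟨⟨r', h1, h2⟩, h3⟩
    · rw [List.filter_cons_of_neg (by simpa using hr), ih]
      constructor
      · rintro ⟨⟨r', h1, h2⟩, h3⟩
        exact ⟨⟨r', List.mem_cons_of_mem _ h1, h2⟩, h3⟩
      · rintro ⟨⟨r', h1, h2⟩, h3⟩
        rcases List.mem_cons.1 h1 with rfl | h1
        · exact absurd (h2 ▸ h3) hr
        · exact ⟨⟨r', h1, h2⟩, h3⟩

/-- `ev` depends on the unknown bits only through `X (atm k n τ q)`. -/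
theorem ev_congr {k n τ a : ℕ} {mode : Bool} {low : S → Bool} {key : S} {b : Bool} {L : List S}
    {X Y : S → Bool} {q : S} (h : X (atm k n τ q) = Y (atm k n τ q)) :
    ev k n τ a mode low key b L X q = ev k n τ a mode low key b L Y q := by
  by_cases hi : inI n τ q = true
  · unfold ev
    rw [h]
    simp only [hi, if_true]
  · have ha : atm k n τ q = q := by
      unfold atm
      rw [if_neg]
      simp [hi]
    rw [ha] at h
    unfold ev
    rw [h]
    simp only [hi, if_false, Bool.false_eq_true]

/-- Proof: the string `xs` of the bits `X (atm k n τ r)`, `r` in `rel M k n w`, has length `RR k` (as the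
machine has `k` queries), so it is in `allB (RR k)`; for the `t` that `val` gives, `t` and its queries are
in `rel`, so `ev_congr` and `mem_sel_map` give the claim. -/
theorem val_sound {M : Mac} {k n τ a : ℕ} {mode : Bool} {low : S → Bool} {w : S}
    (hq : ∀ q, (M.qs q).length = k) (h : val M k n τ a mode low w = true) (X : S → Bool) :
    ∃ t ∈ tgt M k n w, vio M (evP M k n τ a mode low w X) t = true := by
  unfold val at h
  rw [Bool.and_eq_true, List.all_eq_true] at h
  have hlen : ((rel M k n w).map (fun r => X (atm k n τ r))).length = RR k := by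
    rw [List.length_map]
    simp only [rel, tgt, List.length_append, List.length_cons, List.length_nil,
      List.flatMap_cons, List.flatMap_nil, hq]
    unfold RR
    omega
  have h2 := h.2 _ (mem_allB.2 hlen)
  rw [List.any_eq_true] at h2
  obtain ⟨t, ht, hv⟩ := h2
  have key : ∀ q ∈ rel M k n w, evP M k n τ a mode low w
      (fun p => decide (p ∈ sel ((rel M k n w).map (fun r => X (atm k n τ r)))
        ((rel M k n w).map (atm k n τ)))) q = evP M k n τ a mode low w X q := by
    intro q hqr
    refine ev_congr ?_
    have hm := mem_sel_map X (atm k n τ) (rel M k n w) (p := atm k n τ q)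
    by_cases hx : X (atm k n τ q) = true
    · rw [hx]
      exact decide_eq_true (hm.2 ⟨⟨q, hqr, rfl⟩, hx⟩)
    · rw [Bool.not_eq_true] at hx
      rw [hx]
      refine decide_eq_false (fun hmem => ?_)
      have := (hm.1 hmem).2
      rw [hx] at this
      exact Bool.noConfusion this
  refine ⟨t, ht, ?_⟩
  have ht' : t ∈ rel M k n w := List.mem_append_left _ ht
  have hqs : ∀ q ∈ M.qs t, q ∈ rel M k n w := fun q hqt =>
    List.mem_append_right _ (List.mem_flatMap.2 ⟨t, ht, hqt⟩)
  unfold vio at hv ⊢
  rw [key t ht'] at hv
  rw [← hv]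
  congr 2
  refine List.map_congr_left (fun q hqt => ?_)
  rw [key q (hqs q hqt)]

end Pool.Agent.Helper21.BX
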