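import Pool.Agent.Helper21.BX.A4
import Pool.Agent.Helper21.BX.Vs

/-!
Project BX (MP_4a5e7e_lc): if there is a valid plan, the machine of the window errs.
-/

namespace Pool.Agent.Helper21.BX

variable (E : Env)

/-- The unknown bits of window `m`. -/
def XA (m : ℕ) (p : S) : Bool :=
  if isSh E.k p && inI (nw m) (tw m) p then Kd E (rest p) else inA E p

private theorem A5_cod {k : ℕ} {q : S} (hc : isCod k q = true) (hm : isMsk q = false)
    (hf : isFre q = false) : isSh k q = true := by
  unfold isCod at hc
  rw [hm, hf] at hc
  simpa using hc

private theorem A5_noncod {q : S} (hc : isCod E.k q = false) : inA E q = false := by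
  rw [inA_eq]
  unfold inW rul
  rw [hc]
  simp

/-- In the attack interval. -/
private theorem A5_att {m : ℕ} {w key : S} {mode : Bool} {low : S → Bool}
    (hw : plan E m (hist E m) = w) {q : S} (hc : isCod E.k q = true)
    (hi : inI (nw m) (tw m) q = true) :
    ev E.k (nw m) (tw m) (aw m) mode low key (pB (nw m) w)
      (pL (macW E m) E.k (nw m) w) (XA E m) q = inA E q := by
  have hi' := hi
  unfold inI at hi'
  rw [Bool.and_eq_true, decide_eq_true_eq, decide_eq_true_eq] at hi'
  have hwin : win (lev q) = m := win_att hi'.1 hi'.2
  rw [inA_eq, hwin, hw]
  unfold inW rul ev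
  rw [hwin, hi, hc]
  simp only [if_true]
  cases hm : isMsk q with
  | true => simp
  | false =>
    cases hf : isFre q with
    | true => simp
    | false =>
      have hs := A5_cod hc hm hf
      obtain ⟨a, c, ha, rfl⟩ := isSh_iff.1 hs
      have hx : XA E m (atm E.k (nw m) (tw m) (sh a c)) = Kq E (sh a c) := by
        have h1 : inI (nw m) (tw m) (sh 0 c) = true := by
          unfold inI at hi ⊢
          rw [lev_sh] at hi ⊢
          exact hi
        have h2 : isSh E.k (sh 0 c) = true := by
          rw [isSh_sh]
          exact decide_eq_true (by omega)
        unfold atm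
        rw [hs, hi]
        unfold XA Kq
        rw [hs]
        simp only [Bool.and_self, if_true, rest_sh, h1, h2, Bool.true_and]
      simp only [if_false, Bool.false_eq_true]
      rw [hx]

/-- Outside the attack interval the unknown bits are those of the set. -/
private theorem A5_X {m : ℕ} {q : S} (hi : inI (nw m) (tw m) q = false) : XA E m q = inA E q := by
  unfold XA
  rw [hi]
  simp

private theorem A5_win {m l : ℕ} (h1 : aw m ≤ l) (h2 : l < nw m) : win l = m :=
  win_eq h1 ((h2.trans_le (nw_le_tw m)).trans (tw_lt_aw m))

/-- Membership at the service levels. -/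
private theorem A5_ser {m : ℕ} {q : S} (hc : isCod E.k q = true) (h1 : aw m ≤ lev q)
    (h2 : lev q < nw m) : inA E q = (if isMsk q then bl E m (lev q)
      else if isFre q then false
      else if idx q = 0 then Kq E q || bl E m (lev q)
      else if idx q = 1 then Kq E q && bl E m (lev q)
      else false) := by
  have hwin := A5_win h1 h2
  have hi : inI (nw m) (tw m) q = false := by
    unfold inI
    rw [decide_eq_false (by omega)]
    rfl
  rw [inA_eq, hwin]
  unfold inW rul
  rw [hwin, hi, hc]
  simp only [if_true, Bool.false_eq_true, if_false]

/-- If the plan of the window is 0-valid, the set is what the plan says.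

Proof: `keyok` (part of `val`) says that the key is a share with number `0` of a level `l` with
`aw m ≤ l < nw m`; so `win l = m`, and `bl E m l = true` because the plan itself is a witness
(`findS_isSome`, its length is `WW`): hence `inA E key = true` (`inA_eq`, `rul`: `Kc || true`). For the other strings compare
`ev` and `rul` (`inA_eq`; a string of level in the attack interval belongs to window `m`, `win_att`). For a
share of the attack interval `XA` of its `atm` is `Kd E (rest q)`. -/
theorem evP_eq_false {m : ℕ} {w : S} (hw : plan E m (hist E m) = w) (hl : w.length = WW E.k (nw m))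
    (h : val (macW E m) E.k (nw m) (tw m) (aw m) false (fun _ => false) w = true) (q : S) :
    evP (macW E m) E.k (nw m) (tw m) (aw m) false (fun _ => false) w (XA E m) q = inA E q := by
  have hkey : inA E (pK (macW E m) E.k (nw m) w) = true := by
    have h' := h
    unfold val at h'
    rw [Bool.and_eq_true, Bool.and_eq_true] at h'
    have h1 := h'.1.2
    rw [Bool.false_or] at h1
    unfold keyok at h1
    simp only [Bool.and_eq_true, decide_eq_true_eq] at h1
    obtain ⟨⟨⟨k1, k2⟩, k3⟩, k4⟩ := h1
    have hc : isCod E.k (pK (macW E m) E.k (nw m) w) = true := by
      unfold isCod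
      rw [k1]
      simp
    have hb : bl E m (lev (pK (macW E m) E.k (nw m) w)) = true := by
      unfold bl
      rw [decide_eq_true k4, Bool.true_and]
      refine findS_isSome.2 ⟨w, hl, ?_⟩
      unfold v0
      rw [h]
      simp
    rw [A5_ser E hc k3 k4, hb]
    obtain ⟨a, c, ha, he⟩ := isSh_iff.1 k1
    rw [he] at k2 ⊢
    rw [isMsk_sh, isFre_sh]
    simp [k2]
  unfold evP
  cases hc : isCod E.k q with
  | false =>
    rw [A5_noncod E hc]
    unfold ev
    rw [hc]
    simp
  | true =>
    cases hi : inI (nw m) (tw m) q with
    | true => exact A5_att E hw hc hi
    | false =>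
      unfold ev
      rw [hc, hi]
      simp only [if_true, Bool.false_eq_true, if_false]
      rw [A5_X E hi]
      split_ifs with hlt
      · by_cases hq : q = pK (macW E m) E.k (nw m) w
        · rw [hq, hkey]
          simp
        · simp [hq]
      · rfl

/-- If there is no 0-valid plan, the set is what the plan says in mode `true`.

Proof: as above; `bl E m l = false` for all the levels `l`, so at the service levels `aw m ≤ l < nw m` masks,
free strings and the shares with number `≥ 1` are not in the set; below `aw m` use `lowh_hist`. -/
theorem evP_eq_true {m : ℕ} {w : S} (hw : plan E m (hist E m) = w)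
    (h : ∀ w' : S, w'.length = WW E.k (nw m) →
      val (macW E m) E.k (nw m) (tw m) (aw m) false (fun _ => false) w' = false) (q : S) :
    evP (macW E m) E.k (nw m) (tw m) (aw m) true (lowh E (hist E m)) w (XA E m) q = inA E q := by
  have hb : ∀ l, bl E m l = false := by
    intro l
    cases hbl : bl E m l with
    | false => rfl
    | true =>
      unfold bl at hbl
      rw [Bool.and_eq_true] at hbl
      obtain ⟨w', h1, h2⟩ := findS_isSome.1 hbl.2
      unfold v0 at h2
      rw [h w' h1] at h2
      simp at h2
  unfold evP
  cases hc : isCod E.k q with
  | false =>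
    rw [A5_noncod E hc]
    unfold ev
    rw [hc]
    simp
  | true =>
    cases hi : inI (nw m) (tw m) q with
    | true => exact A5_att E hw hc hi
    | false =>
      unfold ev
      rw [hc, hi]
      simp only [if_true, Bool.false_eq_true, if_false]
      rw [A5_X E hi]
      split_ifs with hlt hla
      · exact lowh_hist E hla
      · rw [not_lt] at hla
        rw [A5_ser E hc hla hlt, hb]
        cases hm : isMsk q with
        | true => simp
        | false =>
          cases hf : isFre q with
          | true => simp
          | false =>
            rw [A5_cod hc hm hf]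
            by_cases h0 : idx q = 0
            · simp [h0]
            · simp [h0]
      · rfl

/-- The machine of window `m` errs at a target of the plan. -/
theorem window_vio {m : ℕ}
    (h : ∃ w : S, w.length = WW E.k (nw m) ∧
      (val (macW E m) E.k (nw m) (tw m) (aw m) false (fun _ => false) w = true ∨
        val (macW E m) E.k (nw m) (tw m) (aw m) true (lowh E (hist E m)) w = true)) :
    ∃ t ∈ tgt (macW E m) E.k (nw m) (plan E m (hist E m)),
      vio (macW E m) (inA E) t = true := by
  cases hf : findS (val (macW E m) E.k (nw m) (tw m) (aw m) false (fun _ => false))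
      (WW E.k (nw m)) with
  | some w =>
    have hp : plan E m (hist E m) = w := by
      unfold plan
      rw [hf]
    obtain ⟨hl, hv⟩ := findS_some hf
    obtain ⟨t, ht, h1⟩ := val_sound (macW_qs_length E m) hv (XA E m)
    rw [hp]
    refine ⟨t, ht, ?_⟩
    rw [funext (evP_eq_false E hp hl hv)] at h1
    exact h1
  | none =>
    have hno : ∀ w' : S, w'.length = WW E.k (nw m) →
        val (macW E m) E.k (nw m) (tw m) (aw m) false (fun _ => false) w' = false := by
      intro w' hw'
      cases hv : val (macW E m) E.k (nw m) (tw m) (aw m) false (fun _ => false) w' with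
      | false => rfl
      | true =>
        have := findS_isSome.2 ⟨w', hw', hv⟩
        rw [hf] at this
        simp at this
    obtain ⟨w0, hl0, h0⟩ := h
    rcases h0 with h0 | h0
    · rw [hno w0 hl0] at h0
      exact absurd h0 (by simp)
    · cases hg : findS (val (macW E m) E.k (nw m) (tw m) (aw m) true (lowh E (hist E m)))
          (WW E.k (nw m)) with
      | none =>
        have := findS_isSome.2 ⟨w0, hl0, h0⟩
        rw [hg] at this
        simp at this
      | some w =>
        have hp : plan E m (hist E m) = w := by
          unfold plan
          rw [hf, hg]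
          rfl
        obtain ⟨hl, hv⟩ := findS_some hg
        obtain ⟨t, ht, h1⟩ := val_sound (macW_qs_length E m) hv (XA E m)
        rw [hp]
        refine ⟨t, ht, ?_⟩
        rw [funext (evP_eq_true E hp hno)] at h1
        exact h1

end Pool.Agent.Helper21.BX
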