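import Pool.Agent.Helper21.BX.A5
import Pool.Agent.Helper21.BX.A2

/-!
Project BX (MP_4a5e7e_lc): no machine can compute the set from the other side.
-/

namespace Pool.Agent.Helper21.BX

/-- The statement of the existence of a plan (project BG of helper5). -/
def ExPlan (k : ℕ) : Prop :=
  ∃ n₀ : ℕ, ∀ (M : Mac) (n τ a : ℕ) (low : S → Bool), n₀ ≤ n → n ^ 2 ≤ τ →
    (∀ q, (M.qs q).length = k) →
    (∀ u : S, u.length = n ^ 2 → ∀ q ∈ M.qs (fre u), lev q ≤ τ ∧ ∀ q' ∈ M.qs q, lev q' ≤ τ) →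
    ∃ w : S, w.length = WW k n ∧
      (val M k n τ a false (fun _ => false) w = true ∨ val M k n τ a true low w = true)

/-- Numbers: `x ^ r + r ≤ (x + 2) ^ (r + 1)`, and `n = 2 ^ a`, `τ = 2 ^ a ^ 2 = n ^ a`. -/
theorem A6_num (r : ℕ) : ∃ a₀ : ℕ, ∀ a, a₀ ≤ a →
    ((((2 ^ a) ^ 2 + 2) ^ r + r) ^ r + r) ^ r + r ≤ 2 ^ a ^ 2 := by
  have key : ∀ x j : ℕ, x ≤ 2 ^ j → x ^ r + r ≤ 2 ^ (j * r + r + 1) := by
    intro x j hx
    have h1 : x ^ r ≤ 2 ^ (j * r) := by
      rw [pow_mul]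
      exact Nat.pow_le_pow_left hx r
    have h2 : r ≤ 2 ^ r := Nat.lt_two_pow_self.le
    have h3 : 2 ^ (j * r) ≤ 2 ^ (j * r + r) := Nat.pow_le_pow_right (by norm_num) (by omega)
    have h4 : 2 ^ r ≤ 2 ^ (j * r + r) := Nat.pow_le_pow_right (by norm_num) (by omega)
    rw [pow_succ]
    omega
  refine ⟨3 * r ^ 3 + (r + 1) * (r ^ 2 + r + 1) + 1, ?_⟩
  intro a ha
  have ha1 : 1 ≤ a := by omega
  have h0 : (2 ^ a) ^ 2 + 2 ≤ 2 ^ (2 * a + 1) := by
    have e1 : (2 ^ a) ^ 2 = 2 ^ (2 * a) := by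
      rw [← pow_mul, mul_comm]
    have e2 : 2 ^ 1 ≤ 2 ^ (2 * a) := Nat.pow_le_pow_right (by norm_num) (by omega)
    rw [e1, pow_succ]
    omega
  have h1 := key _ _ h0
  have h2 := key _ _ h1
  have h3 := key _ _ h2
  refine h3.trans (Nat.pow_le_pow_right (by norm_num) ?_)
  have e : (((2 * a + 1) * r + r + 1) * r + r + 1) * r + r + 1 =
      (2 * a + 1) * r ^ 3 + (r + 1) * (r ^ 2 + r + 1) := by ring
  rw [e]
  have e3 : (2 * a + 1) * r ^ 3 ≤ (3 * a) * r ^ 3 := Nat.mul_le_mul_right _ (by omega)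
  have e4 : (r + 1) * (r ^ 2 + r + 1) ≤ a * ((r + 1) * (r ^ 2 + r + 1)) :=
    Nat.le_mul_of_pos_left _ ha1
  have e5 : a * (3 * r ^ 3 + (r + 1) * (r ^ 2 + r + 1)) ≤ a * a :=
    Nat.mul_le_mul_left _ (by omega)
  calc (2 * a + 1) * r ^ 3 + (r + 1) * (r ^ 2 + r + 1)
      ≤ (3 * a) * r ^ 3 + a * ((r + 1) * (r ^ 2 + r + 1)) := Nat.add_le_add e3 e4
    _ = a * (3 * r ^ 3 + (r + 1) * (r ^ 2 + r + 1)) := by ring
    _ ≤ a * a := e5
    _ = a ^ 2 := by ring

theorem lev_le_length (q : S) : lev q ≤ q.length := by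
  unfold lev
  split_ifs
  · unfold rest
    rw [List.length_drop]
    omega
  · omega

private theorem A6_pick (bs : List Bool) (l : List S) : pick bs l = [] ∨ pick bs l ∈ l := by
  unfold pick
  cases h : sel bs l with
  | nil => exact Or.inl rfl
  | cons x t =>
    right
    have hx : x ∈ sel bs l := by rw [h]; exact List.mem_cons_self
    unfold sel at hx
    rw [List.mem_map] at hx
    obtain ⟨p, hp, rfl⟩ := hx
    rw [List.mem_filter] at hp
    exact (List.of_mem_zip hp.1).2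

private theorem A6_main {E : Env} (hex : ExPlan E.k) (e : S) (M : Mac) (r : ℕ) (hr : 1 ≤ r)
    (hlen : ∀ q, ∀ q' ∈ M.qs q, q'.length ≤ q.length ^ r + r)
    (hU : ∀ q t, q.length ^ r + r ≤ t → (mac E e t).side q = M.side q ∧
      (mac E e t).tab q = M.tab q ∧ (mac E e t).qs q = M.qs q) :
    ∃ t, vio M (inA E) t = true := by
  obtain ⟨n₀, hn₀⟩ := hex
  obtain ⟨a₀, ha₀⟩ := A6_num r
  obtain ⟨m, hm, hpg⟩ := pg_inf e (max a₀ n₀)
  have hm1 : a₀ ≤ aw m := ((le_max_left _ _).trans hm).trans (le_aw m)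
  have hm2 : n₀ ≤ nw m := (((le_max_right _ _).trans hm).trans (le_aw m)).trans (aw_lt_nw m).le
  have hnum := ha₀ (aw m) hm1
  have hmono : ∀ x y : ℕ, x ≤ y → x ^ r + r ≤ y ^ r + r := fun x y h =>
    Nat.add_le_add_right (Nat.pow_le_pow_left h r) r
  have hself : ∀ x : ℕ, x ≤ x ^ r + r := by
    intro x
    exact (Nat.le_self_pow (by omega) x).trans (Nat.le_add_right _ _)
  have hL0 : nw m ^ 2 + 2 = (2 ^ aw m) ^ 2 + 2 := rfl
  have htw : tw m = 2 ^ aw m ^ 2 := rfl
  rw [← htw, ← hL0] at hnum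
  have hM : macW E m = mac E e (tw m) := by
    unfold macW
    rw [hpg]
  have c1 : ∀ q : S, q.length ≤ (nw m ^ 2 + 2) →
      (q.length ^ r + r) ≤ ((nw m ^ 2 + 2) ^ r + r) := fun q hq => hmono _ _ hq
  have b3 : (((nw m ^ 2 + 2) ^ r + r) ^ r + r) ≤ tw m := (hself _).trans hnum
  have b2 : ((nw m ^ 2 + 2) ^ r + r) ≤ tw m := (hself _).trans b3
  have b1 : (nw m ^ 2 + 2) ≤ tw m := (hself _).trans b2
  have hq : ∀ q : S, q.length ≤ (((nw m ^ 2 + 2) ^ r + r) ^ r + r) →
      (macW E m).side q = M.side q ∧ (macW E m).tab q = M.tab q ∧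
        (macW E m).qs q = M.qs q := by
    intro q hq
    rw [hM]
    exact hU q (tw m) ((hmono _ _ hq).trans hnum)
  have s1 : ∀ q : S, q.length ≤ nw m ^ 2 + 2 → ∀ q' ∈ M.qs q,
      q'.length ≤ ((nw m ^ 2 + 2) ^ r + r) := fun q h q' hq' =>
    (hlen q q' hq').trans (hmono _ _ h)
  have s2 : ∀ q : S, q.length ≤ ((nw m ^ 2 + 2) ^ r + r) → ∀ q' ∈ M.qs q,
      q'.length ≤ (((nw m ^ 2 + 2) ^ r + r) ^ r + r) := fun q h q' hq' =>
    (hlen q q' hq').trans (hmono _ _ h)
  have i1 : (nw m ^ 2 + 2) ≤ ((nw m ^ 2 + 2) ^ r + r) := hself _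
  have i2 : ((nw m ^ 2 + 2) ^ r + r) ≤ (((nw m ^ 2 + 2) ^ r + r) ^ r + r) := hself _
  have hfre : ∀ u : S, u.length ≤ nw m ^ 2 → (fre u).length ≤ nw m ^ 2 + 2 := by
    intro u hu
    simp only [fre, List.length_cons]
    omega
  obtain ⟨w, hw1, hw2⟩ := hn₀ (macW E m) (nw m) (tw m) (aw m) (lowh E (hist E m)) hm2
    ((Nat.le_add_right _ 2).trans b1) (macW_qs_length E m) (by
      intro u hu q hqm
      have hl := hfre u hu.le
      rw [(hq (fre u) (hl.trans (i1.trans i2))).2.2] at hqm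
      have hql := s1 _ hl q hqm
      refine ⟨(lev_le_length q).trans (hql.trans b2), ?_⟩
      intro q' hq'
      rw [(hq q (hql.trans i2)).2.2] at hq'
      exact (lev_le_length q').trans ((s2 q hql q' hq').trans b3))
  obtain ⟨t, ht, hv⟩ := window_vio E (m := m) ⟨w, hw1, hw2⟩
  have hpY : (pY (nw m) (plan E m (hist E m))).length ≤ nw m ^ 2 + 2 := by
    unfold pY
    refine hfre _ ?_
    rw [List.length_take]
    exact min_le_left _ _
  have hpY2 : (pY2 (nw m) (plan E m (hist E m))).length ≤ nw m ^ 2 + 2 := by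
    unfold pY2
    refine hfre _ ?_
    rw [List.length_take]
    exact min_le_left _ _
  have htl : t.length ≤ ((nw m ^ 2 + 2) ^ r + r) := by
    unfold tgt at ht
    simp only [List.mem_cons, List.not_mem_nil, or_false] at ht
    rcases ht with rfl | rfl | rfl | rfl
    · exact hpY.trans i1
    · exact hpY2.trans i1
    · unfold pZ
      rcases A6_pick ((List.drop 1 (pD (nw m) (plan E m (hist E m)))).take E.k)
        ((macW E m).qs (pY (nw m) (plan E m (hist E m)))) with h | h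
      · rw [h]; exact Nat.zero_le _
      · rw [(hq _ (hpY.trans (i1.trans i2))).2.2] at h ⊢
        exact s1 _ hpY _ h
    · unfold pZ2
      rcases A6_pick ((List.drop (1 + E.k) (pD (nw m) (plan E m (hist E m)))).take E.k)
        ((macW E m).qs (pY2 (nw m) (plan E m (hist E m)))) with h | h
      · rw [h]; exact Nat.zero_le _
      · rw [(hq _ (hpY2.trans (i1.trans i2))).2.2] at h ⊢
        exact s1 _ hpY2 _ h
  refine ⟨t, ?_⟩
  obtain ⟨g1, g2, g3⟩ := hq t (htl.trans i2)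
  unfold vio at hv ⊢
  rw [g1, g2, g3] at hv
  have hmap : (M.qs t).map (fun q => ((macW E m).side q != M.side t) && inA E q) =
      (M.qs t).map (fun q => (M.side q != M.side t) && inA E q) := by
    refine List.map_congr_left ?_
    intro q hqm
    rw [(hq q (s2 t htl q hqm)).1]
  rw [hmap] at hv
  exact hv

/-- Let `M` be a machine with `k` queries of polynomial length, such that the program `e` computes it in
polynomial time. Then `M` errs somewhere at the set.

Proof: by `pg_inf` and `le_aw` there is a window `m` with `pg m = e`, with `aw m ≥ a₀` of `A6_num` and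
`nw m ≥ n₀` of `hex`. All the strings of length at most `L₂ = (((nw m) ^ 2 + 2) ^ r + r) ^ r + r` are treated
by `macW E m` as by `M` (as `L₂ ^ r + r ≤ tw m`). So the hypotheses of `hex` are true for `macW E m` (`n ^ 2 ≤ τ` also by `A6_num`, as
`x ≤ x ^ r + r` for `r ≥ 1`; if `r = 0` use `r + 1` in place of `r`), and
`window_vio` gives a target `t` with `vio (macW E m) (inA E) t`; `t` is `fre u` with `|u| = n ^ 2`, or a query of such a string, or
`[]`, and all the strings involved in `vio` at `t` are short enough. -/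
theorem exists_vio {E : Env} (hex : ExPlan E.k) (e : S) (M : Mac) (r : ℕ)
    (hqs : ∀ q, (M.qs q).length = E.k) (hlen : ∀ q, ∀ q' ∈ M.qs q, q'.length ≤ q.length ^ r + r)
    (hU : ∀ q t, q.length ^ r + r ≤ t → (mac E e t).side q = M.side q ∧
      (mac E e t).tab q = M.tab q ∧ (mac E e t).qs q = M.qs q) :
    ∃ t, vio M (inA E) t = true := by
  have _ := hqs
  have hpow : ∀ x : ℕ, x ^ r + r ≤ x ^ (r + 1) + (r + 1) := by
    intro x
    rcases Nat.eq_zero_or_pos x with h | h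
    · subst h
      rcases Nat.eq_zero_or_pos r with h1 | h1
      · subst h1
        simp
      · rw [zero_pow (by omega)]
        omega
    · have h2 : x ^ r ≤ x ^ (r + 1) := Nat.pow_le_pow_right h (Nat.le_succ r)
      omega
  exact A6_main hex e M (r + 1) (by omega) (fun q q' hq' => (hlen q q' hq').trans (hpow _))
    (fun q t ht => hU q t ((hpow _).trans ht))

end Pool.Agent.Helper21.BX
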