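import Pool.Agent.Helper21.BX.Fd

/-!
Project BX (MP_4a5e7e_lc): search through the strings of a given length, facts.
-/

namespace Pool.Agent.Helper21.BX

open Pool.Agent.Helper5.SX

/-- By induction on `n`. -/
theorem fnd_some {P : Str → Bool} {n : ℕ} {w v : Str} (h : fnd P n w = some v) :
    v.length = w.length ∧ P v = true := by
  induction n generalizing w with
  | zero => simp [fnd] at h
  | succ n ih =>
    rw [fnd] at h
    split_ifs at h with hP
    · rw [Option.some.injEq] at h
      subst h
      exact ⟨rfl, hP⟩
    · cases hs : sc w with
      | none => rw [hs] at h; simp at h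
      | some w' =>
        rw [hs] at h
        obtain ⟨h1, h2⟩ := ih h
        exact ⟨h1.trans (sc_some hs).1, h2⟩

/-- By induction on `n`: each string `v` of the same length with `lval w ≤ lval v < lval w + n` is
reached. -/
theorem fnd_none {P : Str → Bool} {n : ℕ} {w : Str} (h : fnd P n w = none) {v : Str}
    (hl : v.length = w.length) (h1 : lval w ≤ lval v) (h2 : lval v < lval w + n) : P v = false := by
  induction n generalizing w with
  | zero => omega
  | succ n ih =>
    rw [fnd] at h
    split_ifs at h with hP
    by_cases hvw : lval v = lval w
    · rw [lval_inj hl hvw]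
      simpa using hP
    · cases hs : sc w with
      | none =>
        have h3 := sc_none.1 hs
        have h4 := lval_lt v
        rw [hl] at h4
        omega
      | some w' =>
        rw [hs] at h
        obtain ⟨h5, h6⟩ := sc_some hs
        exact ih h (hl.trans h5.symm) (by omega) (by omega)

/-- More rounds do not change the result, if there are enough rounds to reach the end. -/
theorem fnd_ge {P : Str → Bool} {m n : ℕ} {w : Str} (hm : 2 ^ w.length ≤ lval w + m)
    (hn : 2 ^ w.length ≤ lval w + n) : fnd P m w = fnd P n w := by
  induction m generalizing n w with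
  | zero =>
    have h1 := lval_lt w
    omega
  | succ m ih =>
    have h1 := lval_lt w
    obtain ⟨k, rfl⟩ : ∃ k, n = k + 1 := ⟨n - 1, by omega⟩
    rw [fnd, fnd]
    split_ifs with hP
    · rfl
    · cases hs : sc w with
      | none => rfl
      | some w' =>
        obtain ⟨h5, h6⟩ := sc_some hs
        exact ih (by rw [h5]; omega) (by rw [h5]; omega)

theorem findS_some {P : Str → Bool} {W : ℕ} {v : Str} (h : findS P W = some v) :
    v.length = W ∧ P v = true := by
  obtain ⟨h1, h2⟩ := fnd_some h
  exact ⟨by simpa using h1, h2⟩

theorem findS_isSome {P : Str → Bool} {W : ℕ} :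
    (findS P W).isSome = true ↔ ∃ v : Str, v.length = W ∧ P v = true := by
  constructor
  · intro h
    obtain ⟨v, hv⟩ := Option.isSome_iff_exists.1 h
    exact ⟨v, findS_some hv⟩
  · rintro ⟨v, hl, hP⟩
    cases hf : findS P W with
    | some u => rfl
    | none =>
      have h1 := lval_lt v
      rw [hl] at h1
      have h2 := fnd_none (v := v) hf (by simpa using hl) (by rw [lval_replicate]; omega)
        (by rw [lval_replicate]; omega)
      rw [hP] at h2
      simp at h2

theorem findS_eq {P : Str → Bool} {W C : ℕ} (h : 2 ^ W ≤ C) :
    fnd P C (List.replicate W false) = findS P W := by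
  refine fnd_ge ?_ ?_
  · rw [List.length_replicate, lval_replicate]
    omega
  · rw [List.length_replicate, lval_replicate]
    omega

end Pool.Agent.Helper21.BX
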