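import Pool.Agent.Helper21.BX.Gd
import Pool.Agent.Helper21.BX.Fb
import Pool.Agent.Helper91.PolyTime.Basic

/-!
Project BX (MP_4a5e7e_lc): the set `A`, definitions.

The set depends on `k`, on a universal function `U` (program, input, number of steps ↦ output) and on
a function `V` such that `K = {c | ∃ g, |g| = 2 ^ |c| ∧ V c g}` is complete for NEXP.
-/

namespace Pool.Agent.Helper21.BX

open Pool.Agent.Helper91.PolyTime (upr pr)

/-- What the construction depends on. -/
structure Env where
  /-- the number of queries -/
  k : ℕ
  /-- the universal function -/
  U : S → S → ℕ → S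
  /-- the verifier of the complete set -/
  V : S → S → Bool

/-! ### windows -/

/-- The service levels of window `m` start at `aw m`. -/
def aw : ℕ → ℕ
  | 0 => 0
  | m + 1 => 2 ^ ((aw m) ^ 2 + 1)

/-- The attack interval of window `m` is `[nw m, tw m]`. -/
def nw (m : ℕ) : ℕ := 2 ^ aw m

def tw (m : ℕ) : ℕ := 2 ^ (aw m) ^ 2

/-- The window of a level. -/
def win (l : ℕ) : ℕ := Nat.findGreatest (fun m => aw m ≤ l) l

/-! ### programs -/

/-- Binary increment, least significant digit first. -/
def inc (w : S) : S := List.replicate (lead w) false ++ true :: w.drop (lead w + 1)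

/-- The binary numerals. -/
def bn (m : ℕ) : S := inc^[m] []

/-- The program attacked at window `m`. -/
def pg (m : ℕ) : S := (rest (bn m)).dropLast

/-- The parts of an output. -/
def fld (j : ℕ) (s : S) : S := (upr ((fun s => (upr s).2)^[j] s)).1

/-- The machine given by the program `e` with at most `t` steps. -/
def mac (E : Env) (e : S) (t : ℕ) : Mac where
  side q := (fld 0 (E.U e q t)).headD false
  tab q := fld 1 (E.U e q t)
  qs q := (List.range E.k).map (fun j => fld (j + 2) (E.U e q t))

/-- The machine attacked at window `m`. -/
def macW (E : Env) (m : ℕ) : Mac := mac E (pg m) (tw m)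

/-! ### the set -/

/-- The complete set. -/
def Kd (E : Env) (c : S) : Bool := (findS (E.V c) (2 ^ c.length)).isSome

/-- The value of the complete set for a share. -/
def Kq (E : Env) (q : S) : Bool := isSh E.k q && Kd E (rest q)

/-- `w` is a 0-valid plan of window `m` with a key of level `l`. -/
def v0 (E : Env) (m l : ℕ) (w : S) : Bool :=
  val (macW E m) E.k (nw m) (tw m) (aw m) false (fun _ => false) w &&
    decide (lev (pK (macW E m) E.k (nw m) w) = l)

/-- The bit of the level `l` of window `m`, outside the attack interval. -/
def bl (E : Env) (m l : ℕ) : Bool :=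
  decide (l < nw m) && (findS (v0 E m l) (WW E.k (nw m))).isSome

/-- The rule for the set: `att` says that the level is in an attack interval, which begins at `n`;
`(b, L)` is the plan, `Kc` the value of the complete set, `β` the bit of the level. -/
def rul (k : ℕ) (att : Bool) (n : ℕ) (b : Bool) (L : List S) (Kc β : Bool) (q : S) : Bool :=
  if isCod k q then
    (if att then
      (if isMsk q then b && decide (lev q = n)
      else if isFre q then decide (q ∈ L)
      else decide (q ∈ L) || (Kc && (decide (idx q + 2 < k) || !b)))
    else
      (if isMsk q then β
      else if isFre q then false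
      else if idx q = 0 then Kc || β
      else if idx q = 1 then Kc && β
      else false))
  else false

/-- Membership of `q` in the set, if `w` is the plan of its window. -/
def inW (E : Env) (w q : S) : Bool :=
  rul E.k (inI (nw (win (lev q))) (tw (win (lev q))) q) (nw (win (lev q)))
    (pB (nw (win (lev q))) w) (pL (macW E (win (lev q))) E.k (nw (win (lev q))) w)
    (Kq E q) (bl E (win (lev q)) (lev q)) q

/-- Membership of `q`, if `h` is the list of the plans. -/
def lowh (E : Env) (h : List S) (q : S) : Bool := inW E (h.getD (win (lev q)) []) q

/-- The default plan. -/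
def dfl (k n : ℕ) : S := List.replicate (WW k n) false

/-- The plan of window `m`, if `h` is the list of the plans of the windows before. -/
def plan (E : Env) (m : ℕ) (h : List S) : S :=
  match findS (val (macW E m) E.k (nw m) (tw m) (aw m) false (fun _ => false)) (WW E.k (nw m)) with
  | some w => w
  | none => (findS (val (macW E m) E.k (nw m) (tw m) (aw m) true (lowh E h))
      (WW E.k (nw m))).getD (dfl E.k (nw m))

/-- The list of the plans of the windows before `m`. -/
def hist (E : Env) : ℕ → List S
  | 0 => []
  | m + 1 => hist E m ++ [plan E m (hist E m)]

/-- The characteristic function of the set `A`. -/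
def inA (E : Env) (q : S) : Bool := lowh E (hist E (win (lev q) + 1)) q

end Pool.Agent.Helper21.BX
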