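import Pool.Agent.Helper21.AX.Small
import Pool.Agent.Helper5.SY.Frame

/-!
Project BX (MP_4a5e7e_lc): polynomial time functions on binary trees.

`D` is the type of binary trees, `D.code` their prefix code (a string of bits), and `PT O F` says
that a deterministic program with the oracle `O`, started with the code of `x` on stack `0` (the other
stacks are empty), halts with the code of `F x` on stack `0` (the other stacks are empty again) in time
polynomial in the length of the code of `x`.
-/

namespace Pool.Agent.Helper21.BX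

open Pool.Agent.Helper5.SX

/-- Binary trees. -/
inductive D : Type
  | nil : D
  | cons : D → D → D

/-- The prefix code of a tree. -/
def D.code : D → Str
  | D.nil => [false]
  | D.cons a b => true :: (a.code ++ b.code)

/-- The size of a tree: the length of its code. -/
def D.sz (x : D) : ℕ := x.code.length

/-- The left part. -/
def D.hd : D → D
  | D.nil => D.nil
  | D.cons a _ => a

/-- The right part. -/
def D.tl : D → D
  | D.nil => D.nil
  | D.cons _ b => b

/-- `a` if `x` is `nil`, `b` otherwise. -/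
def D.ifn (x a b : D) : D :=
  match x with
  | D.nil => a
  | D.cons _ _ => b

/-- The length of the right spine. -/
def D.len : D → ℕ
  | D.nil => 0
  | D.cons _ b => b.len + 1

/-- The string of bits given by a tree. -/
def D.str : D → Str
  | D.nil => []
  | D.cons D.nil b => false :: b.str
  | D.cons (D.cons _ _) b => true :: b.str

/-- The store with `w` on stack `0` and all the other stacks empty. -/
def st (w : Str) : Store := fun r => if r = 0 then w else []

/-- `c` can lead from `s` to `s'` within `T` steps. -/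
def Rn (O : Set Str) (c : Cmd) (s : Store) (T : ℕ) (s' : Store) : Prop := ∃ t ≤ T, Run O c s t s'

/-- A program with the oracle `O` leads from `X i` to `Y i`, in time polynomial in the size of `X i`,
for all `i`. -/
def PR (O : Set Str) {ι : Type} (X Y : ι → D) : Prop :=
  ∃ c : Cmd, c.Det ∧ ∃ r : ℕ, ∀ i, Rn O c (st (X i).code) ((X i).sz ^ r + r) (st (Y i).code)

/-- `F` is computed in polynomial time with the oracle `O`. -/
def PT (O : Set Str) (F : D → D) : Prop := PR O (fun x => x) F

/-- `f` is bounded by a polynomial. -/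
def PB (f : ℕ → ℕ) : Prop := ∃ r : ℕ, ∀ n, f n ≤ n ^ r + r

/-! ### programs -/

/-- Move stack `r` on top of stack `u` (in reversed order). -/
def mv (r u : ℕ) : Cmd := Cmd.loop r (Cmd.pop r Cmd.skip (Cmd.push u false) (Cmd.push u true))

/-- Copy stack `r` on stack `u`, through stack `v` (`u` and `v` are empty). -/
def cpy (r u v : ℕ) : Cmd :=
  Cmd.seq (mv r v) (Cmd.loop v (Cmd.pop v Cmd.skip
    (Cmd.seq (Cmd.push r false) (Cmd.push u false)) (Cmd.seq (Cmd.push r true) (Cmd.push u true))))

/-- Move stack `u` to stack `0`, through stack `v` (`0` and `v` are empty). -/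
def bck (u v : ℕ) : Cmd := Cmd.seq (mv u v) (mv v 0)

/-- Remove the code of a tree from the top of stack `0`, once for each symbol of stack `1`. -/
def skp : Cmd :=
  Cmd.loop 1 (Cmd.pop 0 Cmd.skip (Cmd.pop 1 Cmd.skip Cmd.skip Cmd.skip) (Cmd.push 1 true))

/-- Move the code of a tree from the top of stack `0` to stack `2` (in reversed order), once for each
symbol of stack `1`. -/
def skm : Cmd :=
  Cmd.loop 1 (Cmd.pop 0 Cmd.skip (Cmd.seq (Cmd.push 2 false) (Cmd.pop 1 Cmd.skip Cmd.skip Cmd.skip))
    (Cmd.seq (Cmd.push 2 true) (Cmd.push 1 true)))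

/-- Program for `D.tl`. -/
def ptl : Cmd := Cmd.pop 0 Cmd.skip (Cmd.push 0 false) (Cmd.seq (Cmd.push 1 true) skp)

/-- Program for `D.hd`. -/
def phd : Cmd :=
  Cmd.pop 0 Cmd.skip (Cmd.push 0 false)
    (Cmd.seq (Cmd.push 1 true) (Cmd.seq skm (Cmd.seq (clr 0) (mv 2 0))))

/-- Put the string `w` on top of stack `0`. -/
def psh : Str → Cmd
  | [] => Cmd.skip
  | b :: w => Cmd.seq (psh w) (Cmd.push 0 b)

/-- Program for `x ↦ D.cons (F x) (G x)`; `cf`, `cg` only name stacks below `B`. -/
def ppair (B : ℕ) (cf cg : Cmd) : Cmd :=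
  Cmd.seq (cpy 0 B (B + 1)) (Cmd.seq cf (Cmd.seq (mv 0 (B + 1)) (Cmd.seq (bck B (B + 2))
    (Cmd.seq cg (Cmd.seq (mv (B + 1) 0) (Cmd.push 0 true))))))

/-- Program for `x ↦ D.ifn (F x) (G x) (H x)`. -/
def pifn (B : ℕ) (cf cg ch : Cmd) : Cmd :=
  Cmd.seq (cpy 0 B (B + 1)) (Cmd.seq cf (Cmd.pop 0 Cmd.skip
    (Cmd.seq (bck B (B + 2)) cg) (Cmd.seq (clr 0) (Cmd.seq (bck B (B + 2)) ch))))

/-- The length of the spine of the tree on stack `0` is written in unary on stack `u`; stack `0` is
emptied; `v` is empty. -/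
def plen (u v : ℕ) : Cmd :=
  Cmd.seq (Cmd.push v true) (Cmd.seq
    (Cmd.loop v (Cmd.pop 0 Cmd.skip
      (Cmd.seq (Cmd.push 0 false) (Cmd.pop v Cmd.skip Cmd.skip Cmd.skip))
      (Cmd.seq (Cmd.push 0 true) (Cmd.seq ptl (Cmd.push u true)))))
    (clr 0))

/-- Program for `x ↦ G^[(N x).len] (F x)`. -/
def piter (B : ℕ) (cn cf cg : Cmd) : Cmd :=
  Cmd.seq (cpy 0 B (B + 1)) (Cmd.seq cn (Cmd.seq (plen (B + 1) (B + 2)) (Cmd.seq (bck B (B + 2))
    (Cmd.seq cf (Cmd.loop (B + 1) (Cmd.pop (B + 1) Cmd.skip Cmd.skip cg))))))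

/-- The string of the tree on stack `0` is moved, reversed, to stack `3`; stack `0` is emptied. -/
def pstr : Cmd :=
  Cmd.seq (Cmd.push 4 true) (Cmd.seq
    (Cmd.loop 4 (Cmd.pop 0 Cmd.skip
      (Cmd.pop 4 Cmd.skip Cmd.skip Cmd.skip)
      (Cmd.pop 0 Cmd.skip (Cmd.push 3 false)
        (Cmd.seq (Cmd.push 3 true) (Cmd.seq (Cmd.push 1 true) (Cmd.seq (Cmd.push 1 true) skp))))))
    Cmd.skip)

/-- Program for the question whether the string of `x` lies in the oracle. -/
def porc : Cmd :=
  Cmd.seq pstr (Cmd.seq (mv 3 1) (Cmd.query 1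
    (Cmd.seq (clr 1) (psh [true, false, false])) (Cmd.seq (clr 1) (psh [false]))))

end Pool.Agent.Helper21.BX
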