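import Pool.Agent.Helper21.BX.Defs

/-!
Project BX (MP_4a5e7e_lc): rules for `Rn`, and the basic programs.
-/

namespace Pool.Agent.Helper21.BX

open Pool.Agent.Helper5.SX Function

variable {O : Set Str} {c d c₀ c₁ c₂ : Cmd} {s s₁ s₂ : Store} {T T' : ℕ} {r u v : ℕ} {w : Str}

theorem Rn.mono (h : Rn O c s T s₁) (hT : T ≤ T') : Rn O c s T' s₁ := by
  obtain ⟨t, ht, hr⟩ := h
  exact ⟨t, ht.trans hT, hr⟩

theorem Rn.seq (h : Rn O c s T s₁) (h' : Rn O d s₁ T' s₂) : Rn O (Cmd.seq c d) s (T + T') s₂ := by
  obtain ⟨t, ht, hr⟩ := h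
  obtain ⟨t', ht', hr'⟩ := h'
  exact ⟨t + t', by omega, Run.seq hr hr'⟩

theorem Rn.skip : Rn O Cmd.skip s 1 s := ⟨1, le_rfl, Run.skip _⟩

theorem Rn.push (r : ℕ) (b : Bool) : Rn O (Cmd.push r b) s 1 (update s r (b :: s r)) :=
  ⟨1, le_rfl, Run.push _ _ _⟩

theorem Rn.pop_nil (hs : s r = []) (h : Rn O c₀ s T s₁) : Rn O (Cmd.pop r c₀ c₁ c₂) s (T + 1) s₁ := by
  obtain ⟨t, ht, hr⟩ := h
  exact ⟨t + 1, by omega, Run.pop_nil hs hr⟩

theorem Rn.pop_false (hs : s r = false :: w) (h : Rn O c₁ (update s r w) T s₁) :
    Rn O (Cmd.pop r c₀ c₁ c₂) s (T + 1) s₁ := by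
  obtain ⟨t, ht, hr⟩ := h
  exact ⟨t + 1, by omega, Run.pop_false hs hr⟩

theorem Rn.pop_true (hs : s r = true :: w) (h : Rn O c₂ (update s r w) T s₁) :
    Rn O (Cmd.pop r c₀ c₁ c₂) s (T + 1) s₁ := by
  obtain ⟨t, ht, hr⟩ := h
  exact ⟨t + 1, by omega, Run.pop_true hs hr⟩

theorem Rn.loop_nil (hs : s r = []) : Rn O (Cmd.loop r c) s 1 s := ⟨1, le_rfl, Run.loop_nil hs⟩

theorem Rn.loop_cons (hs : s r ≠ []) (h : Rn O c s T s₁) (h' : Rn O (Cmd.loop r c) s₁ T' s₂) :
    Rn O (Cmd.loop r c) s (T + T' + 1) s₂ := by
  obtain ⟨t, ht, hr⟩ := h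
  obtain ⟨t', ht', hr'⟩ := h'
  exact ⟨t + t' + 1, by omega, Run.loop_cons hs hr hr'⟩

theorem Rn.query_yes (hs : s r ∈ O) (h : Rn O c s T s₁) : Rn O (Cmd.query r c d) s (T + 1) s₁ := by
  obtain ⟨t, ht, hr⟩ := h
  exact ⟨t + 1, by omega, Run.query_yes hs hr⟩

theorem Rn.query_no (hs : s r ∉ O) (h : Rn O d s T s₁) : Rn O (Cmd.query r c d) s (T + 1) s₁ := by
  obtain ⟨t, ht, hr⟩ := h
  exact ⟨t + 1, by omega, Run.query_no hs hr⟩

/-- The final store given by another expression. -/
theorem Rn.eq (h : Rn O c s T s₁) (he : s₁ = s₂) : Rn O c s T s₂ := he ▸ h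

/-- `clr_does`. -/
theorem clr_rn (r : ℕ) : Rn O (clr r) s (3 * (s r).length + 1) (update s r []) := by
  obtain ⟨w, hw⟩ : ∃ w, s r = w := ⟨_, rfl⟩
  rw [hw]
  induction w generalizing s with
  | nil => exact (Rn.loop_nil hw).eq (by rw [← hw, update_eq_self])
  | cons b w ih =>
    have h1 : Rn O (Cmd.pop r Cmd.skip Cmd.skip Cmd.skip) s 2 (update s r w) := by
      cases b
      · exact Rn.pop_false hw Rn.skip
      · exact Rn.pop_true hw Rn.skip
    have h2 := ih (s := update s r w) (update_self _ _ _)
    have h3 := Rn.loop_cons (by rw [hw]; simp) h1 h2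
    rw [update_idem] at h3
    exact h3.mono (by rw [List.length_cons]; omega)

/-- Induction on `s r`, for all `s` (as `clr_does`). -/
theorem mv_rn (h : r ≠ u) :
    Rn O (mv r u) s (3 * (s r).length + 1) (update (update s r []) u ((s r).reverse ++ s u)) := by
  obtain ⟨w, hw⟩ : ∃ w, s r = w := ⟨_, rfl⟩
  rw [hw]
  induction w generalizing s with
  | nil =>
    refine (Rn.loop_nil hw).eq ?_
    rw [← hw, update_eq_self, hw, List.reverse_nil, List.nil_append, update_eq_self]
  | cons b w ih =>
    have h1 : Rn O (Cmd.pop r Cmd.skip (Cmd.push u false) (Cmd.push u true)) s 2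
        (update (update s r w) u (b :: s u)) := by
      cases b
      · refine (Rn.pop_false hw (Rn.push u false)).eq ?_
        rw [update_of_ne h.symm]
      · refine (Rn.pop_true hw (Rn.push u true)).eq ?_
        rw [update_of_ne h.symm]
    have h2 := ih (s := update (update s r w) u (b :: s u))
      (by rw [update_of_ne h, update_self])
    have h3 := Rn.loop_cons (by rw [hw]; simp) h1 h2
    refine (h3.mono (by rw [List.length_cons]; omega)).eq ?_
    rw [update_self, List.reverse_cons, List.append_assoc, List.singleton_append]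
    funext q
    by_cases hu : q = u
    · subst hu
      rw [update_self, update_self]
    · rw [update_of_ne hu, update_of_ne hu]
      by_cases hr : q = r
      · subst hr
        rw [update_self, update_self]
      · rw [update_of_ne hr, update_of_ne hr, update_of_ne hu, update_of_ne hr]

private theorem E1_loop (hru : r ≠ u) (hrv : r ≠ v) (huv : u ≠ v) (x : Str) (hx : s v = x) :
    Rn O (Cmd.loop v (Cmd.pop v Cmd.skip
      (Cmd.seq (Cmd.push r false) (Cmd.push u false)) (Cmd.seq (Cmd.push r true) (Cmd.push u true))))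
      s (4 * x.length + 1)
      (update (update (update s v []) r (x.reverse ++ s r)) u (x.reverse ++ s u)) := by
  induction x generalizing s with
  | nil =>
    refine (Rn.loop_nil hx).eq ?_
    rw [← hx, update_eq_self, hx, List.reverse_nil, List.nil_append, List.nil_append,
      update_eq_self, update_eq_self]
  | cons b w ih =>
    have h1 : Rn O (Cmd.pop v Cmd.skip
        (Cmd.seq (Cmd.push r false) (Cmd.push u false)) (Cmd.seq (Cmd.push r true) (Cmd.push u true))) s 3
        (update (update (update s v w) r (b :: s r)) u (b :: s u)) := by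
      cases b
      · refine (Rn.pop_false hx (Rn.seq (Rn.push r false) (Rn.push u false))).eq ?_
        rw [update_of_ne hrv, update_of_ne hru.symm, update_of_ne huv]
      · refine (Rn.pop_true hx (Rn.seq (Rn.push r true) (Rn.push u true))).eq ?_
        rw [update_of_ne hrv, update_of_ne hru.symm, update_of_ne huv]
    have h2 := ih (s := update (update (update s v w) r (b :: s r)) u (b :: s u))
      (by rw [update_of_ne huv.symm, update_of_ne hrv.symm, update_self])
    have h3 := Rn.loop_cons (by rw [hx]; simp) h1 h2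
    refine (h3.mono (by rw [List.length_cons]; omega)).eq ?_
    rw [update_self, update_of_ne hru, update_self, List.reverse_cons, List.append_assoc,
      List.append_assoc, List.singleton_append, List.singleton_append]
    funext q
    by_cases hu : q = u
    · subst hu
      rw [update_self, update_self]
    · rw [update_of_ne hu, update_of_ne hu]
      by_cases hr : q = r
      · subst hr
        rw [update_self, update_self]
      · rw [update_of_ne hr, update_of_ne hr]
        by_cases hv : q = v
        · subst hv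
          rw [update_self, update_self]
        · rw [update_of_ne hv, update_of_ne hv, update_of_ne hu, update_of_ne hr, update_of_ne hv]

/-- The two loops: `mv_rn` and an induction. -/
theorem cpy_rn (hru : r ≠ u) (hrv : r ≠ v) (huv : u ≠ v) (hu : s u = []) (hv : s v = []) :
    Rn O (cpy r u v) s (8 * (s r).length + 2) (update s u (s r)) := by
  have h1 := mv_rn (O := O) (s := s) (r := r) (u := v) hrv
  rw [hv, List.append_nil] at h1
  have h2 := E1_loop (O := O) (s := update (update s r []) v (s r).reverse) hru hrv huv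
    (s r).reverse (update_self _ _ _)
  refine ((Rn.seq h1 h2).mono (by rw [List.length_reverse]; omega)).eq ?_
  rw [List.reverse_reverse, update_of_ne hrv, update_self, update_of_ne huv,
    update_of_ne hru.symm, hu, List.append_nil]
  funext q
  by_cases hqu : q = u
  · subst hqu
    rw [update_self, update_self]
  · rw [update_of_ne hqu, update_of_ne hqu]
    by_cases hqr : q = r
    · subst hqr
      rw [update_self]
    · rw [update_of_ne hqr]
      by_cases hqv : q = v
      · subst hqv
        rw [update_self, hv]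
      · rw [update_of_ne hqv, update_of_ne hqv, update_of_ne hqr]

/-- `mv_rn` twice. -/
theorem bck_rn (hu : u ≠ 0) (hv : v ≠ 0) (huv : u ≠ v) (h0 : s 0 = []) (hsv : s v = []) :
    Rn O (bck u v) s (6 * (s u).length + 2) (update (update s u []) 0 (s u)) := by
  have h1 := mv_rn (O := O) (s := s) (r := u) (u := v) huv
  rw [hsv, List.append_nil] at h1
  have h2 := mv_rn (O := O) (s := update (update s u []) v (s u).reverse) (r := v) (u := 0) hv
  rw [update_self, List.length_reverse, List.reverse_reverse, update_of_ne hv.symm,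
    update_of_ne hu.symm, h0, List.append_nil] at h2
  refine ((Rn.seq h1 h2).mono (by omega)).eq ?_
  funext q
  by_cases hq0 : q = 0
  · subst hq0
    rw [update_self, update_self]
  · rw [update_of_ne hq0, update_of_ne hq0]
    by_cases hqv : q = v
    · subst hqv
      rw [update_self, update_of_ne huv.symm, hsv]
    · rw [update_of_ne hqv, update_of_ne hqv]

/-- Induction on `w`. -/
theorem psh_rn (w : Str) : Rn O (psh w) s (w.length + 1) (update s 0 (w ++ s 0)) := by
  induction w with
  | nil => exact Rn.skip.eq (by rw [List.nil_append, update_eq_self])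
  | cons b w ih =>
    refine (Rn.seq ih (Rn.push 0 b)).eq ?_
    rw [update_self, update_idem, List.cons_append]

end Pool.Agent.Helper21.BX
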