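import Pool.Agent.Helper21.BX.E1

/-!
Project BX (MP_4a5e7e_lc): stacks that are not named by a program.
-/

namespace Pool.Agent.Helper21.BX

open Pool.Agent.Helper5.SX Function

variable {O : Set Str} {c : Cmd} {s s₁ : Store} {T : ℕ}

private theorem E1b_up {B r₀ : ℕ} {s' u : Store} {w : Str} (hr : r₀ < B) :
    (fun r => if r < B then s' r else update u r₀ w r) =
      (fun r => if r < B then s' r else u r) := by
  funext r
  by_cases h : r < B
  · simp [h]
  · simp only [h, if_false]
    rw [update_of_ne (by omega)]

private theorem E1b_agree {B r₀ : ℕ} {s u : Store} {w : Str} (hu : ∀ r < B, u r = s r) :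
    ∀ r < B, update u r₀ w r = update s r₀ w r := by
  intro r hr
  by_cases h : r = r₀
  · subst h
    simp
  · rw [update_of_ne h, update_of_ne h]
    exact hu r hr

private theorem E1b_aux {t : ℕ} (h : Run O c s t s₁) : ∀ B, c.bd ≤ B → ∀ u : Store,
    (∀ r < B, u r = s r) → Run O c u t (fun r => if r < B then s₁ r else u r) := by
  induction h with
  | skip s =>
    intro B _ u hu
    have h1 : (fun r => if r < B then s r else u r) = u := by
      funext r
      by_cases h : r < B
      · simp [h, hu r h]
      · simp [h]
    rw [h1]
    exact Run.skip u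
  | push r₀ b s =>
    intro B hB u hu
    simp only [Cmd.bd] at hB
    have h1 : (fun r => if r < B then update s r₀ (b :: s r₀) r else u r) =
        update u r₀ (b :: u r₀) := by
      funext r
      by_cases h : r < B
      · simp only [h, if_true]
        rw [hu r₀ (by omega)]
        exact (E1b_agree hu r h).symm
      · simp only [h, if_false]
        rw [update_of_ne (by omega)]
    rw [h1]
    exact Run.push r₀ b u
  | @seq c d s s' s'' t t' _ _ ih1 ih2 =>
    intro B hB u hu
    simp only [Cmd.bd] at hB
    have h1 := ih1 B (by omega) u hu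
    have h2 := ih2 B (by omega) (fun r => if r < B then s' r else u r)
      (fun r hr => by simp [hr])
    have h3 : (fun r => if r < B then s'' r else (fun r => if r < B then s' r else u r) r) =
        (fun r => if r < B then s'' r else u r) := by
      funext r
      by_cases h : r < B
      · simp [h]
      · simp [h]
    rw [h3] at h2
    exact Run.seq h1 h2
  | pop_nil hs _ ih =>
    intro B hB u hu
    simp only [Cmd.bd] at hB
    exact Run.pop_nil ((hu _ (by omega)).trans hs) (ih B (by omega) u hu)
  | @pop_false r₀ c₀ c₁ c₂ s s' t w hs _ ih =>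
    intro B hB u hu
    simp only [Cmd.bd] at hB
    have h1 := ih B (by omega) (update u r₀ w) (E1b_agree hu)
    rw [E1b_up (by omega)] at h1
    exact Run.pop_false ((hu _ (by omega)).trans hs) h1
  | @pop_true r₀ c₀ c₁ c₂ s s' t w hs _ ih =>
    intro B hB u hu
    simp only [Cmd.bd] at hB
    have h1 := ih B (by omega) (update u r₀ w) (E1b_agree hu)
    rw [E1b_up (by omega)] at h1
    exact Run.pop_true ((hu _ (by omega)).trans hs) h1
  | @loop_nil r₀ c s hs =>
    intro B hB u hu
    simp only [Cmd.bd] at hB
    have h1 : (fun r => if r < B then s r else u r) = u := by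
      funext r
      by_cases h : r < B
      · simp [h, hu r h]
      · simp [h]
    rw [h1]
    exact Run.loop_nil ((hu _ (by omega)).trans hs)
  | @loop_cons r₀ c s s' s'' t t' hs _ _ ih1 ih2 =>
    intro B hB u hu
    have hB' := hB
    simp only [Cmd.bd] at hB
    have h1 := ih1 B (by omega) u hu
    have h2 := ih2 B hB' (fun r => if r < B then s' r else u r)
      (fun r hr => by simp [hr])
    have h3 : (fun r => if r < B then s'' r else (fun r => if r < B then s' r else u r) r) =
        (fun r => if r < B then s'' r else u r) := by
      funext r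
      by_cases h : r < B
      · simp [h]
      · simp [h]
    rw [h3] at h2
    refine Run.loop_cons ?_ h1 h2
    rw [hu _ (by omega)]
    exact hs
  | query_yes hs _ ih =>
    intro B hB u hu
    simp only [Cmd.bd] at hB
    refine Run.query_yes ?_ (ih B (by omega) u hu)
    rw [hu _ (by omega)]
    exact hs
  | query_no hs _ ih =>
    intro B hB u hu
    simp only [Cmd.bd] at hB
    refine Run.query_no ?_ (ih B (by omega) u hu)
    rw [hu _ (by omega)]
    exact hs
  | choose_left _ ih =>
    intro B hB u hu
    simp only [Cmd.bd] at hB
    exact Run.choose_left (ih B (by omega) u hu)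
  | choose_right _ ih =>
    intro B hB u hu
    simp only [Cmd.bd] at hB
    exact Run.choose_right (ih B (by omega) u hu)

/-- What is on the stacks that the program does not name does not matter. Induction on the run;
`Cmd.bd` is defined in `SY/Defs.lean`. -/
theorem run_ext {t : ℕ} (h : Run O c s t s₁) (u : Store) (hu : ∀ r < c.bd, u r = s r) :
    Run O c u t (fun r => if r < c.bd then s₁ r else u r) :=
  E1b_aux h c.bd le_rfl u hu

theorem Rn.ext (h : Rn O c s T s₁) (u : Store) (hu : ∀ r < c.bd, u r = s r) :
    Rn O c u T (fun r => if r < c.bd then s₁ r else u r) := by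
  obtain ⟨t, ht, hr⟩ := h
  exact ⟨t, ht, run_ext hr u hu⟩

/-- The form used for the functions of `PT`: the other stacks below `B` are empty, and the stacks from
`B` on are kept. -/
theorem Rn.st {B : ℕ} {w w' : Str} (h : Rn O c (BX.st w) T (BX.st w')) (hB : c.bd ≤ B) (hB' : 0 < B)
    (h0 : s 0 = w) (hs : ∀ r, 0 < r → r < B → s r = []) : Rn O c s T (update s 0 w') := by
  obtain ⟨t, ht, hr⟩ := h
  refine ⟨t, ht, ?_⟩
  have h1 := E1b_aux hr B hB s (fun r hr' => by
    by_cases h : r = 0
    · subst h
      simp [BX.st, h0]
    · simp [BX.st, h, hs r (by omega) hr'])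
  have h2 : (fun r => if r < B then BX.st w' r else s r) = update s 0 w' := by
    funext r
    by_cases h : r = 0
    · subst h
      simp [BX.st, hB']
    · rw [update_of_ne h]
      by_cases h' : r < B
      · simp [BX.st, h, h', hs r (by omega) h']
      · simp [h']
  rw [h2] at h1
  exact h1

end Pool.Agent.Helper21.BX
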