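import Pool.Agent.Helper21.BX.E1

/-!
Project BX (MP_4a5e7e_lc): the programs for the left and the right part of a tree.
-/

namespace Pool.Agent.Helper21.BX

open Pool.Agent.Helper5.SX Function

variable {O : Set Str} {s s₁ s₂ : Store} {T T' : ℕ} {w : Str}

theorem D.sz_nil : D.nil.sz = 1 := rfl

theorem D.sz_cons (a b : D) : (D.cons a b).sz = a.sz + b.sz + 1 := by
  simp [D.sz, D.code]

theorem D.sz_pos (x : D) : 0 < x.sz := by
  cases x with
  | nil => simp [D.sz, D.code]
  | cons a b => rw [D.sz_cons]; omega

theorem D.len_le_sz (x : D) : x.len ≤ x.sz := by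
  induction x with
  | nil => simp [D.len]
  | cons a b _ ih => rw [D.sz_cons, D.len]; omega

/-- The loop of `skp` takes one tree off stack `0` and one symbol off stack `1`, and goes on.

Proof: induction on `x`, for all `s`, `w`, `n`, `T'` (use `Rn.loop_cons`): for `nil` one round, which pops `false`
and one symbol of stack `1`; for `cons a b` one round which pops `true` and pushes one symbol on stack
`1`, then the induction hypothesis for `a` and for `b`. -/
theorem skp_rn (x : D) (n : ℕ) (h0 : s 0 = x.code ++ w) (h1 : s 1 = List.replicate (n + 1) true)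
    (h : Rn O skp (update (update s 0 w) 1 (List.replicate n true)) T' s₂) :
    Rn O skp s (4 * x.sz + T') s₂ := by
  sorry

/-- The same for `skm`; the symbols are kept on stack `2`. -/
theorem skm_rn (x : D) (n : ℕ) (h0 : s 0 = x.code ++ w) (h1 : s 1 = List.replicate (n + 1) true)
    (h : Rn O skm (update (update (update s 0 w) 1 (List.replicate n true)) 2
      (x.code.reverse ++ s 2)) T' s₂) :
    Rn O skm s (5 * x.sz + T') s₂ := by
  sorry

/-- On any store with empty stack `1`. -/
theorem ptl_rn (x : D) (h0 : s 0 = x.code) (h1 : s 1 = []) :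
    Rn O ptl s (4 * x.sz + 4) (update s 0 x.tl.code) := by
  sorry

theorem phd_rn (x : D) (h0 : s 0 = x.code) (h1 : s 1 = []) (h2 : s 2 = []) :
    Rn O phd s (20 * x.sz + 10) (update s 0 x.hd.code) := by
  sorry

end Pool.Agent.Helper21.BX
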