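import Pool.Agent.Helper21.BX.E2

/-!
Project BX (MP_4a5e7e_lc): the length of the spine, and the string of a tree.
-/

namespace Pool.Agent.Helper21.BX

open Pool.Agent.Helper5.SX Function

variable {O : Set Str} {s : Store}

private theorem E2b_plen {u v : ℕ} (hu : 2 < u) (hv : 2 < v) (huv : u ≠ v) (x : D)
    (h0 : s 0 = x.code) (h1 : s 1 = []) (hsv : s v = [true]) :
    Rn O (Cmd.loop v (Cmd.pop 0 Cmd.skip
      (Cmd.seq (Cmd.push 0 false) (Cmd.pop v Cmd.skip Cmd.skip Cmd.skip))
      (Cmd.seq (Cmd.push 0 true) (Cmd.seq ptl (Cmd.push u true))))) s (12 * x.sz ^ 2)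
      (update (update (update s 0 [false]) v []) u (List.replicate x.len true ++ s u)) := by
  have hv0 : v ≠ 0 := by omega
  have hu0 : u ≠ 0 := by omega
  induction x generalizing s with
  | nil =>
    have ha : s 0 = false :: [] := h0
    have hb : Rn O (Cmd.pop v Cmd.skip Cmd.skip Cmd.skip)
        (update (update s 0 []) 0 (false :: update s 0 [] 0)) 2
        (update (update (update s 0 []) 0 (false :: update s 0 [] 0)) v []) :=
      Rn.pop_true (by rw [update_of_ne hv0, update_of_ne hv0, hsv]) Rn.skip
    have hc := Rn.pop_false (c₀ := Cmd.skip)
      (c₂ := Cmd.seq (Cmd.push 0 true) (Cmd.seq ptl (Cmd.push u true))) ha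
      (Rn.seq (Rn.push 0 false) hb)
    have hd := Rn.loop_cons (r := v) (by rw [hsv]; simp) hc (Rn.loop_nil (update_self _ _ _))
    refine (hd.mono (by simp [D.sz_nil])).eq ?_
    rw [update_self, update_idem, D.len, List.replicate_zero, List.nil_append]
    funext q
    by_cases hqu : q = u
    · subst hqu
      rw [update_self, update_of_ne huv, update_of_ne hu0]
    · rw [update_of_ne hqu]
  | cons a b _ ih =>
    have ha : s 0 = true :: (a.code ++ b.code) := h0
    have he : update (update s 0 (a.code ++ b.code)) 0
        (true :: update s 0 (a.code ++ b.code) 0) = s := by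
      rw [update_self, update_idem, ← ha, update_eq_self]
    have hb := Rn.push (O := O) (s := update s 0 (a.code ++ b.code)) 0 true
    rw [he] at hb
    have hp := ptl_rn (O := O) (s := s) (D.cons a b) h0 h1
    have hc := Rn.pop_true (c₀ := Cmd.skip)
      (c₁ := Cmd.seq (Cmd.push 0 false) (Cmd.pop v Cmd.skip Cmd.skip Cmd.skip)) ha
      (Rn.seq hb (Rn.seq hp (Rn.push u true)))
    have hi := ih (s := update (update s 0 (D.cons a b).tl.code) u
        (true :: update s 0 (D.cons a b).tl.code u))
      (by rw [update_of_ne hu0.symm, update_self]; rfl)
      (by rw [update_of_ne (by omega), update_of_ne (by omega), h1])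
      (by rw [update_of_ne huv.symm, update_of_ne hv0, hsv])
    have hd := Rn.loop_cons (r := v) (by rw [hsv]; simp) hc hi
    refine (hd.mono ?_).eq ?_
    · rw [D.sz_cons]
      nlinarith [a.sz_pos, b.sz_pos]
    · rw [update_self, update_of_ne hu0]
      have hl : List.replicate b.len true ++ true :: s u =
          List.replicate (D.cons a b).len true ++ s u := by
        rw [D.len, List.replicate_succ', List.append_assoc, List.singleton_append]
      rw [hl]
      funext q
      by_cases hqu : q = u
      · subst hqu
        rw [update_self, update_self]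
      · rw [update_of_ne hqu, update_of_ne hqu]
        by_cases hqv : q = v
        · subst hqv
          rw [update_self, update_self]
        · rw [update_of_ne hqv, update_of_ne hqv]
          by_cases hq0 : q = 0
          · subst hq0
            rw [update_self, update_self]
          · rw [update_of_ne hq0, update_of_ne hq0, update_of_ne hqu, update_of_ne hq0]

/-- Induction on the tree: the loop, started with stack `v` = `[true]`, pushes `x.len` symbols `true`
on stack `u` and stops with `nil` on stack `0` and empty `v`. -/
theorem plen_rn {u v : ℕ} (hu : 2 < u) (hv : 2 < v) (huv : u ≠ v) (x : D) (h0 : s 0 = x.code)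
    (h1 : s 1 = []) (hsu : s u = []) (hsv : s v = []) :
    Rn O (plen u v) s (20 * x.sz ^ 2 + 20)
      (update (update s 0 []) u (List.replicate x.len true)) := by
  have hv0 : v ≠ 0 := by omega
  have hu0 : u ≠ 0 := by omega
  have h2 := E2b_plen hu hv huv (O := O) (s := update s v (true :: s v)) x
    (by rw [update_of_ne hv0.symm, h0]) (by rw [update_of_ne (by omega), h1])
    (by rw [update_self, hsv])
  have h3 := clr_rn (O := O) (s := update (update (update (update s v (true :: s v)) 0 [false]) v []) u
      (List.replicate x.len true ++ update s v (true :: s v) u)) 0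
  rw [update_of_ne hu0.symm, update_of_ne hv0.symm, update_self] at h3
  refine ((Rn.seq (Rn.push v true) (Rn.seq h2 h3)).mono ?_).eq ?_
  · simp only [List.length_cons, List.length_nil]
    nlinarith [x.sz_pos]
  · funext q
    rw [update_of_ne huv, hsu, List.append_nil]
    by_cases hq0 : q = 0
    · subst hq0
      rw [update_self, update_of_ne hu0.symm, update_self]
    · rw [update_of_ne hq0]
      by_cases hqu : q = u
      · subst hqu
        rw [update_self, update_self]
      · rw [update_of_ne hqu, update_of_ne hqu, update_of_ne hq0]
        by_cases hqv : q = v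
        · subst hqv
          rw [update_self, hsv]
        · rw [update_of_ne hqv, update_of_ne hq0, update_of_ne hqv]

private theorem E2b_pstr (x : D) (h0 : s 0 = x.code) (h1 : s 1 = []) (h4 : s 4 = [true]) :
    Rn O (Cmd.loop 4 (Cmd.pop 0 Cmd.skip
      (Cmd.pop 4 Cmd.skip Cmd.skip Cmd.skip)
      (Cmd.pop 0 Cmd.skip (Cmd.push 3 false)
        (Cmd.seq (Cmd.push 3 true) (Cmd.seq (Cmd.push 1 true) (Cmd.seq (Cmd.push 1 true) skp))))))
      s (10 * x.sz) (update (update (update s 0 []) 4 []) 3 (x.str.reverse ++ s 3)) := by
  induction x generalizing s with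
  | nil =>
    have ha : s 0 = false :: [] := h0
    have hb : Rn O (Cmd.pop 4 Cmd.skip Cmd.skip Cmd.skip) (update s 0 []) 2
        (update (update s 0 []) 4 []) :=
      Rn.pop_true (by rw [update_of_ne (by omega), h4]) Rn.skip
    have hc := Rn.pop_false (c₀ := Cmd.skip)
      (c₂ := Cmd.pop 0 Cmd.skip (Cmd.push 3 false)
        (Cmd.seq (Cmd.push 3 true) (Cmd.seq (Cmd.push 1 true) (Cmd.seq (Cmd.push 1 true) skp))))
      ha hb
    have hd := Rn.loop_cons (r := 4) (by rw [h4]; simp) hc (Rn.loop_nil (update_self _ _ _))
    refine (hd.mono (by simp [D.sz_nil])).eq ?_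
    rw [D.str, List.reverse_nil, List.nil_append]
    funext q
    by_cases hq3 : q = 3
    · subst hq3
      rw [update_self, update_of_ne (by omega), update_of_ne (by omega)]
    · rw [update_of_ne hq3]
  | cons a b _ ih =>
    have ha : s 0 = true :: (a.code ++ b.code) := h0
    cases a with
    | nil =>
      have hb : Rn O (Cmd.pop 0 Cmd.skip (Cmd.push 3 false)
          (Cmd.seq (Cmd.push 3 true) (Cmd.seq (Cmd.push 1 true) (Cmd.seq (Cmd.push 1 true) skp))))
          (update s 0 (D.nil.code ++ b.code)) 2
          (update (update s 0 b.code) 3 (false :: s 3)) := by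
        refine (Rn.pop_false (w := b.code) (by rw [update_self]; rfl) (Rn.push 3 false)).eq ?_
        rw [update_idem, update_of_ne (show (3 : ℕ) ≠ 0 by omega)]
      have hc := Rn.pop_true (c₀ := Cmd.skip) (c₁ := Cmd.pop 4 Cmd.skip Cmd.skip Cmd.skip) ha hb
      have hi := ih (s := update (update s 0 b.code) 3 (false :: s 3))
        (by rw [update_of_ne (by omega), update_self])
        (by rw [update_of_ne (by omega), update_of_ne (by omega), h1])
        (by rw [update_of_ne (by omega), update_of_ne (by omega), h4])
      have hd := Rn.loop_cons (r := 4) (by rw [h4]; simp) hc hi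
      refine (hd.mono (by rw [D.sz_cons, D.sz_nil]; omega)).eq ?_
      rw [update_self, D.str, List.reverse_cons, List.append_assoc, List.singleton_append]
      funext q
      by_cases hq3 : q = 3
      · subst hq3
        rw [update_self, update_self]
      · rw [update_of_ne hq3, update_of_ne hq3]
        by_cases hq4 : q = 4
        · subst hq4
          rw [update_self, update_self]
        · rw [update_of_ne hq4, update_of_ne hq4]
          by_cases hq0 : q = 0
          · subst hq0
            rw [update_self, update_self]
          · rw [update_of_ne hq0, update_of_ne hq0, update_of_ne hq3, update_of_ne hq0]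
    | cons a c =>
      have hcode : (D.cons a c).code ++ b.code = true :: (a.code ++ (c.code ++ b.code)) := by
        simp [D.code]
      have hk : Rn O skp (update (update (update s 0 (a.code ++ (c.code ++ b.code))) 3 (true :: s 3)) 1
          [true, true]) (4 * a.sz + (4 * c.sz + 1))
          (update (update s 0 b.code) 3 (true :: s 3)) := by
        refine skp_rn a 1 (w := c.code ++ b.code)
          (by rw [update_of_ne (by omega), update_of_ne (by omega), update_self])
          (by rw [update_self]; rfl) ?_
        refine skp_rn c 0 (w := b.code) (by rw [update_of_ne (by omega), update_self])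
          (by rw [update_self]) ?_
        refine (Rn.loop_nil (update_self _ _ _)).eq ?_
        funext q
        by_cases hq1 : q = 1
        · subst hq1
          rw [update_self, update_of_ne (by omega), update_of_ne (by omega), h1]
        · rw [update_of_ne hq1]
          by_cases hq0 : q = 0
          · subst hq0
            rw [update_self, update_of_ne (by omega), update_self]
          · rw [update_of_ne hq0, update_of_ne hq1, update_of_ne hq0, update_of_ne hq1]
            by_cases hq3 : q = 3
            · subst hq3
              rw [update_self, update_self]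
            · rw [update_of_ne hq3, update_of_ne hq3, update_of_ne hq0, update_of_ne hq0]
      have hb : Rn O (Cmd.pop 0 Cmd.skip (Cmd.push 3 false)
          (Cmd.seq (Cmd.push 3 true) (Cmd.seq (Cmd.push 1 true) (Cmd.seq (Cmd.push 1 true) skp))))
          (update s 0 ((D.cons a c).code ++ b.code)) (1 + (1 + (1 + (4 * a.sz + (4 * c.sz + 1)))) + 1)
          (update (update s 0 b.code) 3 (true :: s 3)) := by
        refine Rn.pop_true (w := a.code ++ (c.code ++ b.code)) (by rw [update_self, hcode]) ?_
        rw [update_idem]
        refine Rn.seq (Rn.push 3 true) (Rn.seq (Rn.push 1 true) (Rn.seq (Rn.push 1 true) ?_))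
        rw [update_self, update_idem, update_of_ne (show (3 : ℕ) ≠ 0 by omega),
          update_of_ne (show (1 : ℕ) ≠ 3 by omega), update_of_ne (show (1 : ℕ) ≠ 0 by omega), h1]
        exact hk
      have hc := Rn.pop_true (c₀ := Cmd.skip) (c₁ := Cmd.pop 4 Cmd.skip Cmd.skip Cmd.skip) ha hb
      have hi := ih (s := update (update s 0 b.code) 3 (true :: s 3))
        (by rw [update_of_ne (by omega), update_self])
        (by rw [update_of_ne (by omega), update_of_ne (by omega), h1])
        (by rw [update_of_ne (by omega), update_of_ne (by omega), h4])
      have hd := Rn.loop_cons (r := 4) (by rw [h4]; simp) hc hi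
      refine (hd.mono (by rw [D.sz_cons, D.sz_cons]; omega)).eq ?_
      rw [update_self, D.str, List.reverse_cons, List.append_assoc, List.singleton_append]
      funext q
      by_cases hq3 : q = 3
      · subst hq3
        rw [update_self, update_self]
      · rw [update_of_ne hq3, update_of_ne hq3]
        by_cases hq4 : q = 4
        · subst hq4
          rw [update_self, update_self]
        · rw [update_of_ne hq4, update_of_ne hq4]
          by_cases hq0 : q = 0
          · subst hq0
            rw [update_self, update_self]
          · rw [update_of_ne hq0, update_of_ne hq0, update_of_ne hq3, update_of_ne hq0]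

/-- Induction on the tree. -/
theorem pstr_rn (x : D) (h0 : s 0 = x.code) (h1 : s 1 = []) (h3 : s 3 = []) (h4 : s 4 = []) :
    Rn O pstr s (20 * x.sz + 20) (update (update s 0 []) 3 x.str.reverse) := by
  have h2 := E2b_pstr (O := O) (s := update s 4 (true :: s 4)) x
    (by rw [update_of_ne (by omega), h0]) (by rw [update_of_ne (by omega), h1])
    (by rw [update_self, h4])
  refine ((Rn.seq (Rn.push 4 true) (Rn.seq h2 Rn.skip)).mono (by omega)).eq ?_
  rw [update_of_ne (show (3 : ℕ) ≠ 4 by omega), h3, List.append_nil]
  funext q
  by_cases hq3 : q = 3
  · subst hq3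
    rw [update_self, update_self]
  · rw [update_of_ne hq3, update_of_ne hq3]
    by_cases hq4 : q = 4
    · subst hq4
      rw [update_self, update_of_ne (by omega), h4]
    · rw [update_of_ne hq4]
      by_cases hq0 : q = 0
      · subst hq0
        rw [update_self, update_self]
      · rw [update_of_ne hq0, update_of_ne hq0, update_of_ne hq4]

end Pool.Agent.Helper21.BX
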