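import Pool.Agent.Helper21.BX.E1

/-!
Project BX (MP_4a5e7e_lc): bounds by polynomials.
-/

namespace Pool.Agent.Helper21.BX

theorem PB.id : PB (fun n => n) := ⟨1, fun n => by simp⟩

theorem PB.const (k : ℕ) : PB (fun _ => k) := ⟨k, fun _ => Nat.le_add_left _ _⟩

theorem PB.mono {f g : ℕ → ℕ} (hg : PB g) (h : ∀ n, f n ≤ g n) : PB f := by
  obtain ⟨r, hr⟩ := hg
  exact ⟨r, fun n => (h n).trans (hr n)⟩

/-- A common form: `f n ≤ (n + 2) ^ r`. From right to left: for `n ≤ 1` use `3 ^ r ≤` (the new `r'`),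
for `n ≥ 2` `(n + 2) ^ r ≤ n ^ (2 * r)`; take `r' = 3 ^ r + 2 * r`. -/
theorem pb_iff (f : ℕ → ℕ) : PB f ↔ ∃ r : ℕ, ∀ n, f n ≤ (n + 2) ^ r := by
  constructor
  · rintro ⟨r, hr⟩
    refine ⟨r + r, fun n => (hr n).trans ?_⟩
    have h1 : n ^ r ≤ (n + 2) ^ r := Nat.pow_le_pow_left (by omega) r
    have h2 : r + 1 ≤ (n + 2) ^ r := by
      calc r + 1 ≤ 2 ^ r := Nat.lt_two_pow_self
        _ ≤ (n + 2) ^ r := Nat.pow_le_pow_left (by omega) r
    have h3 : 1 ≤ (n + 2) ^ r := Nat.one_le_pow _ _ (by omega)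
    rw [pow_add]
    nlinarith
  · rintro ⟨r, hr⟩
    refine ⟨3 ^ r + 2 * r, fun n => (hr n).trans ?_⟩
    by_cases h : n ≤ 1
    · have h1 : (n + 2) ^ r ≤ 3 ^ r := Nat.pow_le_pow_left (by omega) r
      exact h1.trans ((Nat.le_add_right _ _).trans (Nat.le_add_left _ _))
    · have h1 : n + 2 ≤ n ^ 2 := by nlinarith
      have h2 : (n + 2) ^ r ≤ n ^ (2 * r) := by
        rw [pow_mul]
        exact Nat.pow_le_pow_left h1 r
      have h3 : n ^ (2 * r) ≤ n ^ (3 ^ r + 2 * r) :=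
        Nat.pow_le_pow_right (by omega) (Nat.le_add_left _ _)
      exact h2.trans (h3.trans (Nat.le_add_right _ _))

theorem PB.add {f g : ℕ → ℕ} (hf : PB f) (hg : PB g) : PB (fun n => f n + g n) := by
  obtain ⟨r, hr⟩ := (pb_iff f).1 hf
  obtain ⟨s, hs⟩ := (pb_iff g).1 hg
  refine (pb_iff _).2 ⟨r + s + 1, fun n => ?_⟩
  have h1 := hr n
  have h2 := hs n
  have h3 : (n + 2) ^ r ≤ (n + 2) ^ (r + s) := Nat.pow_le_pow_right (by omega) (by omega)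
  have h4 : (n + 2) ^ s ≤ (n + 2) ^ (r + s) := Nat.pow_le_pow_right (by omega) (by omega)
  rw [pow_succ]
  nlinarith

theorem PB.mul {f g : ℕ → ℕ} (hf : PB f) (hg : PB g) : PB (fun n => f n * g n) := by
  obtain ⟨r, hr⟩ := (pb_iff f).1 hf
  obtain ⟨s, hs⟩ := (pb_iff g).1 hg
  refine (pb_iff _).2 ⟨r + s, fun n => ?_⟩
  rw [pow_add]
  exact Nat.mul_le_mul (hr n) (hs n)

theorem PB.pow {f : ℕ → ℕ} (hf : PB f) (k : ℕ) : PB (fun n => f n ^ k) := by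
  obtain ⟨r, hr⟩ := (pb_iff f).1 hf
  refine (pb_iff _).2 ⟨r * k, fun n => ?_⟩
  rw [pow_mul]
  exact Nat.pow_le_pow_left (hr n) k

/-- For `f` bounded by a polynomial and any `g` bounded by a polynomial; use `pb_iff` and
`Nat.pow_le_pow_left`. -/
theorem PB.comp_pow {g : ℕ → ℕ} (hg : PB g) (k : ℕ) : PB (fun n => g n ^ k + k) :=
  (hg.pow k).add (PB.const k)

end Pool.Agent.Helper21.BX
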