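import Pool.Agent.Helper21.BX.E2b
import Pool.Agent.Helper21.BX.E1b
import Pool.Agent.Helper21.BX.E3

/-!
Project BX (MP_4a5e7e_lc): closure properties of `PR` and `PT`.
-/

namespace Pool.Agent.Helper21.BX

open Pool.Agent.Helper5.SX Function

variable {O : Set Str} {ι κ : Type} {X Y Z : ι → D}

/-- A form with an arbitrary polynomial bound. -/
theorem PR.mk' (c : Cmd) (hc : c.Det) (T : ℕ → ℕ) (hT : PB T)
    (h : ∀ i, Rn O c (st (X i).code) (T (X i).sz) (st (Y i).code)) : PR O X Y := by
  obtain ⟨r, hr⟩ := hT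
  exact ⟨c, hc, r, fun i => (h i).mono (hr _)⟩

/-- Other index sets. -/
theorem PR.sub (h : PR O X Y) (f : κ → ι) : PR O (fun j => X (f j)) (fun j => Y (f j)) := by
  obtain ⟨c, hc, r, hr⟩ := h
  exact ⟨c, hc, r, fun j => hr (f j)⟩

/-- The value is not longer than a polynomial: `run_len` of `SY/Frame.lean`. -/
theorem PR.size (h : PR O X Y) : ∃ r : ℕ, ∀ i, (Y i).sz ≤ (X i).sz ^ r + r := by
  sorry

theorem PR.id : PR O X X := by
  sorry

/-- Clear stack `0` and `psh`. -/
theorem PR.const (y : D) : PR O X (fun _ => y) := by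
  sorry

theorem PT.hd : PT O D.hd := by
  sorry

theorem PT.tl : PT O D.tl := by
  sorry

/-- The two programs one after the other; `PR.size` for the bound on the argument of the second. -/
theorem PR.comp (h' : PR O Y Z) (h : PR O X Y) : PR O X Z := by
  sorry

end Pool.Agent.Helper21.BX
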