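import Pool.Agent.Helper21.BX.E4

/-!
Project BX (MP_4a5e7e_lc): pairs.
-/

namespace Pool.Agent.Helper21.BX

open Pool.Agent.Helper5.SX Function

variable {O : Set Str} {ι : Type} {X Y Z : ι → D}

/-- The program `ppair B cf cg` with `B = max (max cf.bd cg.bd) 3`; `Rn.st` for the two called programs. -/
theorem PR.cons (hF : PR O X Y) (hG : PR O X Z) : PR O X (fun i => D.cons (Y i) (Z i)) := by
  obtain ⟨p, hp⟩ := hF.size
  obtain ⟨cf, hcf, rf, hrf⟩ := hF
  obtain ⟨cg, hcg, rg, hrg⟩ := hG
  obtain ⟨B, hB⟩ : ∃ B, B = max (max cf.bd cg.bd) 3 := ⟨_, rfl⟩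
  have hBf : cf.bd ≤ B := by omega
  have hBg : cg.bd ≤ B := by omega
  have hB3 : 3 ≤ B := by omega
  refine PR.mk' (ppair B cf cg) ?_ (fun n => (8 * n + 2) + ((n ^ rf + rf) + ((3 * (n ^ p + p) + 1) +
    ((6 * n + 2) + ((n ^ rg + rg) + ((3 * (n ^ p + p) + 1) + 1)))))) ?_ fun i => ?_
  · simp [ppair, cpy, bck, mv, Cmd.Det, hcf, hcg]
  · have h1 : PB (fun n => n ^ rf + rf) := PB.comp_pow PB.id rf
    have h2 : PB (fun n => n ^ rg + rg) := PB.comp_pow PB.id rg
    have h3 : PB (fun n => 3 * (n ^ p + p) + 1) :=
      ((PB.const 3).mul (PB.comp_pow PB.id p)).add (PB.const 1)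
    have h4 : PB (fun n => 8 * n + 2) := ((PB.const 8).mul PB.id).add (PB.const 2)
    have h5 : PB (fun n => 6 * n + 2) := ((PB.const 6).mul PB.id).add (PB.const 2)
    exact h4.add (h1.add (h3.add (h5.add (h2.add (h3.add (PB.const 1))))))
  · have hpi := hp i
    unfold D.sz at hpi
    have hf := hrf i
    have hg := hrg i
    unfold D.sz at hf hg ⊢
    generalize (X i).code = x at hpi hf hg ⊢
    have hcode : (D.cons (Y i) (Z i)).code = true :: ((Y i).code ++ (Z i).code) := rfl
    rw [hcode]
    generalize (Y i).code = y at hpi hf ⊢
    generalize (Z i).code = z at hg ⊢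
    have hst : ∀ (w : Str) (r : ℕ), r ≠ 0 → BX.st w r = [] := fun w r hr => if_neg hr
    have hst0 : ∀ (w : Str), BX.st w 0 = w := fun w => if_pos rfl
    -- copy
    have a1 : Rn O (cpy 0 B (B + 1)) (BX.st x) (8 * x.length + 2) (update (BX.st x) B x) := by
      have := cpy_rn (O := O) (s := BX.st x) (r := 0) (u := B) (v := B + 1) (by omega) (by omega)
        (by omega) (hst _ _ (by omega)) (hst _ _ (by omega))
      rw [hst0] at this
      exact this
    -- first program
    have a2 : Rn O cf (update (BX.st x) B x) (x.length ^ rf + rf)
        (update (update (BX.st x) B x) 0 y) :=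
      hf.st hBf (by omega) (by rw [update_of_ne (by omega), hst0]) (fun r h1 h2 => by
        rw [update_of_ne (by omega), hst _ _ (by omega)])
    have a3 : Rn O (mv 0 (B + 1)) (update (update (BX.st x) B x) 0 y) (3 * (x.length ^ p + p) + 1)
        (update (update (BX.st []) B x) (B + 1) y.reverse) := by
      have h1 := mv_rn (O := O) (s := update (update (BX.st x) B x) 0 y) (r := 0) (u := B + 1)
        (by omega)
      rw [update_self, update_of_ne (show B + 1 ≠ 0 by omega), update_of_ne (by omega),
        hst _ _ (by omega), List.append_nil] at h1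
      refine (h1.mono (by omega)).eq ?_
      funext q
      by_cases h2 : q = B + 1
      · subst h2
        rw [update_self, update_self]
      · rw [update_of_ne h2, update_of_ne h2]
        by_cases h3 : q = 0
        · subst h3
          rw [update_self, update_of_ne (by omega), hst0]
        · rw [update_of_ne h3, update_of_ne h3]
          by_cases h4 : q = B
          · subst h4
            rw [update_self, update_self]
          · rw [update_of_ne h4, update_of_ne h4, hst _ _ h3, hst _ _ h3]
    have a4 : Rn O (bck B (B + 2)) (update (update (BX.st []) B x) (B + 1) y.reverse)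
        (6 * x.length + 2) (update (BX.st x) (B + 1) y.reverse) := by
      have h1 := bck_rn (O := O) (s := update (update (BX.st []) B x) (B + 1) y.reverse) (u := B)
        (v := B + 2) (by omega) (by omega) (by omega)
        (by rw [update_of_ne (by omega), update_of_ne (by omega), hst0])
        (by rw [update_of_ne (by omega), update_of_ne (by omega), hst _ _ (by omega)])
      rw [update_of_ne (show B ≠ B + 1 by omega), update_self] at h1
      refine h1.eq ?_
      funext q
      by_cases h3 : q = 0
      · subst h3
        rw [update_self, update_of_ne (by omega), hst0]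
      · rw [update_of_ne h3]
        by_cases h2 : q = B
        · subst h2
          rw [update_self, update_of_ne (by omega), hst _ _ h3]
        · rw [update_of_ne h2]
          by_cases h4 : q = B + 1
          · subst h4
            rw [update_self, update_self]
          · rw [update_of_ne h4, update_of_ne h2, update_of_ne h4, hst _ _ h3, hst _ _ h3]
    have a5 : Rn O cg (update (BX.st x) (B + 1) y.reverse) (x.length ^ rg + rg)
        (update (update (BX.st x) (B + 1) y.reverse) 0 z) :=
      hg.st hBg (by omega) (by rw [update_of_ne (by omega), hst0]) (fun r h1 h2 => by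
        rw [update_of_ne (by omega), hst _ _ (by omega)])
    have a6 : Rn O (mv (B + 1) 0) (update (update (BX.st x) (B + 1) y.reverse) 0 z)
        (3 * (x.length ^ p + p) + 1) (BX.st (y ++ z)) := by
      have h1 := mv_rn (O := O) (s := update (update (BX.st x) (B + 1) y.reverse) 0 z)
        (r := B + 1) (u := 0) (by omega)
      rw [update_self, update_of_ne (show B + 1 ≠ 0 by omega), update_self,
        List.length_reverse, List.reverse_reverse] at h1
      refine (h1.mono (by omega)).eq ?_
      funext q
      by_cases h3 : q = 0
      · subst h3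
        rw [update_self, hst0]
      · rw [update_of_ne h3, hst _ _ h3]
        by_cases h4 : q = B + 1
        · subst h4
          rw [update_self]
        · rw [update_of_ne h4, update_of_ne h3, update_of_ne h4, hst _ _ h3]
    have a7 : Rn O (Cmd.push 0 true) (BX.st (y ++ z)) 1 (BX.st (true :: (y ++ z))) := by
      refine (Rn.push 0 true).eq ?_
      funext q
      by_cases h3 : q = 0
      · subst h3
        rw [update_self, hst0, hst0]
      · rw [update_of_ne h3, hst _ _ h3, hst _ _ h3]
    exact a1.seq (a2.seq (a3.seq (a4.seq (a5.seq (a6.seq a7)))))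

end Pool.Agent.Helper21.BX
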