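import Pool.Agent.Helper21.BX.E4

/-!
Project BX (MP_4a5e7e_lc): distinction of cases.
-/

namespace Pool.Agent.Helper21.BX

open Pool.Agent.Helper5.SX Function

variable {O : Set Str} {ι : Type} {X Y Z W : ι → D}

private theorem E6_bck {B : ℕ} (hB : 3 ≤ B) (x : Str) :
    Rn O (bck B (B + 2)) (update (update (BX.st x) B x) 0 []) (6 * x.length + 2) (BX.st x) := by
  have hst : ∀ (w : Str) (r : ℕ), r ≠ 0 → BX.st w r = [] := fun w r hr => if_neg hr
  have hst0 : ∀ (w : Str), BX.st w 0 = w := fun w => if_pos rfl
  have h1 := bck_rn (O := O) (s := update (update (BX.st x) B x) 0 []) (u := B)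
    (v := B + 2) (by omega) (by omega) (by omega)
    (by rw [update_self])
    (by rw [update_of_ne (by omega), update_of_ne (by omega), hst _ _ (by omega)])
  rw [update_of_ne (show B ≠ 0 by omega), update_self] at h1
  refine h1.eq ?_
  funext q
  by_cases h3 : q = 0
  · subst h3
    rw [update_self, hst0]
  · rw [update_of_ne h3, hst _ _ h3]
    by_cases h2 : q = B
    · subst h2
      rw [update_self]
    · rw [update_of_ne h2, update_of_ne h3, update_of_ne h2, hst _ _ h3]

/-- The program `pifn B cf cg ch` with `B` at least `3` and the three bounds `Cmd.bd`. -/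
theorem PR.ifn (hF : PR O X Y) (hG : PR O X Z) (hH : PR O X W) :
    PR O X (fun i => D.ifn (Y i) (Z i) (W i)) := by
  obtain ⟨p, hp⟩ := hF.size
  obtain ⟨cf, hcf, rf, hrf⟩ := hF
  obtain ⟨cg, hcg, rg, hrg⟩ := hG
  obtain ⟨ch, hch, rh, hrh⟩ := hH
  obtain ⟨B, hB⟩ : ∃ B, B = max (max (max cf.bd cg.bd) ch.bd) 3 := ⟨_, rfl⟩
  have hBf : cf.bd ≤ B := by omega
  have hB3 : 3 ≤ B := by omega
  refine PR.mk' (pifn B cf cg ch) ?_ (fun n => (8 * n + 2) + ((n ^ rf + rf) +
    (((6 * n + 2) + ((n ^ rg + rg) + ((3 * (n ^ p + p) + 1) + ((6 * n + 2) +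
      (n ^ rh + rh))))) + 1))) ?_ fun i => ?_
  · simp [pifn, cpy, bck, mv, clr, Cmd.Det, hcf, hcg, hch]
  · have h1 : PB (fun n => n ^ rf + rf) := PB.comp_pow PB.id rf
    have h2 : PB (fun n => n ^ rg + rg) := PB.comp_pow PB.id rg
    have h2' : PB (fun n => n ^ rh + rh) := PB.comp_pow PB.id rh
    have h3 : PB (fun n => 3 * (n ^ p + p) + 1) :=
      ((PB.const 3).mul (PB.comp_pow PB.id p)).add (PB.const 1)
    have h4 : PB (fun n => 8 * n + 2) := ((PB.const 8).mul PB.id).add (PB.const 2)
    have h5 : PB (fun n => 6 * n + 2) := ((PB.const 6).mul PB.id).add (PB.const 2)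
    exact h4.add (h1.add ((h5.add (h2.add (h3.add (h5.add h2')))).add (PB.const 1)))
  · have hpi := hp i
    unfold D.sz at hpi
    have hf := hrf i
    have hg := hrg i
    have hh := hrh i
    unfold D.sz at hf hg hh ⊢
    generalize (X i).code = x at hpi hf hg hh ⊢
    have hst : ∀ (w : Str) (r : ℕ), r ≠ 0 → BX.st w r = [] := fun w r hr => if_neg hr
    have hst0 : ∀ (w : Str), BX.st w 0 = w := fun w => if_pos rfl
    -- copy
    have a1 : Rn O (cpy 0 B (B + 1)) (BX.st x) (8 * x.length + 2) (update (BX.st x) B x) := by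
      have := cpy_rn (O := O) (s := BX.st x) (r := 0) (u := B) (v := B + 1) (by omega) (by omega)
        (by omega) (hst _ _ (by omega)) (hst _ _ (by omega))
      rw [hst0] at this
      exact this
    -- first program
    have a2 : Rn O cf (update (BX.st x) B x) (x.length ^ rf + rf)
        (update (update (BX.st x) B x) 0 (Y i).code) :=
      hf.st hBf (by omega) (by rw [update_of_ne (by omega), hst0]) (fun r h1 h2 => by
        rw [update_of_ne (by omega), hst _ _ (by omega)])
    refine a1.seq (a2.seq ?_)
    have a3 := E6_bck (O := O) hB3 x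
    rcases hY : Y i with _ | ⟨a, b⟩
    · have hcode : D.nil.code = [false] := rfl
      rw [hcode]
      refine Rn.pop_false (w := []) (by rw [update_self]) ?_
      rw [update_idem]
      exact (a3.seq hg).mono (by omega)
    · have hcode : (D.cons a b).code = true :: (a.code ++ b.code) := rfl
      rw [hY, hcode, List.length_cons] at hpi
      rw [hcode]
      refine Rn.pop_true (w := a.code ++ b.code) (by rw [update_self]) ?_
      rw [update_idem]
      have a4 : Rn O (clr 0) (update (update (BX.st x) B x) 0 (a.code ++ b.code))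
          (3 * (x.length ^ p + p) + 1) (update (update (BX.st x) B x) 0 []) := by
        have h1 := clr_rn (O := O) (s := update (update (BX.st x) B x) 0 (a.code ++ b.code)) 0
        rw [update_self, update_idem] at h1
        exact h1.mono (by omega)
      exact (a4.seq (a3.seq hh)).mono (by omega)

end Pool.Agent.Helper21.BX
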