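import Pool.Agent.Helper21.BX.E4

/-!
Project BX (MP_4a5e7e_lc): bounded iteration.
-/

namespace Pool.Agent.Helper21.BX

open Pool.Agent.Helper5.SX Function

variable {O : Set Str} {ι : Type} {X N Y : ι → D}

/-- The last loop: before the round there are `k` symbols on stack `B + 1` and the code of `S j` on
stack `0`. -/
private theorem E7_loop {cg : Cmd} {B K q n : ℕ} {S : ℕ → D} (hB : cg.bd ≤ B) (hB' : 3 ≤ B)
    (hg : ∀ j < n, Rn O cg (BX.st (S j).code) ((S j).sz ^ q + q) (BX.st (S (j + 1)).code))
    (hK : ∀ j ≤ n, (S j).sz ≤ K) :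
    ∀ (k j : ℕ) (s : Store), j + k = n → s 0 = (S j).code →
      (∀ r, 0 < r → r < B → s r = []) → s (B + 1) = List.replicate k true →
      Rn O (Cmd.loop (B + 1) (Cmd.pop (B + 1) Cmd.skip Cmd.skip cg)) s (k * (K ^ q + q + 2) + 1)
        (update (update s (B + 1) []) 0 (S n).code) := by
  intro k
  induction k with
  | zero =>
    intro j s hj h0 _ h1
    refine ((Rn.loop_nil h1).mono (by omega)).eq ?_
    funext r
    by_cases hr0 : r = 0
    · subst hr0
      rw [update_self, h0, ← hj]
      rfl
    · rw [update_of_ne hr0]
      by_cases hr1 : r = B + 1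
      · subst hr1
        rw [update_self, h1]
        rfl
      · rw [update_of_ne hr1]
  | succ k ih =>
    intro j s hj h0 hs h1
    have hne : s (B + 1) ≠ [] := by
      rw [h1]
      exact List.cons_ne_nil _ _
    have h2 : Rn O cg (update s (B + 1) (List.replicate k true)) ((S j).sz ^ q + q)
        (update (update s (B + 1) (List.replicate k true)) 0 (S (j + 1)).code) := by
      refine Rn.st (hg j (by omega)) hB (by omega) ?_ ?_
      · rw [update_of_ne (by omega), h0]
      · intro r hr hrB
        rw [update_of_ne (by omega)]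
        exact hs r hr hrB
    have h3 := Rn.pop_true (c₀ := Cmd.skip) (c₁ := Cmd.skip)
      (h1.trans (List.replicate_succ (n := k) (a := true))) h2
    have hy : (S j).sz ≤ K := hK j (by omega)
    have h4 : (S j).sz ^ q + q + 1 ≤ K ^ q + q + 1 := by
      have := Nat.pow_le_pow_left hy q
      omega
    have h5 := ih (j + 1) (update (update s (B + 1) (List.replicate k true)) 0 (S (j + 1)).code)
      (by omega) (update_self _ _ _)
      (fun r hr hrB => by
        rw [update_of_ne (by omega), update_of_ne (by omega)]
        exact hs r hr hrB)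
      (by
        rw [update_of_ne (by omega), update_self])
    refine ((Rn.loop_cons hne (h3.mono h4) h5).mono ?_).eq ?_
    · have : (k + 1) * (K ^ q + q + 2) = k * (K ^ q + q + 2) + (K ^ q + q + 2) := by ring
      omega
    · funext r
      by_cases hr0 : r = 0
      · subst hr0
        rw [update_self, update_self]
      · rw [update_of_ne hr0, update_of_ne hr0]
        by_cases hr1 : r = B + 1
        · subst hr1
          rw [update_self, update_self]
        · rw [update_of_ne hr1, update_of_ne hr1, update_of_ne hr0, update_of_ne hr1]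

/-- The parts of the program which never guess. -/
private theorem E7_det {B : ℕ} {cn cf cg : Cmd} (hn : cn.Det) (hf : cf.Det) (hg : cg.Det) :
    (piter B cn cf cg).Det := by
  simp only [piter, cpy, bck, mv, plen, ptl, skp, clr, Cmd.Det, hn, hf, hg, and_self]

/-- Iteration with a polynomial bound on the size of all the intermediate values `S i j`,
`j ≤ (N i).len`.

Program `piter B cn cf cg`, `B` at least `3` and the three bounds `Cmd.bd`. The last loop: induction on
the number of symbols on stack `B + 1` (before round `j` there are `(N i).len - j` symbols, and the code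
of `S i j` on stack `0`). The time of one round is at most `(x ^ r + r) ^ rg + rg + 3` for
`x = (X i).sz`, and there are `(N i).len ≤ (N i).sz` rounds (`PR.size`, `D.len_le_sz`). -/
theorem PR.iter (S : ι → ℕ → D) (hN : PR O X N) (hF : PR O X (fun i => S i 0))
    (hG : PR O (fun p : {p : ι × ℕ // p.2 < (N p.1).len} => S p.1.1 p.1.2)
      (fun p => S p.1.1 (p.1.2 + 1)))
    (r : ℕ) (h : ∀ i, ∀ j ≤ (N i).len, (S i j).sz ≤ (X i).sz ^ r + r) :
    PR O X (fun i => S i (N i).len) := by
  obtain ⟨m, hm⟩ := PR.size hN
  obtain ⟨cn, dn, a, hn⟩ := hN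
  obtain ⟨cf, df, b, hf⟩ := hF
  obtain ⟨cg, dg, q, hg⟩ := hG
  obtain ⟨B, hB3, hBn, hBf, hBg⟩ : ∃ B, 3 ≤ B ∧ cn.bd ≤ B ∧ cf.bd ≤ B ∧ cg.bd ≤ B :=
    ⟨3 + cn.bd + cf.bd + cg.bd, by omega, by omega, by omega, by omega⟩
  refine PR.mk' (piter B cn cf cg) (E7_det dn df dg)
    (fun n => (8 * n ^ 1 + 2) + ((n ^ a + a) + ((20 * (n ^ m + m) ^ 2 + 20) + ((6 * n ^ 1 + 2) +
      ((n ^ b + b) + ((n ^ m + m) * ((n ^ r + r) ^ q + q + 2) + 1)))))) ?_ ?_
  · have p : ∀ k, PB (fun n => n ^ k + k) := fun k => (PB.id.pow k).add (PB.const k)
    exact (((PB.const 8).mul (PB.id.pow 1)).add (PB.const 2)).add ((p a).add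
      ((((PB.const 20).mul ((p m).pow 2)).add (PB.const 20)).add
      ((((PB.const 6).mul (PB.id.pow 1)).add (PB.const 2)).add ((p b).add
      (((p m).mul ((((p r).pow q).add (PB.const q)).add (PB.const 2))).add (PB.const 1))))))
  · intro i
    have hlen : (X i).code.length = (X i).sz := rfl
    -- copy
    have h1 : Rn O (cpy 0 B (B + 1)) (BX.st (X i).code) (8 * (X i).sz ^ 1 + 2)
        (update (BX.st (X i).code) B (X i).code) := by
      have e := cpy_rn (O := O) (s := BX.st (X i).code) (r := 0) (u := B) (v := B + 1)
        (by omega) (by omega) (by omega) (by simp [BX.st]; omega) (by simp [BX.st])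
      have e0 : BX.st (X i).code 0 = (X i).code := by simp [BX.st]
      rw [e0, hlen] at e
      rw [pow_one]
      exact e
    obtain ⟨s1, hs1⟩ : ∃ s1, s1 = update (BX.st (X i).code) B (X i).code := ⟨_, rfl⟩
    rw [← hs1] at h1
    have v1 : ∀ j, s1 j = if j = 0 ∨ j = B then (X i).code else [] := by
      intro j
      rw [hs1]
      by_cases hj : j = B
      · subst hj
        rw [update_self, if_pos (Or.inr rfl)]
      · rw [update_of_ne hj]
        unfold BX.st
        by_cases hj0 : j = 0
        · rw [if_pos hj0, if_pos (Or.inl hj0)]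
        · rw [if_neg hj0, if_neg (by omega)]
    -- `N`
    have h2 : Rn O cn s1 ((X i).sz ^ a + a) (update s1 0 (N i).code) := by
      refine Rn.st (hn i) hBn (by omega) ?_ ?_
      · rw [v1, if_pos (Or.inl rfl)]
      · intro j hj hjB
        rw [v1, if_neg (by omega)]
    obtain ⟨s2, hs2⟩ : ∃ s2, s2 = update s1 0 (N i).code := ⟨_, rfl⟩
    rw [← hs2] at h2
    have v2 : ∀ j, s2 j = if j = 0 then (N i).code else if j = B then (X i).code else [] := by
      intro j
      rw [hs2]
      by_cases hj : j = 0
      · subst hj
        rw [update_self, if_pos rfl]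
      · rw [update_of_ne hj, v1, if_neg hj]
        by_cases hjB : j = B
        · rw [if_pos (Or.inr hjB), if_pos hjB]
        · rw [if_neg (by omega), if_neg hjB]
    -- length
    have h3 : Rn O (plen (B + 1) (B + 2)) s2 (20 * ((X i).sz ^ m + m) ^ 2 + 20)
        (update (update s2 0 []) (B + 1) (List.replicate (N i).len true)) := by
      refine (plen_rn (by omega) (by omega) (by omega) (N i) ?_ ?_ ?_ ?_).mono ?_
      · rw [v2, if_pos rfl]
      · rw [v2, if_neg (by omega), if_neg (by omega)]
      · rw [v2, if_neg (by omega), if_neg (by omega)]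
      · rw [v2, if_neg (by omega), if_neg (by omega)]
      · have := Nat.pow_le_pow_left (hm i) 2
        omega
    obtain ⟨s3, hs3⟩ : ∃ s3, s3 = update (update s2 0 []) (B + 1)
      (List.replicate (N i).len true) := ⟨_, rfl⟩
    rw [← hs3] at h3
    have v3 : ∀ j, s3 j = if j = B + 1 then List.replicate (N i).len true else
        if j = B then (X i).code else [] := by
      intro j
      rw [hs3]
      by_cases hj : j = B + 1
      · subst hj
        rw [update_self, if_pos rfl]
      · rw [update_of_ne hj, if_neg hj]
        by_cases hj0 : j = 0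
        · subst hj0
          rw [update_self, if_neg (by omega)]
        · rw [update_of_ne hj0, v2, if_neg hj0]
    -- back
    have h4 : Rn O (bck B (B + 2)) s3 (6 * (X i).sz ^ 1 + 2)
        (update (update s3 B []) 0 (X i).code) := by
      have e := bck_rn (O := O) (s := s3) (u := B) (v := B + 2) (by omega) (by omega) (by omega)
        (by rw [v3, if_neg (by omega), if_neg (by omega)])
        (by rw [v3, if_neg (by omega), if_neg (by omega)])
      have e0 : s3 B = (X i).code := by rw [v3, if_neg (by omega), if_pos rfl]
      rw [e0, hlen] at e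
      rw [pow_one]
      exact e
    obtain ⟨s4, hs4⟩ : ∃ s4, s4 = update (update s3 B []) 0 (X i).code := ⟨_, rfl⟩
    rw [← hs4] at h4
    have v4 : ∀ j, s4 j = if j = 0 then (X i).code else
        if j = B + 1 then List.replicate (N i).len true else [] := by
      intro j
      rw [hs4]
      by_cases hj : j = 0
      · subst hj
        rw [update_self, if_pos rfl]
      · rw [update_of_ne hj, if_neg hj]
        by_cases hjB : j = B
        · subst hjB
          rw [update_self, if_neg (by omega)]
        · rw [update_of_ne hjB, v3, if_neg hjB]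
    -- `F`
    have h5 : Rn O cf s4 ((X i).sz ^ b + b) (update s4 0 (S i 0).code) := by
      refine Rn.st (hf i) hBf (by omega) ?_ ?_
      · rw [v4, if_pos rfl]
      · intro j hj hjB
        rw [v4, if_neg (by omega), if_neg (by omega)]
    obtain ⟨s5, hs5⟩ : ∃ s5, s5 = update s4 0 (S i 0).code := ⟨_, rfl⟩
    rw [← hs5] at h5
    have v5 : ∀ j, s5 j = if j = 0 then (S i 0).code else
        if j = B + 1 then List.replicate (N i).len true else [] := by
      intro j
      rw [hs5]
      by_cases hj : j = 0
      · subst hj
        rw [update_self, if_pos rfl]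
      · rw [update_of_ne hj, v4, if_neg hj, if_neg hj]
    -- the loop
    have h6 := E7_loop (O := O) (S := S i) (n := (N i).len) (K := (X i).sz ^ r + r) hBg hB3
      (fun j hj => hg ⟨(i, j), hj⟩) (h i) (N i).len 0 s5 (Nat.zero_add _)
      (by rw [v5, if_pos rfl])
      (fun j hj hjB => by rw [v5, if_neg (by omega), if_neg (by omega)])
      (by rw [v5, if_neg (by omega), if_pos rfl])
    have hl : (N i).len ≤ (X i).sz ^ m + m := (D.len_le_sz _).trans (hm i)
    have h7 : (N i).len * (((X i).sz ^ r + r) ^ q + q + 2) + 1 ≤
        ((X i).sz ^ m + m) * (((X i).sz ^ r + r) ^ q + q + 2) + 1 :=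
      Nat.add_le_add_right (Nat.mul_le_mul_right _ hl) 1
    refine (h1.seq (h2.seq (h3.seq (h4.seq (h5.seq (h6.mono h7)))))).eq ?_
    funext j
    by_cases hj : j = 0
    · subst hj
      rw [update_self]
      simp [BX.st]
    · rw [update_of_ne hj]
      have e : BX.st (S i (N i).len).code j = [] := by
        unfold BX.st
        rw [if_neg hj]
      rw [e]
      by_cases hjB : j = B + 1
      · subst hjB
        rw [update_self]
      · rw [update_of_ne hjB, v5, if_neg hj, if_neg hjB]

end Pool.Agent.Helper21.BX
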