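import Pool.Agent.Helper21.BX.E4

/-!
Project BX (MP_4a5e7e_lc): questions to the oracle.
-/

namespace Pool.Agent.Helper21.BX

open Pool.Agent.Helper5.SX Function

variable {O : Set Str}

private theorem E8_len : ∀ x : D, x.str.length ≤ x.sz
  | D.nil => by simp [D.str]
  | D.cons D.nil b => by
    have h := E8_len b
    rw [D.sz_cons]
    simp only [D.str, List.length_cons]
    omega
  | D.cons (D.cons _ _) b => by
    have h := E8_len b
    rw [D.sz_cons]
    simp only [D.str, List.length_cons]
    omega

private theorem E8_det : porc.Det := by
  simp [porc, pstr, mv, clr, psh, skp, Cmd.Det]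

private theorem E8_end (x : D) (w : Str) :
    Rn O (Cmd.seq (clr 1) (psh w)) (update (st []) 1 x.str)
      (3 * x.str.length + 1 + (w.length + 1)) (st w) := by
  have h1 := clr_rn (O := O) (s := update (st []) 1 x.str) 1
  rw [update_self, update_idem] at h1
  have h2 := psh_rn (O := O) (s := update (st []) 1 []) w
  refine (Rn.seq h1 h2).eq ?_
  funext q
  by_cases h0 : q = 0
  · subst h0
    simp [st]
  · by_cases h1 : q = 1
    · subst h1
      simp [st]
    · simp [st, h0, h1]

private theorem E8_start (x : D) {c d : Cmd} {T : ℕ} {s₁ : Store}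
    (h : Rn O (Cmd.query 1 c d) (update (st []) 1 x.str) T s₁) :
    Rn O (Cmd.seq pstr (Cmd.seq (mv 3 1) (Cmd.query 1 c d))) (st x.code)
      (20 * x.sz + 20 + (3 * x.str.length + 1 + T)) s₁ := by
  have h1 := pstr_rn (O := O) (s := st x.code) x (by simp [st]) (by simp [st]) (by simp [st])
    (by simp [st])
  have h2 := mv_rn (O := O) (s := update (update (st x.code) 0 []) 3 x.str.reverse) (r := 3)
    (u := 1) (by norm_num)
  rw [update_self, List.reverse_reverse, List.length_reverse] at h2
  have e : update (update (update (update (st x.code) 0 []) 3 x.str.reverse) 3 []) 1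
      (x.str ++ update (update (st x.code) 0 []) 3 x.str.reverse 1) =
      update (st []) 1 x.str := by
    funext q
    by_cases h0 : q = 0
    · subst h0
      simp [st]
    · by_cases h1 : q = 1
      · subst h1
        simp [st]
      · by_cases h3 : q = 3
        · subst h3
          simp [st]
        · simp [st, h0, h1, h3]
  exact Rn.seq h1 (Rn.seq (h2.eq e) h)

open Classical in
/-- The program `porc` (`pstr_rn`, `mv_rn`, `clr_rn`, `psh_rn`). -/
theorem PT.orac : PT O (fun x => if x.str ∈ O then D.cons D.nil D.nil else D.nil) := by
  refine PR.mk' porc E8_det (fun n => 26 * n + 30)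
    (((PB.const 26).mul PB.id).add (PB.const 30)) fun x => ?_
  have hl := E8_len x
  by_cases hx : x.str ∈ O
  · rw [if_pos hx]
    have h1 := E8_end (O := O) x [true, false, false]
    have h2 := Rn.query_yes (O := O) (r := 1) (d := Cmd.seq (clr 1) (psh [false]))
      (s := update (st []) 1 x.str) (by rw [update_self]; exact hx) h1
    have h3 := E8_start (O := O) x h2
    refine (h3.mono ?_).eq ?_
    · simp only [List.length_cons, List.length_nil]
      omega
    · rfl
  · rw [if_neg hx]
    have h1 := E8_end (O := O) x [false]
    have h2 := Rn.query_no (O := O) (r := 1) (c := Cmd.seq (clr 1) (psh [true, false, false]))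
      (s := update (st []) 1 x.str) (by rw [update_self]; exact hx) h1
    have h3 := E8_start (O := O) x h2
    refine (h3.mono ?_).eq ?_
    · simp only [List.length_cons, List.length_nil]
      omega
    · rfl

end Pool.Agent.Helper21.BX
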