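import Pool.Agent.Helper21.BX.T1b
import Pool.Agent.Helper21.BX.E7
import Pool.Agent.Helper21.BX.E8

/-!
Project BX (MP_4a5e7e_lc): from strings to their codes and back.
-/

namespace Pool.Agent.Helper21.BX

open Pool.Agent.Helper5.SX Function

variable {O : Set Str} {s : Store} {α : Type} [Cod α]

/-- The string on stack `0` is replaced by the code of its tree. -/
def pinp : Cmd :=
  Cmd.seq (mv 0 1) (Cmd.seq (Cmd.push 0 false) (Cmd.loop 1 (Cmd.pop 1 Cmd.skip
    (Cmd.seq (Cmd.push 0 false) (Cmd.push 0 true))
    (Cmd.seq (Cmd.push 0 false) (Cmd.seq (Cmd.push 0 false)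
      (Cmd.seq (Cmd.push 0 true) (Cmd.push 0 true)))))))

/-- `mv_rn`, and an induction: with `v.reverse` on stack `1` and `(Cod.enc u).code` on stack `0` the
loop ends with `(Cod.enc (v ++ u)).code` on stack `0`. -/
theorem pinp_rn (w : Str) (h0 : s 0 = w) (h1 : s 1 = []) :
    Rn O pinp s (12 * w.length + 12) (update s 0 (Cod.enc w : D).code) := by
  sorry

theorem str_enc (w : Str) : (Cod.enc w : D).str = w := by
  sorry

theorem start_eq (w : Str) : start w [] = st w := by
  ext r : 1
  unfold start st
  split_ifs <;> rfl

/-- The code of a tree as a string: the program `pinp`. The size of the tree `x` is the length of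
`x.code`. -/
theorem PF.codeD : PF O (fun x : D => x.code) := by
  sorry

theorem PF.code {f : α → D} (hf : PF O f) : PF O (fun a => (f a).code) := PF.codeD.comp hf

/-- The string of a tree: the programs `pstr`, `mv 3 0` and `pinp`. -/
theorem PF.strD : PF O (fun x : D => x.str) := by
  sorry

/-- The code of the data as a string (`PF.code` for the identity, by the definition of `PF`). -/
theorem PF.codeOf : PF O (fun a : α => (Cod.enc a : D).code) := by
  sorry

/-- The length of the spine of a tree: `PR.iter` as in `PF.llength`, or the program `plen`. -/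
theorem PF.lenD : PF O (fun x : D => x.len) := by
  sorry

open Classical in
/-- Questions to the oracle (`PT.orac`, `str_enc`). -/
theorem PF.orac {f : α → Str} (hf : PF O f) : PF O (fun a => decide (f a ∈ O)) := by
  sorry

end Pool.Agent.Helper21.BX
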