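import Pool.Agent.Helper21.BX.N1
import Pool.Agent.Helper21.BX.A4
import Pool.Agent.Helper7.BX.K

/-!
Project BX (MP_4a5e7e_lc): the set is complete.
-/

namespace Pool.Agent.Helper21.BX

open Pool.Agent.Helper91.PolyTime Pool.Agent.Helper7.BX

/-- The environment. -/
def EE (k : ℕ) : Env := ⟨k, univ, VK⟩

theorem UP_EE (k : ℕ) : UP (EE k) := ptf_univ PTF.id.fst PTF.id.snd.fst PTF.id.snd.snd

theorem VP_EE (k : ℕ) : VP (EE k) := ptf_VK PTF.id.fst PTF.id.snd

/-- `findS_isSome` and the definition of `K`. -/
theorem Kd_EE (k : ℕ) (c : S) : Kd (EE k) c = true ↔ c ∈ K := by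
  unfold Kd
  rw [findS_isSome]
  exact Iff.rfl

/-- The set. -/
def AA (k : ℕ) : Lang := {q | inA (EE k) q = true}

/-- The level `l` is in an attack interval: by `wpar` and clipped powers. -/
def att (l : ℕ) : Bool :=
  !(decide (pw l (wpar l).2 = 0)) &&
    (decide (pw l ((wpar l).2 ^ 2) = 0) || decide (pw l ((wpar l).2 ^ 2) = l))

/-- `wpar_eq`; `pw l n` is `2 ^ n` if this is at most `l` and `0` otherwise. -/
theorem att_iff (l : ℕ) : att l = true ↔ nw (win l) ≤ l ∧ l ≤ tw (win l) := by
  have h2 : (2 : ℕ) ^ aw (win l) ≠ 0 := by positivity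
  unfold att
  rw [wpar_eq]
  simp only [Bool.and_eq_true, Bool.or_eq_true, Bool.not_eq_true', decide_eq_true_eq,
    decide_eq_false_iff_not]
  unfold pw nw tw
  have h3 : (2 : ℕ) ^ (aw (win l)) ^ 2 ≠ 0 := by positivity
  constructor
  · rintro ⟨h4, h5⟩
    split_ifs at h4 with h6
    · refine ⟨h6, ?_⟩
      split_ifs at h5 with h7
      · rcases h5 with h5 | h5
        · exact absurd h5 h3
        · exact h5.ge
      · exact (not_le.1 h7).le
    · exact absurd rfl h4
  · rintro ⟨h4, h5⟩
    rw [if_pos h4]
    refine ⟨h2, ?_⟩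
    by_cases h7 : (2 : ℕ) ^ (aw (win l)) ^ 2 ≤ l
    · rw [if_pos h7]
      exact Or.inr (le_antisymm h7 h5)
    · rw [if_neg h7]
      exact Or.inl rfl

/-- The queries for the instance `c`. -/
def qq (k : ℕ) (c : S) : List S :=
  if att c.length then msk (pw c.length (wpar c.length).2) :: (List.range (k - 1)).map (fun a => sh a c)
  else [msk c.length, sh 0 c, sh 1 c]

/-- The evaluation of the answers. -/
def DD (k : ℕ) (c : S) (ans : List Bool) : Bool :=
  if att c.length then
    (if ans.headD false then (ans.tail.take (k - 2)).all (fun b => b)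
    else (ans.tail.take (k - 1)).all (fun b => b))
  else (if ans.headD false then ans.getD 2 false else ans.getD 1 false)

theorem qq_length {k : ℕ} (hk : 4 ≤ k) (c : S) : (qq k c).length ≤ k := by
  unfold qq
  split_ifs
  · simp only [List.length_cons, List.length_map, List.length_range]
    omega
  · simp only [List.length_cons, List.length_nil]
    omega

private theorem F1_take_all (f : ℕ → Bool) {m n : ℕ} (h : m ≤ n) :
    (((List.range n).map f).take m).all (fun b => b) = (List.range m).all f := by
  rw [← List.map_take, List.take_range, min_eq_left h, List.all_map]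
  rfl

/-- `decode_att`, `decode_ser`. -/
theorem DD_correct {k : ℕ} (hk : 4 ≤ k) (c : S) :
    DD k c ((qq k c).map (fun q => inA (EE k) q)) = Kd (EE k) c := by
  by_cases ha : att c.length = true
  · obtain ⟨h1, h2⟩ := (att_iff c.length).1 ha
    have h3 : pw c.length (wpar c.length).2 = nw (win c.length) := by
      rw [wpar_eq]
      exact pw_eq h1
    rw [decode_att (EE k) hk h1 h2]
    unfold DD qq
    rw [if_pos ha, if_pos ha, h3]
    simp only [List.map_cons, List.headD_cons, List.tail_cons, List.map_map]
    have h4 := F1_take_all (fun a => inA (EE k) (sh a c)) (show k - 2 ≤ k - 1 by omega)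
    have h5 := F1_take_all (fun a => inA (EE k) (sh a c)) (le_refl (k - 1))
    have h6 : ((fun q => inA (EE k) q) ∘ fun a => sh a c) = fun a => inA (EE k) (sh a c) := rfl
    rw [h6, h4, h5]
    rfl
  · rw [decode_ser (EE k) hk (m := win c.length) rfl (fun h => ha ((att_iff c.length).2 h))]
    unfold DD qq
    rw [if_neg ha, if_neg ha]
    rfl

end Pool.Agent.Helper21.BX
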