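import Pool.Agent.Helper21.BX.N2

/-!
Project BX (MP_4a5e7e_lc): the verifier of the set is right.
-/

namespace Pool.Agent.Helper21.BX

/-- The rule is monotone in the value of the complete set and in the bit of the level. -/
theorem rul_mono {k : ℕ} {att b κ β κ' β' : Bool} {n : ℕ} {L : List S} {q : S}
    (hκ : κ = true → κ' = true) (hβ : β = true → β' = true)
    (h : rul k att n b L κ β q = true) : rul k att n b L κ' β' q = true := by
  revert h
  unfold rul
  split_ifs <;> intro h <;>
    (cases κ <;> cases κ' <;> cases β <;> cases β' <;> simp_all)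

/-- Outside the attack intervals the plan does not matter. -/
theorem rul_false (k : ℕ) (n n' : ℕ) (b b' : Bool) (L L' : List S) (κ β : Bool) (q : S) :
    rul k false n b L κ β q = rul k false n' b' L' κ β q := by
  unfold rul
  simp only [Bool.false_eq_true, if_false]

/-- The exponent. -/
def rA (k : ℕ) : ℕ := WW k 0 + 10

/-- Numbers for a coded string of length `x` and level `l ≤ x`, `a ≤ l`, `C = 2 ^ (x ^ r + r)`. -/
theorem N3_num (k x l a : ℕ) (hl : l ≤ x) (ha : a ≤ l) :
    2 ^ a ≤ 2 ^ (x ^ rA k + rA k) ∧ 2 ^ a ^ 2 ≤ 2 ^ (x ^ rA k + rA k) ∧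
      (2 ^ a ≤ l → 2 ^ WW k (2 ^ a) ≤ 2 ^ (x ^ rA k + rA k)) ∧
      2 ^ x + WW k (2 ^ a) ≤ 2 ^ (x ^ rA k + rA k) := by
  have hax : a ≤ x := ha.trans hl
  have hr : 10 ≤ rA k := Nat.le_add_left _ _
  have hrc : rA k = (1 + 2 * k + 2 * RR k) + 10 := by
    unfold rA WW
    simp
  have hx1 : x ≤ x ^ rA k := Nat.le_self_pow (by omega) x
  have hx2 : x ^ 2 ≤ x ^ rA k := by
    rcases Nat.eq_zero_or_pos x with h | h
    · subst h
      simp
    · exact Nat.pow_le_pow_right h (by omega)
  have ha2 : a ^ 2 ≤ x ^ 2 := Nat.pow_le_pow_left hax 2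
  refine ⟨Nat.pow_le_pow_right (by norm_num) (by omega),
    Nat.pow_le_pow_right (by norm_num) (by omega), ?_, ?_⟩
  · intro h
    refine Nat.pow_le_pow_right (by norm_num) ?_
    have h1 : (2 ^ a) ^ 2 ≤ x ^ 2 := Nat.pow_le_pow_left (h.trans hl) 2
    have h2 : 2 * x ^ 2 ≤ x ^ rA k + 10 := by
      rcases Nat.lt_or_ge x 2 with h3 | h3
      · interval_cases x <;> simp
      · have h4 : x ^ 3 ≤ x ^ rA k := Nat.pow_le_pow_right (by omega) (by omega)
        have h5 : 2 * x ^ 2 ≤ x * x ^ 2 := Nat.mul_le_mul_right _ h3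
        have h6 : x ^ 3 = x * x ^ 2 := by ring
        omega
    unfold WW
    omega
  · have h1 : (2 ^ a) ^ 2 ≤ 2 ^ (2 * x) := by
      rw [← pow_mul]
      exact Nat.pow_le_pow_right (by norm_num) (by omega)
    have h2 : 2 ^ x ≤ 2 ^ (2 * x) := Nat.pow_le_pow_right (by norm_num) (by omega)
    have h3 : (1 + 2 * k + 2 * RR k) + 3 ≤ 2 ^ ((1 + 2 * k + 2 * RR k) + 2) :=
      Nat.lt_two_pow_self (n := (1 + 2 * k + 2 * RR k) + 2)
    have h4 : 2 ^ (2 * x) * 2 ^ ((1 + 2 * k + 2 * RR k) + 2) ≤ 2 ^ (x ^ rA k + rA k) := by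
      rw [← pow_add]
      refine Nat.pow_le_pow_right (by norm_num) ?_
      have h5 : 2 * x ≤ x ^ rA k + 8 := by
        rcases Nat.lt_or_ge x 2 with h3 | h3
        · interval_cases x <;> simp
        · have h6 : 2 * x ≤ x * x := Nat.mul_le_mul_right _ h3
          have h7 : x ^ 2 = x * x := by ring
          omega
      omega
    have h5 : 2 ^ (2 * x) * ((1 + 2 * k + 2 * RR k) + 3) ≤
        2 ^ (2 * x) * 2 ^ ((1 + 2 * k + 2 * RR k) + 2) := Nat.mul_le_mul_left _ h3
    have h6 : 1 * (1 + 2 * k + 2 * RR k) ≤ 2 ^ (2 * x) * (1 + 2 * k + 2 * RR k) :=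
      Nat.mul_le_mul_right _ (Nat.one_le_two_pow)
    have h7 : 2 ^ (2 * x) * ((1 + 2 * k + 2 * RR k) + 3) =
        2 ^ (2 * x) * (1 + 2 * k + 2 * RR k) + 3 * 2 ^ (2 * x) := by ring
    unfold WW
    omega

theorem rest_length_le (q : S) : (rest q).length ≤ q.length := by
  unfold rest
  rw [List.length_drop]
  omega

theorem lev_le (q : S) : lev q ≤ q.length := by
  unfold lev
  split_ifs
  · exact rest_length_le q
  · omega

/-- The verifier, with the parameters of the window. -/
private theorem N3_VA (E : Env) (q g : S) (hg : g.length = 2 ^ (q.length ^ rA E.k + rA E.k)) :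
    VA E q g = rul E.k (inI (nw (win (lev q))) (tw (win (lev q))) q) (nw (win (lev q)))
      (pB (nw (win (lev q))) (plan E (win (lev q)) (hist E (win (lev q)))))
      (pL (macW E (win (lev q))) E.k (nw (win (lev q)))
        (plan E (win (lev q)) (hist E (win (lev q)))))
      (isSh E.k q && E.V (rest q) (g.take (2 ^ (rest q).length)))
      (decide (lev q < nw (win (lev q))) &&
        v0 E (win (lev q)) (lev q) ((g.drop (2 ^ (rest q).length)).take
          (WW E.k (nw (win (lev q)))))) q := by
  have hx := lev_le q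
  have ha : aw (win (lev q)) ≤ lev q := (win_spec (lev q)).1
  obtain ⟨h1, h2, h3, h4⟩ := N3_num E.k q.length (lev q) (aw (win (lev q))) hx ha
  rw [← hg] at h1 h2 h3 h4
  have e1 : pw g.length (aw (win (lev q))) = nw (win (lev q)) := pw_eq h1
  have e2 : pw g.length ((aw (win (lev q))) ^ 2) = tw (win (lev q)) := pw_eq h2
  have e3 : pw g.length (rest q).length = 2 ^ (rest q).length := by
    refine pw_eq ?_
    have h5 : 2 ^ (rest q).length ≤ 2 ^ q.length :=
      Nat.pow_le_pow_right (by norm_num) (rest_length_le q)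
    omega
  unfold VA
  rw [wpar_eq]
  simp only [e1, e2, e3]
  by_cases hi : inI (nw (win (lev q))) (tw (win (lev q))) q = true
  · have hn : nw (win (lev q)) ≤ lev q := by
      unfold inI at hi
      rw [Bool.and_eq_true, decide_eq_true_eq] at hi
      exact hi.1
    have h5 : 2 ^ WW E.k (nw (win (lev q))) ≤ g.length := h3 hn
    rw [hisC_eq E (m := win (lev q)) h2 h5, hist_getD E (Nat.lt_succ_self _)]
    rfl
  · rw [Bool.not_eq_true] at hi
    rw [hi]
    exact rul_false _ _ _ _ _ _ _ _ _ _

/-- Membership is witnessed by strings of length `2 ^ (|q| ^ r + r)`.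

Proof. Let `m = win (lev q)`, `C = g.length`. By `wpar_eq`, `pw_eq` and `N3_num` the parameters in `VA` are
`m`, `aw m`, `nw m`, `tw m`, and `pw C (rest q).length = 2 ^ (rest q).length`. If `q` is in the attack
interval (`inI (nw m) (tw m) q = true`), then `hisC_eq` (as `nw m ≤ lev q`) and `inA_eq`, `hist_getD` show
that `VA` uses the plan of the window; otherwise use `rul_false`. So (`inA_eq`, `inW`)
`VA E q g = rul .. (isSh E.k q && E.V (rest q) g₁) (decide (lev q < nw m) && v0 E m (lev q) g₂) q` with `g₁` the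
first `2 ^ (rest q).length` symbols of `g` and `g₂` the next `WW E.k (nw m)`, and
`inA E q = rul .. (isSh E.k q && Kd E (rest q)) (bl E m (lev q)) q`. From left to right take for `g₁`, `g₂`
witnesses from `findS_isSome` (arbitrary strings of the right length if there is none) and fill up
with `false`; from right to left `rul_mono`. -/
theorem VA_spec (E : Env) (q : S) :
    inA E q = true ↔ ∃ g : S, g.length = 2 ^ (q.length ^ rA E.k + rA E.k) ∧ VA E q g = true := by
  have hx := lev_le q
  have ha : aw (win (lev q)) ≤ lev q := (win_spec (lev q)).1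
  obtain ⟨-, -, -, h4⟩ := N3_num E.k q.length (lev q) (aw (win (lev q))) hx ha
  have h5 : 2 ^ (rest q).length ≤ 2 ^ q.length :=
    Nat.pow_le_pow_right (by norm_num) (rest_length_le q)
  have h6 : 2 ^ (rest q).length + WW E.k (nw (win (lev q))) ≤
      2 ^ (q.length ^ rA E.k + rA E.k) := by
    change 2 ^ (rest q).length + WW E.k (2 ^ aw (win (lev q))) ≤ _
    omega
  rw [inA_eq]
  unfold inW
  constructor
  · intro h
    obtain ⟨g1, hg1, hv1⟩ : ∃ g1 : S, g1.length = 2 ^ (rest q).length ∧
        (Kd E (rest q) = true → E.V (rest q) g1 = true) := by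
      by_cases hK : Kd E (rest q) = true
      · obtain ⟨v, hv, hv'⟩ := findS_isSome.1 hK
        exact ⟨v, hv, fun _ => hv'⟩
      · exact ⟨List.replicate _ false, List.length_replicate, fun h => absurd h hK⟩
    obtain ⟨g2, hg2, hv2⟩ : ∃ g2 : S, g2.length = WW E.k (nw (win (lev q))) ∧
        ((findS (v0 E (win (lev q)) (lev q)) (WW E.k (nw (win (lev q))))).isSome = true →
          v0 E (win (lev q)) (lev q) g2 = true) := by
      by_cases hK : (findS (v0 E (win (lev q)) (lev q))
          (WW E.k (nw (win (lev q))))).isSome = true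
      · obtain ⟨v, hv, hv'⟩ := findS_isSome.1 hK
        exact ⟨v, hv, fun _ => hv'⟩
      · exact ⟨List.replicate _ false, List.length_replicate, fun h => absurd h hK⟩
    refine ⟨g1 ++ (g2 ++ List.replicate (2 ^ (q.length ^ rA E.k + rA E.k) -
      (2 ^ (rest q).length + WW E.k (nw (win (lev q))))) false), ?_, ?_⟩
    · rw [List.length_append, List.length_append, List.length_replicate, hg1, hg2]
      omega
    · rw [N3_VA E q _ (by
        rw [List.length_append, List.length_append, List.length_replicate, hg1, hg2]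
        omega), List.take_left' hg1, List.drop_left' hg1, List.take_left' hg2]
      refine rul_mono ?_ ?_ h
      · intro hK
        unfold Kq at hK
        rw [Bool.and_eq_true] at hK ⊢
        exact ⟨hK.1, hv1 hK.2⟩
      · intro hK
        unfold bl at hK
        rw [Bool.and_eq_true] at hK ⊢
        exact ⟨hK.1, hv2 hK.2⟩
  · rintro ⟨g, hg, h⟩
    rw [N3_VA E q g hg] at h
    refine rul_mono ?_ ?_ h
    · intro hK
      unfold Kq
      rw [Bool.and_eq_true] at hK ⊢
      refine ⟨hK.1, findS_isSome.2 ⟨_, ?_, hK.2⟩⟩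
      rw [List.length_take, hg]
      omega
    · intro hK
      unfold bl
      rw [Bool.and_eq_true] at hK ⊢
      refine ⟨hK.1, findS_isSome.2 ⟨_, ?_, hK.2⟩⟩
      rw [List.length_take, List.length_drop, hg]
      omega

end Pool.Agent.Helper21.BX
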