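import Pool.Agent.Helper21.BX.F1
import Pool.Agent.Helper21.BX.N3

/-!
Project BX (MP_4a5e7e_lc): the set is complete for NEXP.
-/

namespace Pool.Agent.Helper21.BX

open Pool.Agent.Helper91.PolyTime Pool.Agent.Helper7.BX

variable {α : Type} [PEnc α]

theorem ptf_att {l : α → ℕ} (hl : PTF l) : PTF (fun a => att (l a)) := by
  have hw : PTF (fun a => (wpar (l a)).2) := (ptf_wpar hl).snd
  have h1 : PTF (fun a => pw (l a) (wpar (l a)).2) := ptf_pw hl hw
  have h2 : PTF (fun a => pw (l a) ((wpar (l a)).2 ^ 2)) := ptf_pw hl (PTF.pow hw 2)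
  exact PTF.and (PTF.not (PTF.isZero h1)) (PTF.or (PTF.isZero h2) (PTF.eq h2 hl))

theorem F2_ite {β : Type} [PEnc β] {b : α → Bool} {f g : α → β} (hb : PTF b) (hf : PTF f)
    (hg : PTF g) : PTF (fun a => if b a = true then f a else g a) := by
  refine (PTF.cond hb hf hg).of_eq fun a => ?_
  cases b a <;> rfl

theorem ptf_qq (k : ℕ) {c : α → S} (hc : PTF c) : PTF (fun a => qq k (c a)) := by
  have hl : PTF (fun a => (c a).length) := PTF.length hc
  have hatt : PTF (fun a => att (c a).length) := ptf_att hl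
  have h1 : PTF (fun a => msk (pw (c a).length (wpar (c a).length).2)) :=
    ptf_msk (ptf_pw hl (ptf_wpar hl).snd)
  have h2 : PTF (fun a => (List.range (k - 1)).map (fun i => sh i (c a))) :=
    PTF.map (l := fun _ : α => List.range (k - 1)) (f := fun (x : α) (i : ℕ) => sh i (c x))
      (PTF.const _) (ptf_sh PTF.id.snd (hc.comp PTF.id.fst))
  have h3 : PTF (fun a => [msk (c a).length, sh 0 (c a), sh 1 (c a)]) :=
    PTF.cons (ptf_msk hl) (PTF.cons (ptf_sh (PTF.const 0) hc)
      (PTF.cons (ptf_sh (PTF.const 1) hc) (PTF.const [])))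
  exact F2_ite hatt (PTF.cons h1 h2) h3

theorem ptf_DD (k : ℕ) {c : α → S} {ans : α → List Bool} (hc : PTF c) (ha : PTF ans) :
    PTF (fun a => DD k (c a) (ans a)) := by
  have hatt : PTF (fun a => att (c a).length) := ptf_att (PTF.length hc)
  have hh : PTF (fun a => (ans a).headD false) := ptf_headD ha (PTF.const false)
  have ht : ∀ j : ℕ, PTF (fun a => ((ans a).tail.take j).all (fun b => b)) := fun j =>
    PTF.all (f := fun (_ : α) (b : Bool) => b) (ptf_take (PTF.const j) (PTF.tail ha)) PTF.id.snd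
  have hg : ∀ j : ℕ, PTF (fun a => (ans a).getD j false) := fun j =>
    ptf_getD (PTF.const j) ha (PTF.const false)
  exact F2_ite hatt (F2_ite hh (ht (k - 2)) (ht (k - 1))) (F2_ite hh (hg 2) (hg 1))

/-- `inNEXP_iff`, `ptf_VA`, `VA_spec`. -/
theorem AA_inNEXP (k : ℕ) : InNEXP (AA k) :=
  inNEXP_iff.2 ⟨fun p => VA (EE k) p.1 p.2, rA k, ptf_VA (UP_EE k) (VP_EE k),
    fun x => VA_spec (EE k) x⟩

/-- `K_complete`, `ktt_iff` with `q x = qq k (f x)` and `D (x, ans) = DD k (f x) ans`. -/
theorem AA_complete {k : ℕ} (hk : 4 ≤ k) : CompleteKtt k (AA k) := by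
  refine ⟨AA_inNEXP k, fun C hC => ?_⟩
  obtain ⟨f, hf, hfC⟩ := K_complete hC
  refine ktt_iff.2 ⟨fun x => qq k (f x), fun p => DD k (f p.1) p.2, ptf_qq k hf,
    ptf_DD k (hf.comp PTF.id.fst) PTF.id.snd, fun x => ⟨qq_length hk (f x), ?_⟩⟩
  have hmap : ∀ l : List (List Bool), (l.map fun y => @decide (y ∈ AA k)
      (Classical.propDecidable _)) = l.map (fun q => inA (EE k) q) := by
    intro l
    refine List.map_congr_left fun y _ => ?_
    by_cases h : inA (EE k) y = true
    · rw [h]
      exact @decide_eq_true _ (Classical.propDecidable _) h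
    · rw [Bool.not_eq_true] at h
      rw [h]
      refine @decide_eq_false _ (Classical.propDecidable _) fun h' => ?_
      have h'' : inA (EE k) y = true := h'
      rw [h] at h''
      exact Bool.false_ne_true h''
  rw [hfC x, hmap, ← Kd_EE k]
  show Kd (EE k) (f x) = true ↔ DD k (f x) ((qq k (f x)).map (fun q => inA (EE k) q)) = true
  rw [DD_correct hk]

end Pool.Agent.Helper21.BX
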