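import Pool.Agent.Helper21.BX.F1
import Pool.Agent.Helper21.BX.A6

/-!
Project BX (MP_4a5e7e_lc): from a machine in terms of functions of polynomial time to a program.
-/

namespace Pool.Agent.Helper21.BX

open Pool.Agent.Helper91.PolyTime Pool.Agent.Helper7.BX

/-- The output from which `mac` reads the side, the table and the queries. -/
def outp (M : Mac) (q : S) : Str × Str × List Str :=
  (Str.ofList [M.side q], Str.ofList (M.tab q), (M.qs q).map Str.ofList)

private theorem F3_enc (M : Mac) (q : S) : enc (outp M q) =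
    pr [M.side q] (pr (M.tab q) (enc ((M.qs q).map Str.ofList))) := rfl

private theorem F3_list : ∀ (l : List S) (j : ℕ),
    (upr ((fun s : S => (upr s).2)^[j] (enc (l.map Str.ofList)))).1 = l.getD j []
  | [], j => by
    have h : ∀ i : ℕ, (fun s : S => (upr s).2)^[i] [] = [] := by
      intro i
      induction i with
      | zero => rfl
      | succ i ih =>
        rw [Function.iterate_succ_apply]
        exact ih
    rw [List.map_nil, enc_nil, h j]
    rfl
  | a :: l, 0 => by
    rw [List.map_cons, enc_cons, Function.iterate_zero, id_eq, upr_pr]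
    rfl
  | a :: l, j + 1 => by
    rw [List.map_cons, enc_cons, Function.iterate_succ_apply, upr_pr]
    exact F3_list l j

private theorem F3_zero (M : Mac) (q : S) : fld 0 (enc (outp M q)) = [M.side q] := by
  rw [F3_enc]
  unfold fld
  rw [Function.iterate_zero, id_eq, upr_pr]

private theorem F3_one (M : Mac) (q : S) : fld 1 (enc (outp M q)) = M.tab q := by
  rw [F3_enc]
  unfold fld
  rw [Function.iterate_one, upr_pr, upr_pr]

private theorem F3_two (M : Mac) (q : S) (j : ℕ) :
    fld (j + 2) (enc (outp M q)) = (M.qs q).getD j [] := by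
  rw [F3_enc]
  unfold fld
  rw [Function.iterate_succ_apply, upr_pr, Function.iterate_succ_apply, upr_pr]
  exact F3_list _ _

/-- `enc` of pairs and lists is made with `pr`, and `upr_pr`. -/
theorem fld_outp (M : Mac) (q : S) (j : ℕ) (hj : j < (M.qs q).length) :
    fld 0 (enc (outp M q)) = [M.side q] ∧ fld 1 (enc (outp M q)) = M.tab q ∧
      fld (j + 2) (enc (outp M q)) = (M.qs q).getD j [] :=
  have _ := hj
  ⟨F3_zero M q, F3_one M q, F3_two M q j⟩

theorem ptf_outp {M : Mac} (h1 : PTF M.side) (h2 : PTF M.tab) (h3 : PTF M.qs) :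
    PTF (outp M) := by
  have e1 : PTF (fun q : S => Str.ofList [M.side q]) :=
    PTF.strOfList (PTF.cons h1 (PTF.const ([] : List Bool)))
  have e2 : PTF (fun q : S => Str.ofList (M.tab q)) := PTF.strOfList h2
  have e3 : PTF (fun q : S => (M.qs q).map Str.ofList) :=
    PTF.map (f := fun _ (s : List Bool) => Str.ofList s) h3 (PTF.strOfList PTF.id.snd)
  exact PTF.pair e1 (PTF.pair e2 e3)

/-- `exists_prog_enc` for `outp M`, and `fld_outp`; for `k = 0` see the first two parts of `fld_outp`
(prove them without the hypothesis on `j`). -/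
theorem mac_prog {M : Mac} {k : ℕ} (hqs : ∀ q, (M.qs q).length = k) (h1 : PTF M.side)
    (h2 : PTF M.tab) (h3 : PTF M.qs) : ∃ (e : S) (r : ℕ), ∀ q t, q.length ^ r + r ≤ t →
      (mac (EE k) e t).side q = M.side q ∧ (mac (EE k) e t).tab q = M.tab q ∧
        (mac (EE k) e t).qs q = M.qs q := by
  obtain ⟨e, r, h⟩ := exists_prog_enc (ptf_outp h1 h2 h3)
  refine ⟨e, r, fun q t ht => ?_⟩
  have hu : (EE k).U e q t = enc (outp M q) := h q t ht
  refine ⟨?_, ?_, ?_⟩
  · unfold mac
    simp only
    rw [hu, F3_zero]
    rfl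
  · unfold mac
    simp only
    rw [hu, F3_one]
  · unfold mac
    simp only
    rw [hu]
    have hk : (EE k).k = k := rfl
    rw [hk]
    refine List.ext_getElem (by rw [List.length_map, List.length_range, hqs q]) fun i h3 h4 => ?_
    rw [List.getElem_map, List.getElem_range, F3_two, List.getD_eq_getElem _ _ h4]

/-- `PTF.length_le`, `poly_le`; the code of a list of bits of length `n` has length `3 * n`, and
`enc_mem_le`. -/
theorem qs_bound {f : S → List S} (hf : PTF f) :
    ∃ r : ℕ, ∀ q, ∀ q' ∈ f q, q'.length ≤ q.length ^ r + r := by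
  obtain ⟨p, hp⟩ := hf.length_le
  obtain ⟨r, hr⟩ := poly_le (p.comp (3 * Polynomial.X))
  refine ⟨r, fun q q' hq' => ?_⟩
  have hlen : ∀ l : List Bool, (enc l).length = 3 * l.length := by
    intro l
    induction l with
    | nil => rfl
    | cons a l ih =>
      rw [length_enc_cons, ih, enc_bool, List.length_cons, List.length_cons, List.length_nil]
      ring
  have h1 : (enc q').length ≤ (enc (f q)).length := enc_mem_le hq'
  have h2 := hp q
  rw [hlen] at h1
  rw [hlen] at h2
  have h3 := hr q.length
  rw [Polynomial.eval_comp] at h3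
  have h4 : Polynomial.eval q.length (3 * Polynomial.X : Polynomial ℕ) = 3 * q.length := by
    simp
  rw [h4] at h3
  omega

private theorem F3_mono {r R : ℕ} (h : r ≤ R) (x : ℕ) : x ^ r + r ≤ x ^ R + R := by
  rcases Nat.eq_zero_or_pos x with rfl | hx
  · rcases Nat.eq_zero_or_pos r with rfl | hr
    · rcases Nat.eq_zero_or_pos R with rfl | hR
      · exact le_rfl
      · exact (show 0 ^ 0 + 0 ≤ R by rw [pow_zero]; omega).trans (Nat.le_add_left R _)
    · exact (show 0 ^ r + r ≤ R by rw [zero_pow (by omega)]; omega).trans (Nat.le_add_left R _)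
  · exact Nat.add_le_add (Nat.pow_le_pow_right hx h) h

/-- The exponents can be made equal: `x ^ r + r ≤ x ^ r' + r'` for `r ≤ r'`. -/
theorem exists_vio' {k : ℕ} (hex : ExPlan k) (M : Mac) (hqs : ∀ q, (M.qs q).length = k)
    (h1 : PTF M.side) (h2 : PTF M.tab) (h3 : PTF M.qs) : ∃ t, vio M (inA (EE k)) t = true := by
  obtain ⟨e, r1, he⟩ := mac_prog hqs h1 h2 h3
  obtain ⟨r2, hr⟩ := qs_bound h3
  refine exists_vio (E := EE k) hex e M (max r1 r2) hqs (fun q q' hq' => ?_) fun q t ht => ?_
  · exact (hr q q' hq').trans (F3_mono (le_max_right _ _) _)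
  · exact he q t ((F3_mono (le_max_left _ _) _).trans ht)

end Pool.Agent.Helper21.BX
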