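import Pool.Agent.Helper21.BX.F3

/-!
Project BX (MP_4a5e7e_lc): the set is not mitotic.
-/

namespace Pool.Agent.Helper21.BX

open Pool.Agent.Helper91.PolyTime Pool.Agent.Helper7.BX

/-- Bits of a number as answers. -/
def bts (j i : ℕ) : List Bool := (List.range j).map (fun a => i.testBit a)

/-- The machine made from two reductions `(q₁, D₁)` (to the side `true`) and `(q₂, D₂)` (to the side
`false`) and a test `s`. On a string with `s = true` it uses the second one. The queries are filled up to `k`
with the empty string. -/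
def mkM (k : ℕ) (s : S → Bool) (q₁ q₂ : S → List S) (D₁ D₂ : S × List Bool → Bool) : Mac where
  side := s
  tab y := (List.range (2 ^ k)).map (fun i =>
    if s y then D₂ (y, bts (q₂ y).length i) else D₁ (y, bts (q₁ y).length i))
  qs y := (List.range k).map (fun j => (if s y then q₂ y else q₁ y).getD j [])

theorem num_lt (l : List Bool) : num l < 2 ^ l.length := by
  induction l with
  | nil => simp [num]
  | cons b l ih =>
    rw [num, List.length_cons, pow_succ]
    split_ifs <;> omega

private theorem F4_testBit (ans : List Bool) (a : ℕ) :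
    (num ans).testBit a = ans.getD a false := by
  induction ans generalizing a with
  | nil => simp [num]
  | cons b l ih =>
    have h : num (b :: l) = Nat.bit b (num l) := by
      rw [num, Nat.bit_val]
      cases b
      · simp
      · simp [add_comm]
    rw [h]
    cases a with
    | zero => rw [Nat.testBit_bit_zero]; rfl
    | succ a => rw [Nat.testBit_bit_succ, ih]; rfl

/-- The bits of `num ans`. -/
theorem bts_num {j : ℕ} {ans : List Bool} (h : j ≤ ans.length) : bts j (num ans) = ans.take j := by
  unfold bts
  refine List.ext_getElem (by simp [h]) fun a h1 h2 => ?_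
  rw [List.getElem_map, List.getElem_range, List.getElem_take, F4_testBit]
  rw [List.length_take] at h2
  exact List.getD_eq_getElem _ _ (by omega)

private theorem F4_bts {j k i : ℕ} (hi : i < 2 ^ k) :
    (bts k i ++ List.replicate j false).take j = bts j i := by
  unfold bts
  refine List.ext_getElem (by simp) fun a h1 h2 => ?_
  rw [List.getElem_take, List.getElem_map, List.getElem_range]
  by_cases h : a < k
  · rw [List.getElem_append_left (by simpa using h), List.getElem_map, List.getElem_range]
  · rw [List.getElem_append_right (by simpa using not_lt.1 h), List.getElem_replicate]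
    symm
    exact Nat.testBit_lt_two_pow (hi.trans_le (Nat.pow_le_pow_right (by norm_num) (not_lt.1 h)))

private theorem F4_fill {k : ℕ} {l : List S} (h : l.length ≤ k) :
    (List.range k).map (fun j => l.getD j []) = l ++ List.replicate (k - l.length) [] := by
  refine List.ext_getElem (by simp; omega) fun a h1 h2 => ?_
  rw [List.getElem_map, List.getElem_range]
  by_cases ha : a < l.length
  · rw [List.getElem_append_left ha, List.getD_eq_getElem _ _ ha]
  · rw [List.getElem_append_right (not_lt.1 ha), List.getElem_replicate]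
    exact List.getD_eq_default _ _ (not_lt.1 ha)

theorem ptf_mkM {k : ℕ} {s : S → Bool} {q₁ q₂ : S → List S} {D₁ D₂ : S × List Bool → Bool}
    (hs : PTF s) (h1 : PTF q₁) (h2 : PTF q₂) (h3 : PTF D₁) (h4 : PTF D₂) :
    PTF (mkM k s q₁ q₂ D₁ D₂).tab ∧ PTF (mkM k s q₁ q₂ D₁ D₂).qs := by
  have hs' : PTF (fun y : S => decide (s y = true)) := hs.of_eq fun y => by simp
  constructor
  · have hb : ∀ q : S → List S, PTF q → PTF (fun p : S × List Bool =>
        (p.2 ++ List.replicate (q p.1).length false).take (q p.1).length) := by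
      intro q hq
      have hl : PTF (fun p : S × List Bool => (q p.1).length) := (hq.comp PTF.id.fst).length
      exact ptf_take hl (PTF.id.snd.append (ptf_replicate hl (PTF.const false)))
    have hF : PTF (fun p : S × List Bool => if s p.1 = true then
        D₂ (p.1, (p.2 ++ List.replicate (q₂ p.1).length false).take (q₂ p.1).length) else
        D₁ (p.1, (p.2 ++ List.replicate (q₁ p.1).length false).take (q₁ p.1).length)) :=
      PTF.ite (hs'.comp PTF.id.fst) (h4.comp (PTF.pair PTF.id.fst (hb q₂ h2)))
        (h3.comp (PTF.pair PTF.id.fst (hb q₁ h1)))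
    refine (PTF.map (α := S) (f := fun (y : S) (w : List Bool) => if s y = true then
        D₂ (y, (w ++ List.replicate (q₂ y).length false).take (q₂ y).length) else
        D₁ (y, (w ++ List.replicate (q₁ y).length false).take (q₁ y).length))
      (PTF.const ((List.range (2 ^ k)).map (bts k))) hF).of_eq fun y => ?_
    rw [List.map_map]
    refine List.map_congr_left fun i hi => ?_
    rw [List.mem_range] at hi
    simp only [Function.comp_apply]
    rw [F4_bts hi, F4_bts hi]
  · have hl : PTF (fun p : S × ℕ => if s p.1 = true then q₂ p.1 else q₁ p.1) :=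
      PTF.ite (hs'.comp PTF.id.fst) (h2.comp PTF.id.fst) (h1.comp PTF.id.fst)
    exact PTF.map (α := S)
      (f := fun (y : S) (j : ℕ) => (if s y = true then q₂ y else q₁ y).getD j [])
      (PTF.const (List.range k)) (ptf_getD PTF.id.snd hl (PTF.const []))

/-- If both reductions are right, the machine never errs. -/
theorem mkM_right {k : ℕ} {s : S → Bool} {q₁ q₂ : S → List S} {D₁ D₂ : S × List Bool → Bool}
    {e : S → Bool} (hl₁ : ∀ y, (q₁ y).length ≤ k) (hl₂ : ∀ y, (q₂ y).length ≤ k)
    (h1 : ∀ y, e y = D₁ (y, (q₁ y).map (fun q => e q && s q)))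
    (h2 : ∀ y, e y = D₂ (y, (q₂ y).map (fun q => e q && !(s q)))) (y : S) :
    vio (mkM k s q₁ q₂ D₁ D₂) e y = false := by
  have key : ∀ (q : S → List S) (D : S × List Bool → Bool) (g : S → Bool), (q y).length ≤ k →
      e y = D (y, (q y).map g) →
      tbl ((List.range (2 ^ k)).map (fun i => D (y, bts (q y).length i)))
        (((List.range k).map (fun j => (q y).getD j [])).map g) = e y := by
    intro q D g hl he
    rw [F4_fill hl, List.map_append]
    have hlen : ((q y).map g ++ (List.replicate (k - (q y).length) []).map g).length = k := by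
      simp
      omega
    have hn := num_lt ((q y).map g ++ (List.replicate (k - (q y).length) []).map g)
    rw [hlen] at hn
    unfold tbl
    rw [List.getD_eq_getElem _ _ (by simpa using hn), List.getElem_map, List.getElem_range,
      bts_num (by rw [hlen]; exact hl), List.take_left' (by simp), he]
  unfold vio
  cases hs : s y with
  | true =>
    have hq : (mkM k s q₁ q₂ D₁ D₂).qs y = (List.range k).map (fun j => (q₂ y).getD j []) := by
      simp only [mkM, hs, if_true]
    have ht : (mkM k s q₁ q₂ D₁ D₂).tab y =
        (List.range (2 ^ k)).map (fun i => D₂ (y, bts (q₂ y).length i)) := by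
      simp only [mkM, hs, if_true]
    have hg : (fun q => ((mkM k s q₁ q₂ D₁ D₂).side q != (mkM k s q₁ q₂ D₁ D₂).side y) && e q) =
        fun q => e q && !(s q) := by
      funext q
      simp only [mkM, hs]
      cases s q <;> cases e q <;> rfl
    rw [hq, ht, hg, key q₂ D₂ _ (hl₂ y) (h2 y)]
    simp
  | false =>
    have hq : (mkM k s q₁ q₂ D₁ D₂).qs y = (List.range k).map (fun j => (q₁ y).getD j []) := by
      simp only [mkM, hs, Bool.false_eq_true, if_false]
    have ht : (mkM k s q₁ q₂ D₁ D₂).tab y =
        (List.range (2 ^ k)).map (fun i => D₁ (y, bts (q₁ y).length i)) := by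
      simp only [mkM, hs, Bool.false_eq_true, if_false]
    have hg : (fun q => ((mkM k s q₁ q₂ D₁ D₂).side q != (mkM k s q₁ q₂ D₁ D₂).side y) && e q) =
        fun q => e q && s q := by
      funext q
      simp only [mkM, hs]
      cases s q <;> cases e q <;> rfl
    rw [hq, ht, hg, key q₁ D₁ _ (hl₁ y) (h1 y)]
    simp

/-- Even the two reductions `A ≤ A ∩ S` and `A ≤ A \ S` are impossible. -/
theorem AA_not {k : ℕ} (hex : ExPlan k) {T : Lang} (hT : InP T) (h1 : Ktt k (AA k) (AA k ∩ T))
    (h2 : Ktt k (AA k) (AA k \ T)) : False := by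
  obtain ⟨s, hs, hsT⟩ := inP_iff.1 hT
  obtain ⟨q₁, D₁, hq₁, hD₁, H1⟩ := ktt_iff.1 h1
  obtain ⟨q₂, D₂, hq₂, hD₂, H2⟩ := ktt_iff.1 h2
  have mem : ∀ y, y ∈ AA k ↔ inA (EE k) y = true := fun y => Iff.rfl
  obtain ⟨p1, p2⟩ := ptf_mkM (k := k) hs hq₁ hq₂ hD₁ hD₂
  obtain ⟨t, ht⟩ := exists_vio' hex (mkM k s q₁ q₂ D₁ D₂) (fun q => by simp [mkM]) hs p1 p2
  have h := mkM_right (k := k) (s := s) (q₁ := q₁) (q₂ := q₂) (D₁ := D₁) (D₂ := D₂)
    (e := inA (EE k)) (fun y => (H1 y).1) (fun y => (H2 y).1) (fun y => ?_) (fun y => ?_) t
  · rw [h] at ht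
    exact Bool.false_ne_true ht
  · have h3 := (H1 y).2
    rw [mem] at h3
    rw [Bool.eq_iff_iff, h3]
    have : ∀ inst : (∀ x, Decidable (x ∈ AA k ∩ T)),
        (q₁ y).map (fun x => @decide (x ∈ AA k ∩ T) (inst x)) =
        (q₁ y).map (fun q => inA (EE k) q && s q) := by
      intro inst
      refine List.map_congr_left fun x _ => ?_
      rw [Bool.eq_iff_iff, decide_eq_true_iff, Bool.and_eq_true, ← hsT, ← mem]
      exact Iff.rfl
    rw [this]
  · have h3 := (H2 y).2
    rw [mem] at h3
    rw [Bool.eq_iff_iff, h3]
    have : ∀ inst : (∀ x, Decidable (x ∈ AA k \ T)),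
        (q₂ y).map (fun x => @decide (x ∈ AA k \ T) (inst x)) =
        (q₂ y).map (fun q => inA (EE k) q && !(s q)) := by
      intro inst
      refine List.map_congr_left fun x _ => ?_
      rw [Bool.eq_iff_iff, decide_eq_true_iff, Bool.and_eq_true, Bool.not_eq_true',
        ← Bool.not_eq_true, ← hsT, ← mem]
      exact Iff.rfl
    rw [this]

end Pool.Agent.Helper21.BX
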