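import Pool.Agent.Helper5.SY.Defs

/-!
Project BX (MP_4a5e7e_lc): search through the strings of a given length.

`sc` (from `SY/Defs.lean`) is the binary counter, least significant bit first: `sc w` is the next string
of the same length, or `none` after `11...1`.
-/

namespace Pool.Agent.Helper21.BX

open Pool.Agent.Helper5.SX

/-- The first string with `P`, from `w` on, among the next `n` strings. -/
def fnd (P : Str → Bool) : ℕ → Str → Option Str
  | 0, _ => none
  | n + 1, w =>
    if P w then some w else
      match sc w with
      | none => none
      | some w' => fnd P n w'

/-- The first string of length `W` with `P`. -/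
def findS (P : Str → Bool) (W : ℕ) : Option Str := fnd P (2 ^ W) (List.replicate W false)

/-- The value of a string as a binary number, least significant bit first. -/
def lval : Str → ℕ
  | [] => 0
  | b :: w => (if b then 1 else 0) + 2 * lval w

theorem lval_lt (w : Str) : lval w < 2 ^ w.length := by
  induction w with
  | nil => simp [lval]
  | cons b w ih =>
    rw [lval, List.length_cons, pow_succ]
    split_ifs <;> omega

theorem lval_replicate (n : ℕ) : lval (List.replicate n false) = 0 := by
  induction n with
  | zero => rfl
  | succ n ih => rw [List.replicate_succ, lval, ih]; rfl

theorem lval_inj {v w : Str} (hl : v.length = w.length) (h : lval v = lval w) : v = w := by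
  induction v generalizing w with
  | nil => exact (List.length_eq_zero_iff.1 hl.symm).symm
  | cons b v ih =>
    cases w with
    | nil => simp at hl
    | cons c w =>
      rw [List.length_cons, List.length_cons] at hl
      rw [lval, lval] at h
      have hbc : b = c ∧ lval v = lval w := by
        cases b <;> cases c <;> simp at h ⊢ <;> omega
      rw [hbc.1, ih (by omega) hbc.2]

theorem sc_none {w : Str} : sc w = none ↔ lval w + 1 = 2 ^ w.length := by
  induction w with
  | nil => simp [sc, lval]
  | cons b w ih =>
    rw [lval, List.length_cons, pow_succ]
    have hlt := lval_lt w
    cases b with
    | false =>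
      simp only [sc, reduceCtorEq, Bool.false_eq_true, if_false, false_iff]
      omega
    | true =>
      simp only [sc, Option.map_eq_none_iff, ih, if_true]
      omega

theorem sc_some {w v : Str} (h : sc w = some v) : v.length = w.length ∧ lval v = lval w + 1 := by
  induction w generalizing v with
  | nil => simp [sc] at h
  | cons b w ih =>
    cases b with
    | false =>
      simp only [sc, Option.some.injEq] at h
      subst h
      simp [lval]
      omega
    | true =>
      simp only [sc, Option.map_eq_some_iff] at h
      obtain ⟨u, hu, rfl⟩ := h
      obtain ⟨h1, h2⟩ := ih hu
      refine ⟨by simp [h1], ?_⟩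
      simp only [lval, h2, Bool.false_eq_true, if_false, if_true]
      ring

end Pool.Agent.Helper21.BX
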