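import Mathlib

/-!
Project BX (MP_4a5e7e_lc): the finite game of the proof, definitions (note 2574, with the free strings
proposed by helper71).

Strings: masks `msk l` (level `l`), free strings `fre u` (level `u.length`), shares `sh a c`,
`a + 1 < k` (level `c.length`).  At an attack interval `[n, τ]` with plan `(b, L)` the set `A` is:
`msk l` is in `A` iff `l = n` and `b`; `fre u` iff it is in `L`; `sh a c` iff it is in `L` or
(`c` is in `K` and (`a + 2 < k` or not `b`)).  So `K c` is the conjunction of all the shares if
`b = false`, and the conjunction of the shares with `a + 2 < k` if `b = true`.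
-/

namespace Pool.Agent.Helper21.BX

/-- Strings. -/
abbrev S := List Bool

/-- The number of leading `true`. -/
def lead : S → ℕ
  | true :: q => lead q + 1
  | _ => 0

/-- What comes after the leading `true` and the next symbol. -/
def rest (q : S) : S := q.drop (lead q + 1)

/-- Masks. -/
def msk (l : ℕ) : S := false :: false :: List.replicate l true

/-- Free strings. -/
def fre (u : S) : S := false :: true :: u

/-- Shares. -/
def sh (a : ℕ) (c : S) : S := List.replicate (a + 1) true ++ false :: c

/-- The string is a share with number less than `k - 1`. -/
def isSh (k : ℕ) (q : S) : Bool :=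
  decide (1 ≤ lead q) && decide (lead q < k) && decide (lead q < q.length)

/-- The number of a share. -/
def idx (q : S) : ℕ := lead q - 1

/-- The level of a string. -/
def lev (q : S) : ℕ := if 1 ≤ lead q then (rest q).length else q.length - 2

/-- The string is a mask. -/
def isMsk (q : S) : Bool := decide (q = msk (q.length - 2))

/-- The string is a free string. -/
def isFre (q : S) : Bool := decide (q.take 2 = [false, true])

/-- The string is a mask, a free string or a share. -/
def isCod (k : ℕ) (q : S) : Bool := isMsk q || isFre q || isSh k q

/-- The level of the string lies in `[n, τ]`. -/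
def inI (n τ : ℕ) (q : S) : Bool := decide (n ≤ lev q) && decide (lev q ≤ τ)

/-- The name of the unknown bit that belongs to a string: for the shares of the attack interval the
bit `K c`, which has the name `sh 0 c`. -/
def atm (k n τ : ℕ) (q : S) : S := if isSh k q && inI n τ q then sh 0 (rest q) else q

/-- The characteristic function of `A`, as seen at the attack interval `[n, τ]` (service levels
`[a, n)`) with the plan `(b, L)`; `X` gives the unknown bits.  In mode `true` the function `low` gives
`A` below level `a`, and at the service levels only the shares with number `0` are unknown, everything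
else is `false`.  In mode `false` all the bits below level `n` are unknown, but the bit of `key` is
`true`. -/
def ev (k n τ a : ℕ) (mode : Bool) (low : S → Bool) (key : S) (b : Bool) (L : List S) (X : S → Bool)
    (q : S) : Bool :=
  if isCod k q then
    (if inI n τ q then
      (if isMsk q then b && decide (lev q = n)
      else if isFre q then decide (q ∈ L)
      else decide (q ∈ L) || (X (atm k n τ q) && (decide (idx q + 2 < k) || !b)))
    else if lev q < n then
      (if mode then
        (if lev q < a then low q else isSh k q && decide (idx q = 0) && X q)
      else decide (q = key) || X q)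
    else X q)
  else false

/-- What a machine that is to be defeated computes: the side of a string, a truth table and the
queries. -/
structure Mac where
  /-- the side -/
  side : S → Bool
  /-- the truth table -/
  tab : S → S
  /-- the queries -/
  qs : S → List S

/-- The number with the given binary digits, least significant digit first. -/
def num : List Bool → ℕ
  | [] => 0
  | b :: l => (if b then 1 else 0) + 2 * num l

/-- The value of a truth table (a string of bits, `false` beyond its end). -/
def tbl (w : S) (ans : List Bool) : Bool := w.getD (num ans) false

/-- If `e` is the characteristic function of `A`, the machine errs at `t`: it only gets answers from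
the strings on the other side. -/
def vio (M : Mac) (e : S → Bool) (t : S) : Bool :=
  e t != tbl (M.tab t) ((M.qs t).map (fun q => (M.side q != M.side t) && e q))

/-- All strings of length `n`. -/
def allB : ℕ → List S
  | 0 => [[]]
  | n + 1 => (allB n).flatMap (fun w => [false :: w, true :: w])

/-- The members of the list that are marked by `true`. -/
def sel {α : Type} (bs : List Bool) (l : List α) : List α :=
  ((bs.zip l).filter (fun p => p.1)).map (fun p => p.2)

/-- The first member of the list that is marked by `true`. -/
def pick (bs : List Bool) (l : List S) : S := (sel bs l).headD []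

/-- The number of relevant strings. -/
def RR (k : ℕ) : ℕ := 4 + 4 * k

/-- The length of the plans. -/
def WW (k n : ℕ) : ℕ := 2 * n ^ 2 + (1 + 2 * k + 2 * RR k)

/-- The parts of a plan `w`. -/
def pY (n : ℕ) (w : S) : S := fre (w.take (n ^ 2))

def pY2 (n : ℕ) (w : S) : S := fre ((w.drop (n ^ 2)).take (n ^ 2))

def pD (n : ℕ) (w : S) : S := w.drop (2 * n ^ 2)

/-- The bit `b` of a plan. -/
def pB (n : ℕ) (w : S) : Bool := (pD n w).headD false

def pZ (M : Mac) (k n : ℕ) (w : S) : S := pick (((pD n w).drop 1).take k) (M.qs (pY n w))

def pZ2 (M : Mac) (k n : ℕ) (w : S) : S := pick (((pD n w).drop (1 + k)).take k) (M.qs (pY2 n w))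

/-- The targets of a plan. -/
def tgt (M : Mac) (k n : ℕ) (w : S) : List S := [pY n w, pY2 n w, pZ M k n w, pZ2 M k n w]

/-- The relevant strings of a plan: the targets and their queries. -/
def rel (M : Mac) (k n : ℕ) (w : S) : List S := tgt M k n w ++ (tgt M k n w).flatMap M.qs

/-- The set `L` of a plan. -/
def pL (M : Mac) (k n : ℕ) (w : S) : List S :=
  sel (((pD n w).drop (1 + 2 * k)).take (RR k)) (rel M k n w)

/-- The key of a plan. -/
def pK (M : Mac) (k n : ℕ) (w : S) : S :=
  pick (((pD n w).drop (1 + 2 * k + RR k)).take (RR k)) (rel M k n w)

/-- No instance has all its decoding shares in `L`. -/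
def legit (M : Mac) (k n τ : ℕ) (w : S) : Bool :=
  (rel M k n w).all (fun r => !(isSh k r && inI n τ r) ||
    !((List.range (if pB n w then k - 2 else k - 1)).all
      (fun a => decide (sh a (rest r) ∈ pL M k n w))))

/-- The key is a share with number `0` at a service level. -/
def keyok (M : Mac) (k n a : ℕ) (w : S) : Bool :=
  isSh k (pK M k n w) && decide (idx (pK M k n w) = 0) && decide (a ≤ lev (pK M k n w)) &&
    decide (lev (pK M k n w) < n)

/-- The characteristic function of `A` for the plan `w`. -/
def evP (M : Mac) (k n τ a : ℕ) (mode : Bool) (low : S → Bool) (w : S) (X : S → Bool) (q : S) :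
    Bool :=
  ev k n τ a mode low (pK M k n w) (pB n w) (pL M k n w) X q

/-- The plan `w` is valid (in mode `false`: 0-valid, in mode `true`: 1-valid): legitimate, and for all
values of the unknown bits the machine errs at one of the targets. -/
def val (M : Mac) (k n τ a : ℕ) (mode : Bool) (low : S → Bool) (w : S) : Bool :=
  legit M k n τ w && (mode || keyok M k n a w) &&
    (allB (RR k)).all (fun xs => (tgt M k n w).any
      (vio M (evP M k n τ a mode low w
        (fun p => decide (p ∈ sel xs ((rel M k n w).map (atm k n τ)))))))

/-! ### basic facts on strings -/

theorem lead_sh (a : ℕ) (c : S) : lead (sh a c) = a + 1 := by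
  unfold sh
  induction a with
  | zero => rfl
  | succ a ih =>
    rw [List.replicate_succ, List.cons_append, lead, ih]

theorem rest_sh (a : ℕ) (c : S) : rest (sh a c) = c := by
  unfold rest
  rw [lead_sh]
  unfold sh
  rw [List.drop_append]
  simp

theorem idx_sh (a : ℕ) (c : S) : idx (sh a c) = a := by
  unfold idx
  rw [lead_sh]
  rfl

theorem lev_sh (a : ℕ) (c : S) : lev (sh a c) = c.length := by
  unfold lev
  rw [lead_sh, rest_sh]
  simp

theorem lev_msk (l : ℕ) : lev (msk l) = l := by
  simp [lev, msk, lead]

theorem lev_fre (u : S) : lev (fre u) = u.length := by
  simp [lev, fre, lead]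

theorem isSh_sh (k a : ℕ) (c : S) : isSh k (sh a c) = decide (a + 1 < k) := by
  have h : a + 1 < (sh a c).length := by
    simp [sh]
  unfold isSh
  rw [lead_sh]
  simp [h]

theorem isSh_msk (k l : ℕ) : isSh k (msk l) = false := by
  simp [isSh, msk, lead]

theorem isSh_fre (k : ℕ) (u : S) : isSh k (fre u) = false := by
  simp [isSh, fre, lead]

theorem isMsk_msk (l : ℕ) : isMsk (msk l) = true := by
  simp [isMsk, msk]

theorem isMsk_fre (u : S) : isMsk (fre u) = false := by
  simp [isMsk, fre, msk]

theorem isMsk_sh (a : ℕ) (c : S) : isMsk (sh a c) = false := by
  simp [isMsk, sh, msk, List.replicate_succ]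

theorem isFre_fre (u : S) : isFre (fre u) = true := by
  simp [isFre, fre]

theorem isFre_msk (l : ℕ) : isFre (msk l) = false := by
  simp [isFre, msk]

theorem isFre_sh (a : ℕ) (c : S) : isFre (sh a c) = false := by
  cases a <;> simp [isFre, sh, List.replicate_succ]

/-- The strings that are shares. -/
theorem isSh_iff {k : ℕ} {q : S} :
    isSh k q = true ↔ ∃ a c, a + 1 < k ∧ q = sh a c := by
  constructor
  · intro h
    simp only [isSh, Bool.and_eq_true, decide_eq_true_eq] at h
    obtain ⟨⟨h1, h2⟩, h3⟩ := h
    refine ⟨lead q - 1, rest q, by omega, ?_⟩
    have key : ∀ p : S, lead p < p.length → p = List.replicate (lead p) true ++ false :: rest p := by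
      intro p
      induction p with
      | nil => intro h; simp [lead] at h
      | cons b p ih =>
        intro h
        cases b with
        | false => simp [lead, rest]
        | true =>
          have h' : lead p < p.length := by
            simp only [lead, List.length_cons] at h
            omega
          have e1 : lead (true :: p) = lead p + 1 := rfl
          have e2 : rest (true :: p) = rest p := by
            unfold rest
            rw [e1]
            rfl
          rw [e1, e2, List.replicate_succ, List.cons_append, ← ih h']
    have e := key q h3
    unfold sh
    rw [show lead q - 1 + 1 = lead q from by omega]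
    exact e
  · rintro ⟨a, c, ha, rfl⟩
    rw [isSh_sh]
    simpa using ha

end Pool.Agent.Helper21.BX
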