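import Pool.Agent.Helper21.BX.F4
import Pool.Agent.Helper21.BX.F2

/-!
Project BX (MP_4a5e7e_lc): the theorem.
-/

namespace Pool.Agent.Helper21.BX

open Pool.Agent.Helper91.PolyTime Pool.Agent.Helper7.BX

theorem main_of {k : ℕ} (hex : ExPlan k) (hk : 4 ≤ k) :
    ∃ A : Lang, CompleteKtt k A ∧ ∀ T : Lang, InP T → ¬ (Ktt k A (A ∩ T) ∧ Ktt k A (A \ T)) :=
  ⟨AA k, AA_complete hk, fun _ hT h => AA_not hex hT h.1 h.2⟩

end Pool.Agent.Helper21.BX
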