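import Pool.Agent.Helper21.BX.Px8
import Pool.Agent.Helper21.BX.A1

/-!
Project BX (MP_4a5e7e_lc): with a large clock the clocked functions are right, I.
-/

namespace Pool.Agent.Helper21.BX

theorem pw_eq {C n : ℕ} (h : 2 ^ n ≤ C) : pw C n = 2 ^ n := if_pos h

/-- By induction on `i ≤ l`: after `i` rounds the state is `(min i (win l), aw (min i (win l)))`
(`win_spec`, `aw_strictMono`; `win l ≤ l`). -/
theorem wpar_eq (l : ℕ) : wpar l = (win l, aw (win l)) := by
  have hs := win_spec l
  have key : ∀ i : ℕ, (wst l)^[i] (0, 0) = (min i (win l), aw (min i (win l))) := by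
    intro i
    induction i with
    | zero => simp [aw]
    | succ i ih =>
      rw [Function.iterate_succ_apply', ih]
      by_cases hi : i < win l
      · have h1 : min i (win l) = i := min_eq_left hi.le
        have h2 : min (i + 1) (win l) = i + 1 := min_eq_left hi
        rw [h1, h2]
        have h3 : 2 ^ ((aw i) ^ 2 + 1) ≤ l := by
          have h4 : aw (i + 1) ≤ aw (win l) := aw_strictMono.monotone hi
          exact h4.trans hs.1
        have h5 : pw l ((aw i) ^ 2 + 1) = 2 ^ ((aw i) ^ 2 + 1) := pw_eq h3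
        have h6 : (2 : ℕ) ^ ((aw i) ^ 2 + 1) ≠ 0 := by positivity
        unfold wst
        simp only [h5, h6, if_false]
        rfl
      · have hi' : win l ≤ i := not_lt.1 hi
        have h1 : min i (win l) = win l := min_eq_right hi'
        have h2 : min (i + 1) (win l) = win l := min_eq_right (by omega)
        rw [h1, h2]
        have h3 : ¬ 2 ^ ((aw (win l)) ^ 2 + 1) ≤ l := by
          have h4 : l < aw (win l + 1) := hs.2
          exact not_le.2 h4
        have h5 : pw l ((aw (win l)) ^ 2 + 1) = 0 := if_neg h3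
        unfold wst
        simp only [h5, if_true]
  have hle : win l ≤ l := (le_aw (win l)).trans hs.1
  unfold wpar
  rw [key l, min_eq_right hle]

/-- `findS_eq`. -/
theorem KdC_eq (E : Env) {C : ℕ} {c : S} (h : 2 ^ 2 ^ c.length ≤ C) : KdC E C c = Kd E c := by
  have h1 : 2 ^ c.length ≤ C := (Nat.lt_two_pow_self).le.trans h
  unfold KdC Kd
  rw [pw_eq h1, findS_eq h]

theorem blC_eq (E : Env) {C m l : ℕ} (h : 2 ^ WW E.k (nw m) ≤ C) :
    blC E C (pg m) (nw m) (tw m) (aw m) l = bl E m l := by
  unfold blC bl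
  rw [findS_eq h]
  rfl

/-- For a share the length of `rest q` is `lev q`; for the other strings `isSh` is `false`. -/
theorem inC_eq (E : Env) {C : ℕ} {w q : S} (h1 : tw (win (lev q)) ≤ C)
    (h2 : 2 ^ WW E.k (nw (win (lev q))) ≤ C) (h3 : 2 ^ 2 ^ lev q ≤ C) :
    inC E C w q = inW E w q := by
  have e1 : pw C (aw (win (lev q))) = nw (win (lev q)) := pw_eq ((nw_le_tw _).trans h1)
  have e2 : pw C ((aw (win (lev q))) ^ 2) = tw (win (lev q)) := pw_eq h1
  have e3 : (isSh E.k q && KdC E C (rest q)) = Kq E q := by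
    unfold Kq
    by_cases hq : isSh E.k q = true
    · have h4 : 1 ≤ lead q := by
        simp only [isSh, Bool.and_eq_true, decide_eq_true_eq] at hq
        exact hq.1.1
      have h5 : (rest q).length = lev q := by
        unfold lev
        rw [if_pos h4]
      have h6 : 2 ^ 2 ^ (rest q).length ≤ C := by
        rw [h5]
        exact h3
      rw [KdC_eq E h6]
    · have hq' : isSh E.k q = false := by simpa using hq
      rw [hq', Bool.false_and, Bool.false_and]
  unfold inC inW
  rw [wpar_eq]
  simp only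
  rw [e1, e2, e3, blC_eq E h2]
  rfl

theorem lowC_eq (E : Env) {C : ℕ} {h : List S} {q : S} (h1 : tw (win (lev q)) ≤ C)
    (h2 : 2 ^ WW E.k (nw (win (lev q))) ≤ C) (h3 : 2 ^ 2 ^ lev q ≤ C) :
    lowC E C h q = lowh E h q := by
  unfold lowC lowh
  rw [inC_eq E h1 h2 h3, wpar_eq]

end Pool.Agent.Helper21.BX
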