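import Pool.Agent.Helper21.BX.N1
import Pool.Agent.Helper21.BX.A3

/-!
Project BX (MP_4a5e7e_lc): with a large clock the clocked functions are right, II.
-/

namespace Pool.Agent.Helper21.BX

/-- `val` depends only on `low` below level `a`. -/
theorem val_congr_low {M : Mac} {k n τ a : ℕ} {mode : Bool} {low low' : S → Bool} {w : S}
    (h : ∀ q, lev q < a → low q = low' q) :
    val M k n τ a mode low w = val M k n τ a mode low' w := by
  have he : ∀ X : S → Bool, evP M k n τ a mode low w X = evP M k n τ a mode low' w X := by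
    intro X
    funext q
    unfold evP ev
    by_cases ha : lev q < a
    · rw [h q ha]
    · simp only [ha, if_false]
  unfold val
  simp only [he]

/-- `WW k` is monotone in `n`. -/
theorem WW_mono (k : ℕ) {n n' : ℕ} (h : n ≤ n') : WW k n ≤ WW k n' := by
  unfold WW
  have := Nat.pow_le_pow_left h 2
  omega

theorem N2_le_WW (k n : ℕ) : n ≤ WW k n := by
  unfold WW
  have := Nat.le_self_pow (n := 2) (by norm_num) n
  omega

/-- `fnd` with a long clock is `findS` (`findS_eq`). In mode `true` use `val_congr_low` and `lowC_eq`: for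
`lev q < aw m` the window `m' = win (lev q)` is smaller than `m` (`win_lt`), so `tw m' < aw (m' + 1) ≤ aw m < nw m`,
`nw m' ≤ nw m`, and `2 ^ lev q ≤ nw m ≤ WW E.k (nw m)`. -/
theorem planC_eq (E : Env) {C m : ℕ} {h : List S} (h2 : 2 ^ WW E.k (nw m) ≤ C) :
    planC E C (pg m) (nw m) (tw m) (aw m) h = plan E m h := by
  have hC : nw m ≤ C := (N2_le_WW E.k (nw m)).trans (Nat.lt_two_pow_self.le.trans h2)
  have hlow : val (macW E m) E.k (nw m) (tw m) (aw m) true (lowC E C h) =
      val (macW E m) E.k (nw m) (tw m) (aw m) true (lowh E h) := by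
    funext w
    refine val_congr_low (fun q hq => ?_)
    have hw : win (lev q) < m := win_lt hq
    have h3 : aw (win (lev q) + 1) ≤ aw m := aw_strictMono.monotone hw
    have h4 := tw_lt_aw (win (lev q))
    have h5 := aw_lt_nw m
    have h6 := nw_le_tw (win (lev q))
    refine lowC_eq E (by omega) ?_ ?_
    · exact (Nat.pow_le_pow_right (by norm_num) (WW_mono E.k (by omega))).trans h2
    · refine (Nat.pow_le_pow_right (by norm_num) ?_).trans h2
      refine le_trans ?_ (N2_le_WW E.k (nw m))
      exact Nat.pow_le_pow_right (by norm_num) hq.le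
  unfold planC plan
  rw [findS_eq h2, findS_eq h2]
  change (match findS (val (macW E m) E.k (nw m) (tw m) (aw m) false (fun _ => false))
      (WW E.k (nw m)) with
    | some w => w
    | none => (findS (val (macW E m) E.k (nw m) (tw m) (aw m) true (lowC E C h))
      (WW E.k (nw m))).getD (dfl E.k (nw m))) = _
  rw [hlow]
  cases findS (val (macW E m) E.k (nw m) (tw m) (aw m) false (fun _ => false))
    (WW E.k (nw m)) <;> rfl

/-- By induction on `i ≤ m` the state after `i` rounds is `((i, aw i), hist E i)`: for `i < m` use `planC_eq`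
with `nw i ≤ nw m`, `tw i < aw (i + 1) ≤ aw m ≤ C`, and `pw C ((aw i) ^ 2 + 1) = aw (i + 1)`. The last round needs
`tw m ≤ C`. -/
theorem hisC_eq (E : Env) {C m : ℕ} (h1 : tw m ≤ C) (h2 : 2 ^ WW E.k (nw m) ≤ C) :
    hisC E C (m + 1) = hist E (m + 1) := by
  have hC : nw m ≤ C := (nw_le_tw m).trans h1
  have hplan : ∀ i ≤ m, planC E C (pg i) (pw C (aw i)) (pw C ((aw i) ^ 2)) (aw i) (hist E i) =
      plan E i (hist E i) := by
    intro i hi
    have hai : aw i ≤ aw m := aw_strictMono.monotone hi
    have hn : nw i ≤ nw m := Nat.pow_le_pow_right (by norm_num) hai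
    have ht : tw i ≤ tw m :=
      Nat.pow_le_pow_right (by norm_num) (Nat.pow_le_pow_left hai 2)
    rw [pw_eq (C := C) (n := aw i) (hn.trans hC), pw_eq (C := C) (n := (aw i) ^ 2) (ht.trans h1)]
    exact planC_eq E
      ((Nat.pow_le_pow_right (by norm_num) (WW_mono E.k hn)).trans h2)
  have hst_eq : ∀ i ≤ m, (hst E C)^[i] ((0, 0), []) = ((i, aw i), hist E i) := by
    intro i
    induction i with
    | zero => intro _; rfl
    | succ i ih =>
      intro hi
      rw [Function.iterate_succ_apply', ih (by omega)]
      unfold hst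
      simp only
      rw [hplan i (by omega)]
      have hai : aw (i + 1) ≤ aw m := aw_strictMono.monotone hi
      have h5 := aw_lt_nw m
      have h6 : 2 ^ ((aw i) ^ 2 + 1) ≤ C := by
        change aw (i + 1) ≤ C
        omega
      rw [pw_eq h6]
      rfl
  unfold hisC
  rw [Function.iterate_succ_apply', hst_eq m le_rfl]
  unfold hst
  simp only
  rw [hplan m le_rfl]
  rfl

end Pool.Agent.Helper21.BX
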