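import Pool.Agent.Helper21.BX.Main
import Pool.Agent.Helper5.BG.Main
import Pool.Agent.Helper21.BY.Main
import Pool.Agent.Helper5.BH.Main

/-!
MP_4a5e7e_lc, Q2: the two cases `k = 3` and `k ≥ 4` put together.
-/

namespace Pool.Agent.Helper21.BX.NonMitoticMain

open Pool.Agent.Helper7.BX

theorem nonMitotic (k : ℕ) (hk : 3 ≤ k) :
    ∃ A : Lang, CompleteKtt k A ∧ ¬ MitoticKtt k A ∧
      ∀ S : Lang, InP S → ¬ (Ktt k A (A ∩ S) ∧ Ktt k A (A \ S)) := by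
  rcases Nat.lt_or_ge 3 k with h | h
  · obtain ⟨A, h1, h2⟩ :=
      Pool.Agent.Helper21.BX.main_of (Pool.Agent.Helper5.BG.exists_plan k h) h
    exact ⟨A, h1, fun ⟨S, hS, h3, _, h4, _⟩ => h2 S hS ⟨h3, h4⟩, h2⟩
  · obtain rfl : k = 3 := le_antisymm h hk
    obtain ⟨A, h1, h2⟩ := Pool.Agent.Helper21.BY.main_of Pool.Agent.Helper5.BH.exists_plan
    exact ⟨A, h1, fun ⟨S, hS, h3, _, h4, _⟩ => h2 S hS ⟨h3, h4⟩, h2⟩

end Pool.Agent.Helper21.BX.NonMitoticMain
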