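import Pool.Agent.Helper91.PolyTime.Typed

/-!
Project BX (MP_4a5e7e_lc): more closure properties of the polynomial time functions `PTF` of
`Helper91/PolyTime/Typed.lean`.
-/

namespace Pool.Agent.Helper21.BX

open Pool.Agent.Helper91.PolyTime

variable {α β γ : Type} [PEnc α] [PEnc β] [PEnc γ]

/-- `take n l = (reverse l).drop (length l - n)` reversed. -/
theorem ptf_take {n : α → ℕ} {l : α → List β} (hn : PTF n) (hl : PTF l) :
    PTF (fun a => (l a).take (n a)) := by
  refine (PTF.reverse (PTF.drop (PTF.sub (PTF.length hl) hn) (PTF.reverse hl))).of_eq fun a => ?_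
  rw [List.drop_reverse, List.reverse_reverse]
  rcases le_total (n a) (l a).length with h | h
  · rw [Nat.sub_sub_self h]
  · rw [Nat.sub_eq_zero_of_le h, Nat.sub_zero, List.take_length, List.take_of_length_le h]

/-- `map` over `range`. -/
theorem ptf_replicate {n : α → ℕ} {f : α → β} (hn : PTF n) (hf : PTF f) :
    PTF (fun a => List.replicate (n a) (f a)) := by
  refine (PTF.map (f := fun a _ => f a) (PTF.range hn) (hf.comp PTF.id.fst)).of_eq fun a => ?_
  simp

/-- `any` with equality. -/
theorem ptf_mem [DecidableEq β] {f : α → β} {l : α → List β} (hf : PTF f) (hl : PTF l) :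
    PTF (fun a => decide (f a ∈ l a)) := by
  refine (PTF.any (f := fun a b => decide (f a = b)) hl
    (PTF.eq (hf.comp PTF.id.fst) PTF.id.snd)).of_eq fun a => ?_
  rw [Bool.eq_iff_iff]
  simp

theorem ptf_headD {l : α → List β} {d : α → β} (hl : PTF l) (hd : PTF d) :
    PTF (fun a => (l a).headD (d a)) := by
  refine (PTF.listCase (s := fun _ b _ => b) hl hd PTF.id.snd.fst).of_eq fun a => ?_
  cases l a <;> rfl

theorem ptf_getD {n : α → ℕ} {l : α → List β} {d : α → β} (hn : PTF n) (hl : PTF l)
    (hd : PTF d) : PTF (fun a => (l a).getD (n a) (d a)) := by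
  refine (PTF.optCase (s := fun _ b => b) (PTF.getElem? hn hl) hd PTF.id.snd).of_eq fun a => ?_
  rw [List.getD_eq_getElem?_getD]
  cases (l a)[n a]? <;> rfl

theorem ptf_ogetD {o : α → Option β} {d : α → β} (ho : PTF o) (hd : PTF d) :
    PTF (fun a => (o a).getD (d a)) := by
  refine (PTF.optCase (s := fun _ b => b) ho hd PTF.id.snd).of_eq fun a => ?_
  cases o a <;> rfl

theorem ptf_isSome {o : α → Option β} (ho : PTF o) : PTF (fun a => (o a).isSome) := by
  refine (PTF.optCase (s := fun _ _ => true) ho (PTF.const false) (PTF.const true)).of_eq fun a => ?_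
  cases o a <;> rfl

theorem ptf_dropLast {l : α → List β} (hl : PTF l) : PTF (fun a => (l a).dropLast) := by
  refine (PTF.reverse (PTF.tail (PTF.reverse hl))).of_eq fun a => ?_
  rw [List.tail_reverse, List.reverse_reverse]

theorem ptf_bne {f g : α → Bool} (hf : PTF f) (hg : PTF g) : PTF (fun a => f a != g a) := by
  refine (PTF.cond hf (PTF.not hg) hg).of_eq fun a => ?_
  cases f a <;> cases g a <;> rfl

/-- A power of two, clipped. -/
def pw (C n : ℕ) : ℕ := if 2 ^ n ≤ C then 2 ^ n else 0

/-- Iterate `n` times, starting with `pw C 0 = (if 1 ≤ C then 1 else 0)`: `v ↦ if v + v ≤ C then v + v else 0`.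
By induction `i` rounds give `pw C i` (once it is `0` it stays `0`). -/
theorem ptf_pw {C n : α → ℕ} (hC : PTF C) (hn : PTF n) : PTF (fun a => pw (C a) (n a)) := by
  have hit : ∀ c m : ℕ, (fun v : ℕ => if v + v ≤ c then v + v else 0)^[m] (if 1 ≤ c then 1 else 0) =
      pw c m := by
    intro c m
    induction m with
    | zero => simp [pw]
    | succ m ih =>
      rw [Function.iterate_succ_apply', ih]
      unfold pw
      have e : 2 ^ m + 2 ^ m = 2 ^ (m + 1) := by rw [pow_succ]; ring
      by_cases h : 2 ^ m ≤ c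
      · simp only [h, if_true, e]
      · have h2 : ¬ 2 ^ (m + 1) ≤ c := by
          rw [← e]
          omega
        simp only [h, h2, if_false]
        simp
  have hle : ∀ c m : ℕ, pw c m ≤ c := by
    intro c m
    unfold pw
    split_ifs with h
    · exact h
    · exact Nat.zero_le _
  obtain ⟨p, hp⟩ := hC.length_le
  have h := PTF.iterate (n := n) (g := fun a => if 1 ≤ C a then 1 else 0)
    (F := fun a v => if v + v ≤ C a then v + v else 0) hn
    (PTF.ite (PTF.le (PTF.const 1) hC) (PTF.const 1) (PTF.const 0))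
    (PTF.ite (PTF.le (PTF.add PTF.id.snd PTF.id.snd) (hC.comp PTF.id.fst))
      (PTF.add PTF.id.snd PTF.id.snd) (PTF.const 0)) p (by
    intro a m _
    rw [hit, length_enc_nat]
    have h1 := hp a
    rw [length_enc_nat] at h1
    exact (hle _ _).trans h1)
  refine h.of_eq fun a => ?_
  rw [hit]

end Pool.Agent.Helper21.BX
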