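import Pool.Agent.Helper21.BX.Px1
import Pool.Agent.Helper21.BX.Ad

/-!
Project BX (MP_4a5e7e_lc): the functions on strings are computable in polynomial time.
-/

namespace Pool.Agent.Helper21.BX

open Pool.Agent.Helper91.PolyTime

variable {α β γ : Type} [PEnc α] [PEnc β] [PEnc γ]

/-- The step of the fold for `lead`. -/
private def leadF (s : ℕ × Bool) (b : Bool) : ℕ × Bool :=
  if s.2 && b then (s.1 + 1, true) else (s.1, false)

private theorem leadF_false (l : S) (m : ℕ) : l.foldl leadF (m, false) = (m, false) := by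
  induction l with
  | nil => rfl
  | cons b l ih =>
    rw [List.foldl_cons]
    exact ih

private theorem leadF_lead (l : S) (m : ℕ) : (l.foldl leadF (m, true)).1 = m + lead l := by
  induction l generalizing m with
  | nil => rfl
  | cons b l ih =>
    rw [List.foldl_cons]
    cases b with
    | true =>
      have e : leadF (m, true) true = (m + 1, true) := rfl
      rw [e, ih]
      show m + 1 + lead l = m + (lead l + 1)
      omega
    | false =>
      have e : leadF (m, true) false = (m, false) := rfl
      rw [e, leadF_false]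
      rfl

private theorem leadF_le (l : S) (m : ℕ) (c : Bool) : (l.foldl leadF (m, c)).1 ≤ m + l.length := by
  induction l generalizing m c with
  | nil => exact le_rfl
  | cons b l ih =>
    rw [List.foldl_cons, List.length_cons]
    have h : ∃ c', leadF (m, c) b = (m + 1, c') ∨ leadF (m, c) b = (m, c') := by
      unfold leadF
      split_ifs
      · exact ⟨true, Or.inl rfl⟩
      · exact ⟨false, Or.inr rfl⟩
    obtain ⟨c', h | h⟩ := h
    · rw [h]
      have := ih (m + 1) c'
      omega
    · rw [h]
      have := ih m c'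
      omega

/-- A fold with the state (number, flag). -/
theorem ptf_lead {q : α → S} (hq : PTF q) : PTF (fun a => lead (q a)) := by
  obtain ⟨p, hp⟩ := hq.length_le
  have h := PTF.foldl (l := q) (g := fun _ => ((0 : ℕ), true)) (F := fun _ s b => leadF s b) hq
    (PTF.const _) ?_ (2 * p + 2) (by
      intro a t ht
      have h1 := leadF_le t 0 true
      have h2 := ht.length_le.trans ((length_le_enc (q a)).trans (hp a))
      rw [← Prod.mk.eta (p := List.foldl (fun s b => leadF s b) (0, true) t), length_enc_prod,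
        length_enc_nat, enc_bool]
      simp only [Polynomial.eval_add, Polynomial.eval_mul, Polynomial.eval_ofNat, List.length_cons,
        List.length_nil]
      have h3 : List.foldl (fun s b => leadF s b) (0, true) t = t.foldl leadF (0, true) := rfl
      rw [h3]
      omega)
  · refine (h.fst).of_eq fun a => ?_
    have h3 : List.foldl (fun s b => leadF s b) (0, true) (q a) = (q a).foldl leadF (0, true) := rfl
    rw [h3, leadF_lead, Nat.zero_add]
  · have hs : PTF (fun p : α × (ℕ × Bool) × Bool => p.2.1) := PTF.id.snd.fst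
    have hb : PTF (fun p : α × (ℕ × Bool) × Bool => p.2.2) := PTF.id.snd.snd
    refine (PTF.cond (PTF.and hs.snd hb) (PTF.pair (PTF.succ hs.fst) (PTF.const true))
      (PTF.pair hs.fst (PTF.const false))).of_eq fun p => ?_
    unfold leadF
    cases p.2.1.2 && p.2.2 <;> rfl

theorem ptf_rest {q : α → S} (hq : PTF q) : PTF (fun a => rest (q a)) := PTF.drop (PTF.succ (ptf_lead hq)) hq

theorem ptf_msk {l : α → ℕ} (hl : PTF l) : PTF (fun a => msk (l a)) := PTF.cons (PTF.const false) (PTF.cons (PTF.const false) (ptf_replicate hl (PTF.const true)))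

theorem ptf_fre {u : α → S} (hu : PTF u) : PTF (fun a => fre (u a)) := PTF.cons (PTF.const false) (PTF.cons (PTF.const true) hu)

theorem ptf_sh {n : α → ℕ} {c : α → S} (hn : PTF n) (hc : PTF c) :
    PTF (fun a => sh (n a) (c a)) := PTF.append (ptf_replicate (PTF.succ hn) (PTF.const true)) (PTF.cons (PTF.const false) hc)

theorem ptf_isSh (k : ℕ) {q : α → S} (hq : PTF q) : PTF (fun a => isSh k (q a)) := PTF.and (PTF.and (PTF.le (PTF.const 1) (ptf_lead hq)) (PTF.lt (ptf_lead hq) (PTF.const k)))
    (PTF.lt (ptf_lead hq) (PTF.length hq))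

theorem ptf_idx {q : α → S} (hq : PTF q) : PTF (fun a => idx (q a)) := PTF.pred (ptf_lead hq)

theorem ptf_lev {q : α → S} (hq : PTF q) : PTF (fun a => lev (q a)) := PTF.ite (PTF.le (PTF.const 1) (ptf_lead hq)) (PTF.length (ptf_rest hq))
    (PTF.sub (PTF.length hq) (PTF.const 2))

theorem ptf_isMsk {q : α → S} (hq : PTF q) : PTF (fun a => isMsk (q a)) := PTF.eq hq (ptf_msk (PTF.sub (PTF.length hq) (PTF.const 2)))

theorem ptf_isFre {q : α → S} (hq : PTF q) : PTF (fun a => isFre (q a)) := PTF.eq (ptf_take (PTF.const 2) hq) (PTF.const [false, true])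

theorem ptf_isCod (k : ℕ) {q : α → S} (hq : PTF q) : PTF (fun a => isCod k (q a)) := PTF.or (PTF.or (ptf_isMsk hq) (ptf_isFre hq)) (ptf_isSh k hq)

theorem ptf_inI {n t : α → ℕ} {q : α → S} (hn : PTF n) (ht : PTF t) (hq : PTF q) :
    PTF (fun a => inI (n a) (t a) (q a)) := PTF.and (PTF.le hn (ptf_lev hq)) (PTF.le (ptf_lev hq) ht)

theorem ptf_atm (k : ℕ) {n t : α → ℕ} {q : α → S} (hn : PTF n) (ht : PTF t) (hq : PTF q) :
    PTF (fun a => atm k (n a) (t a) (q a)) := (PTF.cond (PTF.and (ptf_isSh k hq) (ptf_inI hn ht hq)) (ptf_sh (PTF.const 0) (ptf_rest hq))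
    hq).of_eq fun x => by
      unfold atm
      cases isSh k (q x) && inI (n x) (t x) (q x) <;> rfl

end Pool.Agent.Helper21.BX
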