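import Pool.Agent.Helper21.BX.Px2

/-!
Project BX (MP_4a5e7e_lc): tables, selections, numerals.
-/

namespace Pool.Agent.Helper21.BX

open Pool.Agent.Helper91.PolyTime

variable {α β γ : Type} [PEnc α] [PEnc β] [PEnc γ]

private lemma Px3_step (x c W : ℕ) : min (2 * min x W + c) W = min (c + 2 * x) W := by
  rcases le_total x W with h | h
  · rw [min_eq_left h, add_comm]
  · rw [min_eq_right h, min_eq_right (by omega), min_eq_right (by omega)]

private lemma Px3_foldr (W : ℕ) (l : List Bool) :
    l.foldr (fun b x => min (2 * x + (if b then 1 else 0)) W) 0 = min (num l) W := by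
  induction l with
  | nil => simp [num]
  | cons b l ih => rw [List.foldr_cons, ih, Px3_step, num]

private lemma Px3_foldl_le (W : ℕ) (l : List Bool) (s : ℕ) (hs : s ≤ W) :
    l.foldl (fun x b => min (2 * x + (if b then 1 else 0)) W) s ≤ W := by
  induction l generalizing s with
  | nil => exact hs
  | cons b l ih => exact ih _ (min_le_right _ _)

private lemma Px3_len (t : List Bool) : (enc t).length = 3 * t.length := by
  induction t with
  | nil => rfl
  | cons b t ih =>
    rw [length_enc_cons, ih, enc_bool, List.length_singleton, List.length_cons]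
    ring

/-- The number is exponential in the length of `ans`, so clip it at `(w a).length`: fold over the
reversed list `ans` with `x b ↦ min (2 * x + (if b then 1 else 0)) (w a).length`. -/
theorem ptf_tbl {w : α → S} {ans : α → List Bool} (hw : PTF w) (ha : PTF ans) :
    PTF (fun a => tbl (w a) (ans a)) := by
  obtain ⟨p, hp⟩ := hw.length_le
  have hstep : PTF (fun q : α × ℕ × Bool => min (2 * q.2.1 + (if q.2.2 then 1 else 0))
      (w q.1).length) := by
    have h1 : PTF (fun q : α × ℕ × Bool => 2 * q.2.1 + (if q.2.2 then 1 else 0)) :=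
      PTF.add (PTF.mul (PTF.const 2) PTF.id.snd.fst)
        ((PTF.cond (f := fun _ => 1) (g := fun _ => 0) PTF.id.snd.snd (PTF.const 1)
          (PTF.const 0)).of_eq fun q => by cases q.2.2 <;> rfl)
    have h2 : PTF (fun q : α × ℕ × Bool => (w q.1).length) :=
      PTF.length (hw.comp PTF.id.fst)
    refine (PTF.ite (PTF.le h1 h2) h1 h2).of_eq fun q => ?_
    rw [min_def]
  have h := PTF.foldl (l := fun a => (ans a).reverse) (g := fun _ => (0 : ℕ))
    (F := fun a x b => min (2 * x + (if b then 1 else 0)) (w a).length) (PTF.reverse ha)
    (PTF.const 0) hstep p (by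
      intro a t _
      rw [length_enc_nat]
      exact (Px3_foldl_le _ t 0 (Nat.zero_le _)).trans ((length_le_enc (w a)).trans (hp a)))
  refine (ptf_getD h hw (PTF.const false)).of_eq fun a => ?_
  rw [List.foldl_reverse, Px3_foldr]
  unfold tbl
  rcases le_total (num (ans a)) (w a).length with h1 | h1
  · rw [min_eq_left h1]
  · rw [min_eq_right h1, List.getD_eq_default _ _ le_rfl, List.getD_eq_default _ _ h1]

private lemma Px3_sel (bs : List Bool) (l : List β) :
    (List.range l.length).flatMap (fun i => bif bs.getD i false then (l[i]?).toList else []) =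
      sel bs l := by
  induction l generalizing bs with
  | nil => simp [sel]
  | cons x l ih =>
    cases bs with
    | nil => simp [sel]
    | cons b bs =>
      rw [List.length_cons, List.range_succ_eq_map, List.flatMap_cons, List.flatMap_map]
      have e : sel (b :: bs) (x :: l) = (bif b then [x] else []) ++ sel bs l := by
        cases b <;> simp [sel]
      rw [e, ← ih bs]
      congr 1

/-- A fold over `l` with the state (rest of `bs`, reversed result), or induction-free: fold over
`List.range`. -/
theorem ptf_sel {bs : α → List Bool} {l : α → List β} (hb : PTF bs) (hl : PTF l) :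
    PTF (fun a => sel (bs a) (l a)) := by
  have h := PTF.flatMap (l := fun a => List.range (l a).length)
    (f := fun a i => bif (bs a).getD i false then ((l a)[i]?).toList else [])
    (PTF.range (PTF.length hl))
    (PTF.cond (ptf_getD PTF.id.snd (hb.comp PTF.id.fst) (PTF.const false))
      ((PTF.optCase (s := fun _ b => [b]) (PTF.getElem? PTF.id.snd (hl.comp PTF.id.fst))
        (PTF.const []) (PTF.cons PTF.id.snd (PTF.const []))).of_eq fun q => by
          cases (l q.1)[q.2]? <;> rfl)
      (PTF.const []))
  exact h.of_eq fun a => Px3_sel _ _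

theorem ptf_pick {bs : α → List Bool} {l : α → List S} (hb : PTF bs) (hl : PTF l) :
    PTF (fun a => pick (bs a) (l a)) :=
  ptf_headD (ptf_sel hb hl) (PTF.const [])

theorem ptf_WW (k : ℕ) {n : α → ℕ} (hn : PTF n) : PTF (fun a => WW k (n a)) :=
  PTF.add (PTF.mul (PTF.const 2) (PTF.pow hn 2)) (PTF.const _)

theorem ptf_inc {w : α → S} (hw : PTF w) : PTF (fun a => inc (w a)) :=
  PTF.append (ptf_replicate (ptf_lead hw) (PTF.const false))
    (PTF.cons (PTF.const true) (PTF.drop (PTF.succ (ptf_lead hw)) hw))

private lemma Px3_lead_le (w : S) : lead w ≤ w.length := by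
  induction w with
  | nil => simp [lead]
  | cons b w ih => cases b <;> simp [lead, ih]

private lemma Px3_inc_length (w : S) : (inc w).length ≤ w.length + 1 := by
  have h := Px3_lead_le w
  unfold inc
  rw [List.length_append, List.length_replicate, List.length_cons, List.length_drop]
  omega

private lemma Px3_bn_length (m : ℕ) : (bn m).length ≤ m := by
  induction m with
  | zero => simp [bn]
  | succ m ih =>
    have e : bn (m + 1) = inc (bn m) := Function.iterate_succ_apply' _ _ _
    rw [e]
    exact (Px3_inc_length _).trans (Nat.succ_le_succ ih)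

/-- Iteration of `inc`: the length of `bn m` is at most `m`. -/
theorem ptf_bn {m : α → ℕ} (hm : PTF m) : PTF (fun a => bn (m a)) := by
  obtain ⟨p, hp⟩ := hm.length_le
  exact PTF.iterate (n := m) (g := fun _ => ([] : S)) (F := fun _ w => inc w) hm (PTF.const [])
    (ptf_inc PTF.id.snd) (3 * p) (by
      intro a j hj
      have h1 : (enc ((inc)^[j] ([] : S))).length = 3 * (bn j).length := Px3_len _
      have h2 := Px3_bn_length j
      have h3 := hp a
      rw [length_enc_nat] at h3
      rw [h1]
      simp only [Polynomial.eval_mul, Polynomial.eval_ofNat]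
      omega)

theorem ptf_pg {m : α → ℕ} (hm : PTF m) : PTF (fun a => pg (m a)) :=
  ptf_dropLast (ptf_rest (ptf_bn hm))

private lemma Px3_fst {f : α → S} (hf : PTF f) : PTF (fun a => (upr (f a)).1) := by
  have h : PTF (fun a => Str.ofList (upr (f a)).1) := PT.fst (PTF.strOfList hf)
  exact PTF.strToList h

private lemma Px3_snd {f : α → S} (hf : PTF f) : PTF (fun a => (upr (f a)).2) := by
  have h : PTF (fun a => Str.ofList (upr (f a)).2) := PT.snd (PTF.strOfList hf)
  exact PTF.strToList h

/-- Through the raw strings `Str`: `PT.fst`, `PT.snd` for `upr`, `PTF.strOfList`, `PTF.strToList`; `j` is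
fixed, induction on `j`. -/
theorem ptf_fld (j : ℕ) {s : α → S} (hs : PTF s) : PTF (fun a => fld j (s a)) := by
  have h : ∀ j : ℕ, PTF (fun a => (fun t : S => (upr t).2)^[j] (s a)) := by
    intro j
    induction j with
    | zero => exact hs
    | succ j ih =>
      refine (Px3_snd ih).of_eq fun a => ?_
      rw [Function.iterate_succ_apply']
  exact Px3_fst (h j)

end Pool.Agent.Helper21.BX
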