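import Pool.Agent.Helper21.BX.Px2

/-!
Project BX (MP_4a5e7e_lc): the search is a function of polynomial time, given a clock.
-/

namespace Pool.Agent.Helper21.BX

open Pool.Agent.Helper91.PolyTime

variable {α β γ : Type} [PEnc α] [PEnc β] [PEnc γ]

/-- The counter in closed form. -/
theorem Px4_sc (w : S) : Helper5.SX.sc w =
    if lead w = w.length then none
    else some (List.replicate (lead w) false ++ true :: w.drop (lead w + 1)) := by
  induction w with
  | nil => simp [Helper5.SX.sc, lead]
  | cons b w ih =>
    cases b with
    | false => simp [Helper5.SX.sc, lead]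
    | true =>
      simp only [Helper5.SX.sc, lead, ih, List.length_cons]
      by_cases h : lead w = w.length
      · simp [h]
      · simp [h, List.replicate_succ]

/-- With `i = lead w`: `sc w = none` if `i = w.length`, otherwise
`some (List.replicate i false ++ true :: w.drop (i + 1))`. -/
theorem ptf_sc {w : α → S} (hw : PTF w) : PTF (fun a => Helper5.SX.sc (w a)) := by
  refine (PTF.ite (c := fun a => lead (w a) = (w a).length)
    (PTF.eq (ptf_lead hw) (PTF.length hw)) (PTF.const none)
    (PTF.some (PTF.append (ptf_replicate (ptf_lead hw) (PTF.const false))
      (PTF.cons (PTF.const true) (PTF.drop (PTF.succ (ptf_lead hw)) hw))))).of_eq fun a => ?_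
  exact (Px4_sc (w a)).symm

/-- One step of the search; the state is (next string or `none`, found string or `none`). -/
def Px4_step (P : S → Bool) (s : Option S × Option S) : Option S × Option S :=
  match s.2 with
  | some _ => s
  | none => match s.1 with
    | none => s
    | some v => if P v then (none, some v) else (Helper5.SX.sc v, none)

theorem Px4_some (P : S → Bool) (x : Option S) (v : S) (n : ℕ) :
    (Px4_step P)^[n] (x, some v) = (x, some v) := by
  induction n with
  | zero => rfl
  | succ n ih => rw [Function.iterate_succ_apply]; exact ih

theorem Px4_none (P : S → Bool) (n : ℕ) :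
    (Px4_step P)^[n] (none, none) = (none, none) := by
  induction n with
  | zero => rfl
  | succ n ih => rw [Function.iterate_succ_apply]; exact ih

theorem Px4_fnd (P : S → Bool) (n : ℕ) (w : S) :
    ((Px4_step P)^[n] (some w, none)).2 = fnd P n w := by
  induction n generalizing w with
  | zero => rfl
  | succ n ih =>
    rw [Function.iterate_succ_apply]
    by_cases h : P w = true
    · have e : Px4_step P (some w, none) = (none, some w) := by simp [Px4_step, h]
      rw [e, Px4_some, fnd, if_pos h]
    · have e : Px4_step P (some w, none) = (Helper5.SX.sc w, none) := by simp [Px4_step, h]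
      rw [e, fnd, if_neg h]
      cases hs : Helper5.SX.sc w with
      | none => rw [Px4_none]
      | some v => exact ih v

/-- All the strings of the state have length `m`. -/
theorem Px4_len (P : S → Bool) (m n : ℕ) (s : Option S × Option S)
    (h1 : ∀ v, s.1 = some v → v.length = m) (h2 : ∀ v, s.2 = some v → v.length = m) :
    (∀ v, ((Px4_step P)^[n] s).1 = some v → v.length = m) ∧
      (∀ v, ((Px4_step P)^[n] s).2 = some v → v.length = m) := by
  induction n generalizing s with
  | zero => exact ⟨h1, h2⟩
  | succ n ih =>
    rw [Function.iterate_succ_apply]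
    obtain ⟨s1, s2⟩ := s
    cases s2 with
    | some u => exact ih _ h1 h2
    | none =>
      cases s1 with
      | none => exact ih _ h1 h2
      | some v =>
        have hv : v.length = m := h1 v rfl
        by_cases h : P v = true
        · have e : Px4_step P (some v, none) = (none, some v) := by simp [Px4_step, h]
          rw [e]
          exact ih _ (by simp) (by intro u hu; simp at hu; rw [← hu]; exact hv)
        · have e : Px4_step P (some v, none) = (Helper5.SX.sc v, none) := by simp [Px4_step, h]
          rw [e]
          exact ih _ (fun u hu => (sc_some hu).1.trans hv) (by simp)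

theorem Px4_encS (w : S) : (enc w).length = 3 * w.length := by
  induction w with
  | nil => rfl
  | cons b w ih =>
    rw [length_enc_cons, ih, enc_bool]
    simp only [List.length_cons, List.length_nil]
    ring

theorem Px4_encO (x : Option S) (m : ℕ) (h : ∀ v, x = some v → v.length = m) :
    (enc x).length ≤ 3 * m + 1 := by
  cases x with
  | none => rw [enc_none]; simp
  | some v =>
    rw [enc_some, List.length_cons, Px4_encS, h v rfl]

theorem Px4_ptf_step {P : α → S → Bool} (hP : PTF (fun p : α × S => P p.1 p.2)) :
    PTF (fun p : α × (Option S × Option S) => Px4_step (P p.1) p.2) := by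
  have h3 : PTF (fun q : (α × (Option S × Option S)) × S =>
      if P q.1.1 q.2 = true then ((none, some q.2) : Option S × Option S)
      else (Helper5.SX.sc q.2, none)) := by
    refine PTF.ite (c := fun q : (α × (Option S × Option S)) × S => P q.1.1 q.2 = true) ?_
      (PTF.pair (PTF.const none) (PTF.some PTF.id.snd))
      (PTF.pair (ptf_sc PTF.id.snd) (PTF.const none))
    refine (hP.comp (PTF.pair PTF.id.fst.fst PTF.id.snd)).of_eq fun q => ?_
    simp
  have h2 := PTF.optCase (α := α × (Option S × Option S)) (β := S)
    (γ := Option S × Option S) (o := fun p => p.2.1) (n := fun p => p.2)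
    (s := fun p v => if P p.1 v = true then ((none, some v) : Option S × Option S)
      else (Helper5.SX.sc v, none)) PTF.id.snd.fst PTF.id.snd h3
  have h1 := PTF.optCase (α := α × (Option S × Option S)) (β := S)
    (γ := Option S × Option S) (o := fun p => p.2.2) (s := fun p _ => p.2)
    PTF.id.snd.snd h2 PTF.id.fst.snd
  refine h1.of_eq fun p => ?_
  rcases p with ⟨a, s1, s2⟩
  cases s2 <;> cases s1 <;> simp [Px4_step]

/-- Iterate `C a` times on the state (next string or `none`, found string or `none`): all the strings
have the length of `w a` (`sc_some`), so the size is at most `20 * (length) + 20`. -/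
theorem ptf_fnd {P : α → S → Bool} {C : α → ℕ} {w : α → S}
    (hP : PTF (fun p : α × S => P p.1 p.2)) (hC : PTF C) (hw : PTF w) :
    PTF (fun a => fnd (P a) (C a) (w a)) := by
  obtain ⟨p, hp⟩ := hw.length_le
  have h := PTF.iterate (n := C) (g := fun a => ((some (w a), none) : Option S × Option S))
    (F := fun a s => Px4_step (P a) s) hC (PTF.pair (PTF.some hw) (PTF.const none))
    (Px4_ptf_step hP) (9 * p + 9) (by
    intro a m _
    have hl := Px4_len (P a) (w a).length m (some (w a), none)
      (by intro v hv; simp at hv; rw [hv]) (by simp)
    have e1 := Px4_encO _ _ hl.1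
    have e2 := Px4_encO _ _ hl.2
    have e3 := hp a
    have e4 := Px4_encS (w a)
    have e5 := length_enc_prod ((Px4_step (P a))^[m] (some (w a), none)).1
      ((Px4_step (P a))^[m] (some (w a), none)).2
    simp only [Polynomial.eval_add, Polynomial.eval_mul, Polynomial.eval_ofNat]
    have e6 : (enc ((Px4_step (P a))^[m] (some (w a), none))).length =
      (enc (((Px4_step (P a))^[m] (some (w a), none)).1,
        ((Px4_step (P a))^[m] (some (w a), none)).2)).length := rfl
    have e7 : (fun s => Px4_step (P a) s) = Px4_step (P a) := rfl
    rw [e7, e6, e5]
    omega)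
  refine h.snd.of_eq fun a => ?_
  exact Px4_fnd (P a) (C a) (w a)

end Pool.Agent.Helper21.BX
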