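import Pool.Agent.Helper21.BX.Px3

/-!
Project BX (MP_4a5e7e_lc): the functions of the game are computable in polynomial time.
-/

namespace Pool.Agent.Helper21.BX

open Pool.Agent.Helper91.PolyTime

variable {α β γ : Type} [PEnc α] [PEnc β] [PEnc γ]

/-- The universal function of the environment is computable in polynomial time. -/
def UP (E : Env) : Prop := PTF (fun p : S × S × ℕ => E.U p.1 p.2.1 p.2.2)

/-- So is the verifier. -/
def VP (E : Env) : Prop := PTF (fun p : S × S => E.V p.1 p.2)

private theorem Px5_ite {c : α → Bool} {f g : α → β} (hc : PTF c) (hf : PTF f) (hg : PTF g) :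
    PTF (fun a => if c a = true then f a else g a) := by
  refine (PTF.cond hc hf hg).of_eq fun a => ?_
  cases c a <;> rfl

theorem ptf_side {E : Env} (hE : UP E) {e q : α → S} {t : α → ℕ} (he : PTF e) (ht : PTF t)
    (hq : PTF q) : PTF (fun a => (mac E (e a) (t a)).side (q a)) := by
  exact ptf_headD (ptf_fld 0 (PTF.comp hE (he.pair (hq.pair ht)))) (PTF.const false)

theorem ptf_tab {E : Env} (hE : UP E) {e q : α → S} {t : α → ℕ} (he : PTF e) (ht : PTF t)
    (hq : PTF q) : PTF (fun a => (mac E (e a) (t a)).tab (q a)) := by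
  exact ptf_fld 1 (PTF.comp hE (he.pair (hq.pair ht)))

/-- `k` is fixed: a fixed list of functions; induction on the number of the queries. -/
theorem ptf_qs {E : Env} (hE : UP E) {e q : α → S} {t : α → ℕ} (he : PTF e) (ht : PTF t)
    (hq : PTF q) : PTF (fun a => (mac E (e a) (t a)).qs (q a)) := by
  have key : ∀ l : List ℕ,
      PTF (fun a => l.map (fun j => fld (j + 2) (E.U (e a) (q a) (t a)))) := by
    intro l
    induction l with
    | nil => exact PTF.const []
    | cons j l ih => exact PTF.cons (ptf_fld (j + 2) (PTF.comp hE (he.pair (hq.pair ht)))) ih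
  exact key (List.range E.k)

/-- Composition. -/
theorem ptf_ev (k : ℕ) {n t a : α → ℕ} {mode : α → Bool} {low : α → S → Bool} {key : α → S}
    {b : α → Bool} {L : α → List S} {X : α → S → Bool} {q : α → S} (hn : PTF n) (ht : PTF t)
    (ha : PTF a) (hmode : PTF mode) (hlow : PTF (fun p : α × S => low p.1 p.2)) (hkey : PTF key)
    (hb : PTF b) (hL : PTF L) (hX : PTF (fun p : α × S => X p.1 p.2)) (hq : PTF q) :
    PTF (fun x => ev k (n x) (t x) (a x) (mode x) (low x) (key x) (b x) (L x) (X x) (q x)) := by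
  unfold ev
  have hlev : PTF (fun x => lev (q x)) := ptf_lev hq
  have hXq : PTF (fun x => X x (q x)) := PTF.comp hX (PTF.id.pair hq)
  have hmem : PTF (fun x => decide (q x ∈ L x)) :=
    (ptf_mem hq hL).of_eq fun x => decide_eq_decide.2 Iff.rfl
  refine Px5_ite (ptf_isCod k hq) (Px5_ite (ptf_inI hn ht hq)
    (Px5_ite (ptf_isMsk hq) (PTF.and hb (PTF.eq hlev hn))
      (Px5_ite (ptf_isFre hq) hmem
        (PTF.or hmem (PTF.and (PTF.comp hX (PTF.id.pair (ptf_atm k hn ht hq)))
          (PTF.or (PTF.lt (PTF.add (ptf_idx hq) (PTF.const 2)) (PTF.const k)) (PTF.not hb))))))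
    (PTF.ite (PTF.lt hlev hn)
      (Px5_ite hmode
        (PTF.ite (PTF.lt hlev ha) (PTF.comp hlow (PTF.id.pair hq))
          (PTF.and (PTF.and (ptf_isSh k hq) (PTF.eq (ptf_idx hq) (PTF.const 0))) hXq))
        (PTF.or (PTF.eq hq hkey) hXq))
      hXq)) (PTF.const false)

/-- Composition (`PTF.map` for the answers, `ptf_tbl`). -/
theorem ptf_vio {E : Env} (hE : UP E) {e : α → S} {t : α → ℕ} {c : α → S → Bool} {q : α → S}
    (he : PTF e) (ht : PTF t) (hc : PTF (fun p : α × S => c p.1 p.2)) (hq : PTF q) :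
    PTF (fun a => vio (mac E (e a) (t a)) (c a) (q a)) := by
  unfold vio
  have hcq : PTF (fun a => c a (q a)) := PTF.comp hc (PTF.id.pair hq)
  refine ptf_bne hcq (ptf_tbl (ptf_tab hE he ht hq) ?_)
  refine PTF.map (f := fun a p =>
    ((mac E (e a) (t a)).side p != (mac E (e a) (t a)).side (q a)) && c a p)
    (ptf_qs hE he ht hq) ?_
  have he' : PTF (fun p : α × S => e p.1) := PTF.comp he PTF.id.fst
  have ht' : PTF (fun p : α × S => t p.1) := PTF.comp ht PTF.id.fst
  have hq' : PTF (fun p : α × S => q p.1) := PTF.comp hq PTF.id.fst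
  exact PTF.and (ptf_bne (ptf_side hE he' ht' PTF.id.snd) (ptf_side hE he' ht' hq')) hc

end Pool.Agent.Helper21.BX
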