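import Pool.Agent.Helper21.BX.Px5

/-!
Project BX (MP_4a5e7e_lc): the parts of a plan are computable in polynomial time.
-/

namespace Pool.Agent.Helper21.BX

open Pool.Agent.Helper91.PolyTime

variable {α β γ : Type} [PEnc α] [PEnc β] [PEnc γ]

private theorem Px6_ite {c : α → Bool} {f g : α → β} (hc : PTF c) (hf : PTF f) (hg : PTF g) :
    PTF (fun a => if c a = true then f a else g a) := by
  refine (PTF.cond hc hf hg).of_eq fun a => ?_
  cases c a <;> rfl

private theorem Px6_sq {n : α → ℕ} (hn : PTF n) : PTF (fun a => n a ^ 2) := PTF.pow hn 2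

private theorem Px6_pY {n : α → ℕ} {w : α → S} (hn : PTF n) (hw : PTF w) :
    PTF (fun a => pY (n a) (w a)) := ptf_fre (ptf_take (Px6_sq hn) hw)

private theorem Px6_pY2 {n : α → ℕ} {w : α → S} (hn : PTF n) (hw : PTF w) :
    PTF (fun a => pY2 (n a) (w a)) :=
  ptf_fre (ptf_take (Px6_sq hn) (PTF.drop (Px6_sq hn) hw))

private theorem Px6_pD {n : α → ℕ} {w : α → S} (hn : PTF n) (hw : PTF w) :
    PTF (fun a => pD (n a) (w a)) := PTF.drop (PTF.mul (PTF.const 2) (Px6_sq hn)) hw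

private theorem Px6_pZ {E : Env} (hE : UP E) {e w : α → S} {n t : α → ℕ} (he : PTF e) (ht : PTF t)
    (hn : PTF n) (hw : PTF w) : PTF (fun a => pZ (mac E (e a) (t a)) E.k (n a) (w a)) :=
  ptf_pick (ptf_take (PTF.const E.k) (PTF.drop (PTF.const 1) (Px6_pD hn hw)))
    (ptf_qs hE he ht (Px6_pY hn hw))

private theorem Px6_pZ2 {E : Env} (hE : UP E) {e w : α → S} {n t : α → ℕ} (he : PTF e)
    (ht : PTF t) (hn : PTF n) (hw : PTF w) :
    PTF (fun a => pZ2 (mac E (e a) (t a)) E.k (n a) (w a)) :=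
  ptf_pick (ptf_take (PTF.const E.k) (PTF.drop (PTF.const (1 + E.k)) (Px6_pD hn hw)))
    (ptf_qs hE he ht (Px6_pY2 hn hw))

private theorem Px6_mem {f : α → S} {l : α → List S} (hf : PTF f) (hl : PTF l) :
    PTF (fun a => decide (f a ∈ l a)) :=
  (ptf_mem hf hl).of_eq fun _ => decide_eq_decide.2 Iff.rfl

theorem ptf_pB {n : α → ℕ} {w : α → S} (hn : PTF n) (hw : PTF w) :
    PTF (fun a => pB (n a) (w a)) := by
  exact ptf_headD (Px6_pD hn hw) (PTF.const false)

theorem ptf_tgt {E : Env} (hE : UP E) {e w : α → S} {n t : α → ℕ} (he : PTF e) (ht : PTF t)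
    (hn : PTF n) (hw : PTF w) : PTF (fun a => tgt (mac E (e a) (t a)) E.k (n a) (w a)) := by
  exact PTF.cons (Px6_pY hn hw) (PTF.cons (Px6_pY2 hn hw) (PTF.cons (Px6_pZ hE he ht hn hw)
    (PTF.cons (Px6_pZ2 hE he ht hn hw) (PTF.const []))))

theorem ptf_rel {E : Env} (hE : UP E) {e w : α → S} {n t : α → ℕ} (he : PTF e) (ht : PTF t)
    (hn : PTF n) (hw : PTF w) : PTF (fun a => rel (mac E (e a) (t a)) E.k (n a) (w a)) := by
  unfold rel
  refine PTF.append (ptf_tgt hE he ht hn hw) (PTF.flatMap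
    (f := fun a q => (mac E (e a) (t a)).qs q) (ptf_tgt hE he ht hn hw) ?_)
  exact ptf_qs hE (PTF.comp he PTF.id.fst) (PTF.comp ht PTF.id.fst) PTF.id.snd

theorem ptf_pL {E : Env} (hE : UP E) {e w : α → S} {n t : α → ℕ} (he : PTF e) (ht : PTF t)
    (hn : PTF n) (hw : PTF w) : PTF (fun a => pL (mac E (e a) (t a)) E.k (n a) (w a)) := by
  exact ptf_sel (ptf_take (PTF.const (RR E.k)) (PTF.drop (PTF.const (1 + 2 * E.k)) (Px6_pD hn hw)))
    (ptf_rel hE he ht hn hw)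

theorem ptf_pK {E : Env} (hE : UP E) {e w : α → S} {n t : α → ℕ} (he : PTF e) (ht : PTF t)
    (hn : PTF n) (hw : PTF w) : PTF (fun a => pK (mac E (e a) (t a)) E.k (n a) (w a)) := by
  exact ptf_pick (ptf_take (PTF.const (RR E.k))
    (PTF.drop (PTF.const (1 + 2 * E.k + RR E.k)) (Px6_pD hn hw))) (ptf_rel hE he ht hn hw)

theorem ptf_legit {E : Env} (hE : UP E) {e w : α → S} {n t τ : α → ℕ} (he : PTF e) (ht : PTF t)
    (hn : PTF n) (hτ : PTF τ) (hw : PTF w) :
    PTF (fun a => legit (mac E (e a) (t a)) E.k (n a) (τ a) (w a)) := by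
  unfold legit
  refine PTF.all (f := fun a r => !(isSh E.k r && inI (n a) (τ a) r) ||
    !((List.range (if pB (n a) (w a) then E.k - 2 else E.k - 1)).all
      (fun i => decide (sh i (rest r) ∈ pL (mac E (e a) (t a)) E.k (n a) (w a)))))
    (ptf_rel hE he ht hn hw) ?_
  have hn' : PTF (fun p : α × S => n p.1) := PTF.comp hn PTF.id.fst
  have hτ' : PTF (fun p : α × S => τ p.1) := PTF.comp hτ PTF.id.fst
  have hw' : PTF (fun p : α × S => w p.1) := PTF.comp hw PTF.id.fst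
  refine PTF.or (PTF.not (PTF.and (ptf_isSh E.k PTF.id.snd) (ptf_inI hn' hτ' PTF.id.snd)))
    (PTF.not ?_)
  refine PTF.all (f := fun (p : α × S) i =>
    decide (sh i (rest p.2) ∈ pL (mac E (e p.1) (t p.1)) E.k (n p.1) (w p.1)))
    (PTF.range (Px6_ite (ptf_pB hn' hw') (PTF.const (E.k - 2)) (PTF.const (E.k - 1)))) ?_
  have hf : PTF (fun q : (α × S) × ℕ => q.1.1) := PTF.id.fst.fst
  exact Px6_mem (ptf_sh PTF.id.snd (ptf_rest PTF.id.fst.snd))
    (ptf_pL hE (PTF.comp he hf) (PTF.comp ht hf) (PTF.comp hn hf) (PTF.comp hw hf))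

theorem ptf_keyok {E : Env} (hE : UP E) {e w : α → S} {n t s : α → ℕ} (he : PTF e) (ht : PTF t)
    (hn : PTF n) (hs : PTF s) (hw : PTF w) :
    PTF (fun a => keyok (mac E (e a) (t a)) E.k (n a) (s a) (w a)) := by
  have hK := ptf_pK hE he ht hn hw
  exact PTF.and (PTF.and (PTF.and (ptf_isSh E.k hK) (PTF.eq (ptf_idx hK) (PTF.const 0)))
    (PTF.le hs (ptf_lev hK))) (PTF.lt (ptf_lev hK) hn)

end Pool.Agent.Helper21.BX
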