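import Pool.Agent.Helper21.BX.Px6
import Pool.Agent.Helper21.BX.Px4

/-!
Project BX (MP_4a5e7e_lc): the clocked functions, and validity of plans in polynomial time.

The clock `C` replaces the exponential numbers: `pw C n` is `2 ^ n` if this is at most `C`.
-/

namespace Pool.Agent.Helper21.BX

open Pool.Agent.Helper91.PolyTime

variable {α β γ : Type} [PEnc α] [PEnc β] [PEnc γ]

/-- Composition; the list `allB (RR k)` is a constant. -/
theorem ptf_val {E : Env} (hE : UP E) {e w : α → S} {n t s : α → ℕ} {mode : α → Bool}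
    {low : α → S → Bool} (he : PTF e) (hn : PTF n) (ht : PTF t) (hs : PTF s) (hmode : PTF mode)
    (hlow : PTF (fun p : α × S => low p.1 p.2)) (hw : PTF w) :
    PTF (fun a => val (mac E (e a) (t a)) E.k (n a) (t a) (s a) (mode a) (low a) (w a)) := by
  -- projections
  have p1 : PTF (fun p : α × S => p.1) := PTF.id.fst
  have q1 : PTF (fun p : (α × S) × S => p.1.1) := PTF.id.fst.fst
  have r1 : PTF (fun p : ((α × S) × S) × S => p.1.1.1) := PTF.id.fst.fst.fst
  have s1 : PTF (fun p : (((α × S) × S) × S) × S => p.1.1.1.1) := PTF.id.fst.fst.fst.fst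
  have hX : PTF (fun p : (((α × S) × S) × S) × S => decide (p.2 ∈ sel p.1.1.1.2
      ((rel (mac E (e p.1.1.1.1) (t p.1.1.1.1)) E.k (n p.1.1.1.1) (w p.1.1.1.1)).map
        (atm E.k (n p.1.1.1.1) (t p.1.1.1.1))))) := by
    refine (ptf_mem (f := fun p : (((α × S) × S) × S) × S => p.2) (l := fun p => sel p.1.1.1.2
      ((rel (mac E (e p.1.1.1.1) (t p.1.1.1.1)) E.k (n p.1.1.1.1) (w p.1.1.1.1)).map
        (atm E.k (n p.1.1.1.1) (t p.1.1.1.1)))) PTF.id.snd ?_).of_eq
      fun p => decide_eq_decide.2 Iff.rfl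
    refine ptf_sel (bs := fun p : (((α × S) × S) × S) × S => p.1.1.1.2) PTF.id.fst.fst.fst.snd ?_
    refine PTF.map (l := fun p : (((α × S) × S) × S) × S =>
      rel (mac E (e p.1.1.1.1) (t p.1.1.1.1)) E.k (n p.1.1.1.1) (w p.1.1.1.1))
      (f := fun (p : (((α × S) × S) × S) × S) (q : S) => atm E.k (n p.1.1.1.1) (t p.1.1.1.1) q)
      (ptf_rel hE (he.comp s1) (ht.comp s1) (hn.comp s1) (hw.comp s1)) ?_
    have u1 : PTF (fun p : ((((α × S) × S) × S) × S) × S => p.1.1.1.1.1) :=
      PTF.id.fst.fst.fst.fst.fst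
    exact ptf_atm E.k (hn.comp u1) (ht.comp u1) PTF.id.snd
  have hev : PTF (fun p : ((α × S) × S) × S =>
      evP (mac E (e p.1.1.1) (t p.1.1.1)) E.k (n p.1.1.1) (t p.1.1.1) (s p.1.1.1) (mode p.1.1.1)
        (low p.1.1.1) (w p.1.1.1) (fun q => decide (q ∈ sel p.1.1.2
          ((rel (mac E (e p.1.1.1) (t p.1.1.1)) E.k (n p.1.1.1) (w p.1.1.1)).map
            (atm E.k (n p.1.1.1) (t p.1.1.1))))) p.2) :=
    ptf_ev E.k (X := fun (p : ((α × S) × S) × S) (q : S) => decide (q ∈ sel p.1.1.2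
          ((rel (mac E (e p.1.1.1) (t p.1.1.1)) E.k (n p.1.1.1) (w p.1.1.1)).map
            (atm E.k (n p.1.1.1) (t p.1.1.1))))) (low := fun (p : ((α × S) × S) × S) => low p.1.1.1)
      (hn.comp r1) (ht.comp r1) (hs.comp r1) (hmode.comp r1)
      (hlow.comp (s1.pair PTF.id.snd))
      (ptf_pK hE (he.comp r1) (ht.comp r1) (hn.comp r1) (hw.comp r1))
      (ptf_pB (hn.comp r1) (hw.comp r1))
      (ptf_pL hE (he.comp r1) (ht.comp r1) (hn.comp r1) (hw.comp r1)) hX PTF.id.snd
  have hvio : PTF (fun p : (α × S) × S => vio (mac E (e p.1.1) (t p.1.1))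
      (evP (mac E (e p.1.1) (t p.1.1)) E.k (n p.1.1) (t p.1.1) (s p.1.1) (mode p.1.1)
        (low p.1.1) (w p.1.1) (fun q => decide (q ∈ sel p.1.2
          ((rel (mac E (e p.1.1) (t p.1.1)) E.k (n p.1.1) (w p.1.1)).map
            (atm E.k (n p.1.1) (t p.1.1)))))) p.2) :=
    ptf_vio hE (c := fun (p : (α × S) × S) (q : S) =>
      evP (mac E (e p.1.1) (t p.1.1)) E.k (n p.1.1) (t p.1.1) (s p.1.1) (mode p.1.1)
        (low p.1.1) (w p.1.1) (fun q => decide (q ∈ sel p.1.2
          ((rel (mac E (e p.1.1) (t p.1.1)) E.k (n p.1.1) (w p.1.1)).map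
            (atm E.k (n p.1.1) (t p.1.1))))) q)
      (he.comp q1) (ht.comp q1) hev PTF.id.snd
  have hany : PTF (fun p : α × S => (tgt (mac E (e p.1) (t p.1)) E.k (n p.1) (w p.1)).any
      (vio (mac E (e p.1) (t p.1))
        (evP (mac E (e p.1) (t p.1)) E.k (n p.1) (t p.1) (s p.1) (mode p.1)
          (low p.1) (w p.1) (fun q => decide (q ∈ sel p.2
            ((rel (mac E (e p.1) (t p.1)) E.k (n p.1) (w p.1)).map
              (atm E.k (n p.1) (t p.1)))))))) :=
    PTF.any (ptf_tgt hE (he.comp p1) (ht.comp p1) (hn.comp p1) (hw.comp p1)) hvio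
  exact PTF.and (PTF.and (ptf_legit hE he ht hn ht hw)
    (PTF.or hmode (ptf_keyok hE he ht hn hs hw)))
    (PTF.all (l := fun _ : α => allB (RR E.k)) (PTF.const _) hany)

/-- One step of the search for the window of the level `l`. -/
def wst (l : ℕ) (s : ℕ × ℕ) : ℕ × ℕ :=
  if pw l (s.2 ^ 2 + 1) = 0 then s else (s.1 + 1, pw l (s.2 ^ 2 + 1))

/-- The window of a level, and the start of the window. -/
def wpar (l : ℕ) : ℕ × ℕ := (wst l)^[l] (0, 0)

private theorem Px7_pw_le (C n : ℕ) : pw C n ≤ C := by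
  unfold pw
  split_ifs with h
  · exact h
  · exact Nat.zero_le _

private theorem Px7_wst (l m : ℕ) :
    ((wst l)^[m] (0, 0)).1 ≤ m ∧ ((wst l)^[m] (0, 0)).2 ≤ l := by
  induction m with
  | zero => exact ⟨le_rfl, Nat.zero_le _⟩
  | succ m ih =>
    rw [Function.iterate_succ_apply']
    generalize (wst l)^[m] (0, 0) = s at ih ⊢
    unfold wst
    split_ifs with h
    · exact ⟨le_trans ih.1 (Nat.le_succ m), ih.2⟩
    · exact ⟨Nat.succ_le_succ ih.1, Px7_pw_le _ _⟩

/-- The sizes stay below `10 * l + 10` (the first number is at most the number of steps). -/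
theorem ptf_wpar {l : α → ℕ} (hl : PTF l) : PTF (fun a => wpar (l a)) := by
  obtain ⟨p, hp⟩ := hl.length_le
  have h2 : PTF (fun x : α × (ℕ × ℕ) => pw (l x.1) (x.2.2 ^ 2 + 1)) :=
    ptf_pw (hl.comp PTF.id.fst) (PTF.succ (PTF.pow PTF.id.snd.snd 2))
  refine PTF.iterate (F := fun a s => wst (l a) s) hl (PTF.const (0, 0)) ?_ (3 * p + 1) ?_
  · exact PTF.ite (c := fun x : α × (ℕ × ℕ) => pw (l x.1) (x.2.2 ^ 2 + 1) = 0) (PTF.isZero h2)
      PTF.id.snd (PTF.pair (PTF.succ PTF.id.snd.fst) h2)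
  · intro a m hm
    have h := Px7_wst (l a) m
    have hl' := hp a
    rw [length_enc_nat] at hl'
    show (enc ((wst (l a))^[m] (0, 0))).length ≤ _
    generalize (wst (l a))^[m] (0, 0) = s at h
    rw [show s = (s.1, s.2) from rfl, length_enc_prod, length_enc_nat, length_enc_nat]
    simp only [Polynomial.eval_add, Polynomial.eval_mul, Polynomial.eval_one,
      Polynomial.eval_ofNat]
    omega

/-- The complete set with a clock. -/
def KdC (E : Env) (C : ℕ) (c : S) : Bool :=
  (fnd (E.V c) C (List.replicate (pw C c.length) false)).isSome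

/-- `v0` with explicit parameters. -/
def v0C (E : Env) (e : S) (n t a l : ℕ) (w : S) : Bool :=
  val (mac E e t) E.k n t a false (fun _ => false) w && decide (lev (pK (mac E e t) E.k n w) = l)

/-- The bit of a level with a clock. -/
def blC (E : Env) (C : ℕ) (e : S) (n t a l : ℕ) : Bool :=
  decide (l < n) && (fnd (v0C E e n t a l) C (List.replicate (WW E.k n) false)).isSome

/-- The set with a clock, if `w` is the plan of the window. -/
def inC (E : Env) (C : ℕ) (w q : S) : Bool :=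
  rul E.k (inI (pw C (wpar (lev q)).2) (pw C ((wpar (lev q)).2 ^ 2)) q) (pw C (wpar (lev q)).2)
    (pB (pw C (wpar (lev q)).2) w)
    (pL (mac E (pg (wpar (lev q)).1) (pw C ((wpar (lev q)).2 ^ 2))) E.k (pw C (wpar (lev q)).2) w)
    (isSh E.k q && KdC E C (rest q))
    (blC E C (pg (wpar (lev q)).1) (pw C (wpar (lev q)).2) (pw C ((wpar (lev q)).2 ^ 2))
      (wpar (lev q)).2 (lev q)) q

/-- The set with a clock, if `h` is the list of the plans. -/
def lowC (E : Env) (C : ℕ) (h : List S) (q : S) : Bool := inC E C (h.getD (wpar (lev q)).1 []) q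

end Pool.Agent.Helper21.BX
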