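import Pool.Agent.Helper21.BX.Px7

/-!
Project BX (MP_4a5e7e_lc): the clocked functions are computable in polynomial time (compositions).
-/

namespace Pool.Agent.Helper21.BX

open Pool.Agent.Helper91.PolyTime

variable {α β γ : Type} [PEnc α] [PEnc β] [PEnc γ]

private theorem Px7b_ite {c : α → Bool} {f g : α → β} (hc : PTF c) (hf : PTF f) (hg : PTF g) :
    PTF (fun a => if c a = true then f a else g a) := by
  refine (PTF.cond hc hf hg).of_eq fun a => ?_
  cases c a <;> rfl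

theorem ptf_rul (k : ℕ) {att b κ β : α → Bool} {n : α → ℕ} {L : α → List S} {q : α → S}
    (hatt : PTF att) (hn : PTF n) (hb : PTF b) (hL : PTF L) (hκ : PTF κ) (hβ : PTF β)
    (hq : PTF q) : PTF (fun a => rul k (att a) (n a) (b a) (L a) (κ a) (β a) (q a)) := by
  unfold rul
  have hmem : PTF (fun x => decide (q x ∈ L x)) :=
    (ptf_mem hq hL).of_eq fun x => decide_eq_decide.2 Iff.rfl
  exact Px7b_ite (ptf_isCod k hq) (Px7b_ite hatt
    (Px7b_ite (ptf_isMsk hq) (PTF.and hb (PTF.eq (ptf_lev hq) hn))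
      (Px7b_ite (ptf_isFre hq) hmem
        (PTF.or hmem (PTF.and hκ
          (PTF.or (PTF.lt (PTF.add (ptf_idx hq) (PTF.const 2)) (PTF.const k)) (PTF.not hb))))))
    (Px7b_ite (ptf_isMsk hq) hβ
      (Px7b_ite (ptf_isFre hq) (PTF.const false)
        (PTF.ite (PTF.eq (ptf_idx hq) (PTF.const 0)) (PTF.or hκ hβ)
          (PTF.ite (PTF.eq (ptf_idx hq) (PTF.const 1)) (PTF.and hκ hβ) (PTF.const false))))))
    (PTF.const false)

theorem ptf_v0C {E : Env} (hE : UP E) {e w : α → S} {n t s l : α → ℕ} (he : PTF e) (hn : PTF n)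
    (ht : PTF t) (hs : PTF s) (hl : PTF l) (hw : PTF w) :
    PTF (fun a => v0C E (e a) (n a) (t a) (s a) (l a) (w a)) := by
  unfold v0C
  have hlow : PTF (fun _ : α × S => false) := PTF.const false
  exact PTF.and (ptf_val hE he hn ht hs (PTF.const false) hlow hw)
    (PTF.eq (ptf_lev (ptf_pK hE he ht hn hw)) hl)

theorem ptf_KdC {E : Env} (hV : VP E) {C : α → ℕ} {c : α → S} (hC : PTF C) (hc : PTF c) :
    PTF (fun a => KdC E (C a) (c a)) := by
  unfold KdC
  exact ptf_isSome (ptf_fnd (P := fun a => E.V (c a)) (hV.comp ((hc.comp PTF.id.fst).pair PTF.id.snd))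
    hC (ptf_replicate (ptf_pw hC (PTF.length hc)) (PTF.const false)))

theorem ptf_blC {E : Env} (hE : UP E) {C : α → ℕ} {e : α → S} {n t s l : α → ℕ} (hC : PTF C)
    (he : PTF e) (hn : PTF n) (ht : PTF t) (hs : PTF s) (hl : PTF l) :
    PTF (fun a => blC E (C a) (e a) (n a) (t a) (s a) (l a)) := by
  unfold blC
  refine PTF.and (PTF.lt hl hn) (ptf_isSome (ptf_fnd
    (P := fun a => v0C E (e a) (n a) (t a) (s a) (l a)) ?_ hC
    (ptf_replicate (ptf_WW E.k hn) (PTF.const false))))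
  have p1 : PTF (fun p : α × S => p.1) := PTF.id.fst
  exact ptf_v0C hE (he.comp p1) (hn.comp p1) (ht.comp p1) (hs.comp p1) (hl.comp p1) PTF.id.snd

theorem ptf_inC {E : Env} (hE : UP E) (hV : VP E) {C : α → ℕ} {w q : α → S} (hC : PTF C)
    (hw : PTF w) (hq : PTF q) : PTF (fun a => inC E (C a) (w a) (q a)) := by
  unfold inC
  have hlev : PTF (fun a => lev (q a)) := ptf_lev hq
  have hw1 : PTF (fun a => (wpar (lev (q a))).1) := (ptf_wpar hlev).fst
  have hw2 : PTF (fun a => (wpar (lev (q a))).2) := (ptf_wpar hlev).snd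
  have hn : PTF (fun a => pw (C a) (wpar (lev (q a))).2) := ptf_pw hC hw2
  have ht : PTF (fun a => pw (C a) ((wpar (lev (q a))).2 ^ 2)) := ptf_pw hC (PTF.pow hw2 2)
  have he : PTF (fun a => pg (wpar (lev (q a))).1) := ptf_pg hw1
  exact ptf_rul E.k (ptf_inI hn ht hq) hn (ptf_pB hn hw) (ptf_pL hE he ht hn hw)
    (PTF.and (ptf_isSh E.k hq) (ptf_KdC hV hC (ptf_rest hq)))
    (ptf_blC hE hC he hn ht hw2 hlev) hq

theorem ptf_lowC {E : Env} (hE : UP E) (hV : VP E) {C : α → ℕ} {h : α → List S} {q : α → S}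
    (hC : PTF C) (hh : PTF h) (hq : PTF q) : PTF (fun a => lowC E (C a) (h a) (q a)) := by
  unfold lowC
  exact ptf_inC hE hV hC (ptf_getD (ptf_wpar (ptf_lev hq)).fst hh (PTF.const [])) hq

end Pool.Agent.Helper21.BX
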