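import Pool.Agent.Helper21.BX.Px7b

/-!
Project BX (MP_4a5e7e_lc): the history of the plans and the verifier of the set.
-/

namespace Pool.Agent.Helper21.BX

open Pool.Agent.Helper91.PolyTime

variable {α β γ : Type} [PEnc α] [PEnc β] [PEnc γ]

/-- The plan of a window, with a clock. -/
def planC (E : Env) (C : ℕ) (e : S) (n t a : ℕ) (h : List S) : S :=
  match fnd (val (mac E e t) E.k n t a false (fun _ => false)) C
      (List.replicate (WW E.k n) false) with
  | some w => w
  | none => (fnd (val (mac E e t) E.k n t a true (lowC E C h)) C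
      (List.replicate (WW E.k n) false)).getD (dfl E.k n)

/-- One step of the history: number of the window, its start, the list of the plans. -/
def hst (E : Env) (C : ℕ) (s : (ℕ × ℕ) × List S) : (ℕ × ℕ) × List S :=
  ((s.1.1 + 1, pw C (s.1.2 ^ 2 + 1)),
    s.2 ++ [planC E C (pg s.1.1) (pw C s.1.2) (pw C (s.1.2 ^ 2)) s.1.2 s.2])

/-- The history with a clock. -/
def hisC (E : Env) (C m : ℕ) : List S := ((hst E C)^[m] ((0, 0), [])).2

/-- The verifier of the set: `g` consists of a witness for the complete set and a plan. -/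
def VA (E : Env) (q g : S) : Bool :=
  rul E.k
    (inI (pw g.length (wpar (lev q)).2) (pw g.length ((wpar (lev q)).2 ^ 2)) q)
    (pw g.length (wpar (lev q)).2)
    (pB (pw g.length (wpar (lev q)).2)
      ((hisC E g.length ((wpar (lev q)).1 + 1)).getD (wpar (lev q)).1 []))
    (pL (mac E (pg (wpar (lev q)).1) (pw g.length ((wpar (lev q)).2 ^ 2))) E.k
      (pw g.length (wpar (lev q)).2)
      ((hisC E g.length ((wpar (lev q)).1 + 1)).getD (wpar (lev q)).1 []))
    (isSh E.k q && E.V (rest q) (g.take (pw g.length (rest q).length)))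
    (decide (lev q < pw g.length (wpar (lev q)).2) &&
      v0C E (pg (wpar (lev q)).1) (pw g.length (wpar (lev q)).2)
        (pw g.length ((wpar (lev q)).2 ^ 2)) (wpar (lev q)).2 (lev q)
        ((g.drop (pw g.length (rest q).length)).take (WW E.k (pw g.length (wpar (lev q)).2)))) q

theorem ptf_planC {E : Env} (hE : UP E) (hV : VP E) {C : α → ℕ} {e : α → S} {n t s : α → ℕ}
    {h : α → List S} (hC : PTF C) (he : PTF e) (hn : PTF n) (ht : PTF t) (hs : PTF s)
    (hh : PTF h) : PTF (fun a => planC E (C a) (e a) (n a) (t a) (s a) (h a)) := by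
  have p1 : PTF (fun p : α × S => p.1) := PTF.id.fst
  have q1 : PTF (fun p : (α × S) × S => p.1.1) := PTF.id.fst.fst
  have hrep : PTF (fun a => List.replicate (WW E.k (n a)) false) :=
    ptf_replicate (ptf_WW E.k hn) (PTF.const false)
  have hval : PTF (fun p : α × S => val (mac E (e p.1) (t p.1)) E.k (n p.1) (t p.1) (s p.1) false
      (fun _ => false) p.2) :=
    ptf_val hE (e := fun p : α × S => e p.1) (w := fun p => p.2) (n := fun p => n p.1)
      (t := fun p => t p.1) (s := fun p => s p.1) (mode := fun _ => false)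
      (low := fun _ _ => false) (he.comp p1) (hn.comp p1) (ht.comp p1) (hs.comp p1)
      (PTF.const false) (PTF.const false) PTF.id.snd
  have hval2 : PTF (fun p : α × S => val (mac E (e p.1) (t p.1)) E.k (n p.1) (t p.1) (s p.1) true
      (lowC E (C p.1) (h p.1)) p.2) :=
    ptf_val hE (e := fun p : α × S => e p.1) (w := fun p => p.2) (n := fun p => n p.1)
      (t := fun p => t p.1) (s := fun p => s p.1) (mode := fun _ => true)
      (low := fun p => lowC E (C p.1) (h p.1)) (he.comp p1) (hn.comp p1) (ht.comp p1) (hs.comp p1)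
      (PTF.const true) (ptf_lowC hE hV (hC.comp q1) (hh.comp q1) PTF.id.snd) PTF.id.snd
  have h1 := ptf_fnd (P := fun a w => val (mac E (e a) (t a)) E.k (n a) (t a) (s a) false
      (fun _ => false) w) hval hC hrep
  have h2 := ptf_fnd (P := fun a w => val (mac E (e a) (t a)) E.k (n a) (t a) (s a) true
      (lowC E (C a) (h a)) w) hval2 hC hrep
  have h3 := ptf_ogetD h2 hrep
  refine (PTF.optCase (s := fun _ w => w) h1 h3 PTF.id.snd).of_eq fun a => ?_
  unfold planC dfl
  cases fnd (val (mac E (e a) (t a)) E.k (n a) (t a) (s a) false (fun _ => false)) (C a)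
      (List.replicate (WW E.k (n a)) false) <;> rfl

private theorem Px8_pw_le (C n : ℕ) : pw C n ≤ C := by
  unfold pw
  split_ifs with h
  · exact h
  · exact Nat.zero_le _

private theorem Px8_planC (E : Env) (C : ℕ) (e : S) (n t a : ℕ) (h : List S) :
    (planC E C e n t a h).length = WW E.k n := by
  unfold planC
  split
  · rename_i w hw
    rw [(fnd_some hw).1, List.length_replicate]
  · cases hw : fnd (val (mac E e t) E.k n t a true (lowC E C h)) C
      (List.replicate (WW E.k n) false) with
    | none => simp [dfl]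
    | some w => rw [Option.getD_some, (fnd_some hw).1, List.length_replicate]

private theorem Px8_WW {k m n : ℕ} (h : m ≤ n) : WW k m ≤ WW k n := by
  unfold WW
  have := Nat.pow_le_pow_left h 2
  omega

private theorem Px8_encS (w : S) : (enc w).length = 3 * w.length := by
  induction w with
  | nil => rfl
  | cons b w ih =>
    rw [length_enc_cons, ih, enc_bool]
    simp only [List.length_cons, List.length_nil]
    omega

private theorem Px8_encL (L : List S) (W : ℕ) (h : ∀ w ∈ L, w.length ≤ W) :
    (enc L).length ≤ L.length * (6 * W + 1) := by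
  induction L with
  | nil => exact Nat.zero_le _
  | cons w L ih =>
    rw [length_enc_cons, Px8_encS, List.length_cons, Nat.add_mul, Nat.one_mul]
    have h1 := ih fun v hv => h v (List.mem_cons_of_mem _ hv)
    have h2 := h w List.mem_cons_self
    omega

private theorem Px8_hst (E : Env) (C i : ℕ) :
    ((hst E C)^[i] ((0, 0), [])).1.1 = i ∧ ((hst E C)^[i] ((0, 0), [])).1.2 ≤ C ∧
      ((hst E C)^[i] ((0, 0), [])).2.length = i ∧
      ∀ w ∈ ((hst E C)^[i] ((0, 0), [])).2, w.length ≤ WW E.k C := by
  induction i with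
  | zero => exact ⟨rfl, Nat.zero_le _, rfl, fun w hw => absurd hw List.not_mem_nil⟩
  | succ i ih =>
    rw [Function.iterate_succ_apply']
    generalize (hst E C)^[i] ((0, 0), []) = s at ih ⊢
    obtain ⟨h1, h2, h3, h4⟩ := ih
    refine ⟨congrArg (· + 1) h1, Px8_pw_le _ _, ?_, ?_⟩
    · show (s.2 ++ [_]).length = _
      rw [List.length_append, h3]
      rfl
    · intro w hw
      rcases List.mem_append.1 hw with hw | hw
      · exact h4 w hw
      · rw [List.mem_singleton.1 hw, Px8_planC]
        exact Px8_WW (Px8_pw_le _ _)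

/-- Iteration; sizes: after `i` steps the first number is `i`, the second is at most `C`, the list has
`i` members, each of length `WW E.k n` with `n ≤ C` (`fnd_some`: the strings that are found have the
length of the start; `pw C _ ≤ C`). -/
theorem ptf_hisC {E : Env} (hE : UP E) (hV : VP E) {C m : α → ℕ} (hC : PTF C) (hm : PTF m) :
    PTF (fun a => hisC E (C a) (m a)) := by
  obtain ⟨p, hp⟩ := hm.length_le
  obtain ⟨r, hr⟩ := hC.length_le
  have c1 : PTF (fun x : α × ((ℕ × ℕ) × List S) => C x.1) := hC.comp PTF.id.fst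
  have s2 : PTF (fun x : α × ((ℕ × ℕ) × List S) => x.2.1.2) := PTF.id.snd.fst.snd
  have s1 : PTF (fun x : α × ((ℕ × ℕ) × List S) => x.2.1.1) := PTF.id.snd.fst.fst
  have hL : PTF (fun x : α × ((ℕ × ℕ) × List S) => x.2.2) := PTF.id.snd.snd
  have hF : PTF (fun x : α × ((ℕ × ℕ) × List S) => hst E (C x.1) x.2) := by
    refine PTF.pair (PTF.pair (PTF.succ s1) (ptf_pw c1 (PTF.succ (PTF.pow s2 2)))) ?_
    refine PTF.append hL (PTF.cons ?_ (PTF.const []))
    exact ptf_planC hE hV c1 (ptf_pg s1) (ptf_pw c1 s2) (ptf_pw c1 (PTF.pow s2 2)) s2 hL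
  have h := PTF.iterate (F := fun a s => hst E (C a) s) hm
    (PTF.const (((0, 0), []) : (ℕ × ℕ) × List S)) hF
    (2 * (2 * p + r + 1) + p * (6 * (2 * r ^ 2 + (1 + 2 * (E.k : Polynomial ℕ) +
      2 * (RR E.k : Polynomial ℕ))) + 1) + 1) ?_
  · exact h.snd
  · intro a i hi
    obtain ⟨h1, h2, h3, h4⟩ := Px8_hst E (C a) i
    have hl := hp a
    have hc := hr a
    rw [length_enc_nat] at hl hc
    show (enc ((hst E (C a))^[i] ((0, 0), []))).length ≤ _
    generalize (hst E (C a))^[i] ((0, 0), []) = s at h1 h2 h3 h4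
    have h5 := Px8_encL s.2 _ h4
    rw [show s = ((s.1.1, s.1.2), s.2) from rfl, length_enc_prod, length_enc_prod, length_enc_nat,
      length_enc_nat]
    rw [h3] at h5
    simp only [Polynomial.eval_add, Polynomial.eval_mul, Polynomial.eval_one,
      Polynomial.eval_ofNat, Polynomial.eval_pow, Polynomial.eval_natCast, Nat.cast_id]
    have h6 : WW E.k (C a) ≤ 2 * (r.eval (enc a).length) ^ 2 + (1 + 2 * E.k + 2 * RR E.k) :=
      Px8_WW hc
    have h7 : i * (6 * WW E.k (C a) + 1) ≤ p.eval (enc a).length *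
        (6 * (2 * (r.eval (enc a).length) ^ 2 + (1 + 2 * E.k + 2 * RR E.k)) + 1) :=
      Nat.mul_le_mul (hi.trans hl) (by omega)
    omega

theorem ptf_VA {E : Env} (hE : UP E) (hV : VP E) : PTF (fun p : S × S => VA E p.1 p.2) := by
  have hq : PTF (fun p : S × S => p.1) := PTF.id.fst
  have hg : PTF (fun p : S × S => p.2) := PTF.id.snd
  have hC : PTF (fun p : S × S => p.2.length) := PTF.length hg
  have hlev := ptf_lev hq
  have hw := ptf_wpar hlev
  have hn : PTF (fun p : S × S => pw p.2.length (wpar (lev p.1)).2) := ptf_pw hC hw.snd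
  have ht : PTF (fun p : S × S => pw p.2.length ((wpar (lev p.1)).2 ^ 2)) :=
    ptf_pw hC (PTF.pow hw.snd 2)
  have hh : PTF (fun p : S × S => (hisC E p.2.length ((wpar (lev p.1)).1 + 1)).getD
      (wpar (lev p.1)).1 []) :=
    ptf_getD hw.fst (ptf_hisC hE hV hC (PTF.succ hw.fst)) (PTF.const [])
  have hr := ptf_rest hq
  have hpr : PTF (fun p : S × S => pw p.2.length (rest p.1).length) := ptf_pw hC (PTF.length hr)
  have hVV : PTF (fun p : S × S => E.V (rest p.1) (p.2.take (pw p.2.length (rest p.1).length))) :=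
    PTF.comp₂ (h := fun x y => E.V x y) hV hr (ptf_take hpr hg)
  have hW : PTF (fun p : S × S => ((p.2.drop (pw p.2.length (rest p.1).length)).take
      (WW E.k (pw p.2.length (wpar (lev p.1)).2)))) :=
    ptf_take (ptf_WW E.k hn) (PTF.drop hpr hg)
  exact ptf_rul E.k (ptf_inI hn ht hq) hn (ptf_pB hn hh)
    (ptf_pL hE (ptf_pg hw.fst) ht hn hh) (PTF.and (ptf_isSh E.k hq) hVV)
    (PTF.and (PTF.lt hlev hn) (ptf_v0C hE (ptf_pg hw.fst) hn ht hw.snd hlev hW)) hq

end Pool.Agent.Helper21.BX
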