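import Pool.Agent.Helper21.BX.E4

/-!
Project BX (MP_4a5e7e_lc): data coded by trees, and functions of polynomial time on data.
-/

namespace Pool.Agent.Helper21.BX

open Pool.Agent.Helper5.SX

/-- Data that are coded by trees. -/
class Cod (α : Type) where
  /-- the code -/
  enc : α → D
  /-- different data have different codes -/
  inj : Function.Injective enc

/-- Codes of bits. -/
def encB : Bool → D
  | false => D.nil
  | true => D.cons D.nil D.nil

/-- Codes of numbers (unary). -/
def encN : ℕ → D
  | 0 => D.nil
  | n + 1 => D.cons D.nil (encN n)

/-- Codes of lists. -/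
def encL {α : Type} [Cod α] : List α → D
  | [] => D.nil
  | a :: l => D.cons (Cod.enc a) (encL l)

/-- Codes of options. -/
def encO {α : Type} [Cod α] : Option α → D
  | none => D.nil
  | some a => D.cons (Cod.enc a) D.nil

theorem encB_inj : Function.Injective encB := by
  intro a b h
  cases a <;> cases b <;> simp_all [encB]

theorem encN_inj : Function.Injective encN := by
  intro a
  induction a with
  | zero => intro b h; cases b <;> simp_all [encN]
  | succ a ih =>
    intro b h
    cases b with
    | zero => simp [encN] at h
    | succ b =>
      simp only [encN, D.cons.injEq, true_and] at h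
      rw [ih h]

theorem encL_inj {α : Type} [Cod α] : Function.Injective (encL (α := α)) := by
  intro a
  induction a with
  | nil => intro b h; cases b <;> simp_all [encL]
  | cons a l ih =>
    intro b h
    cases b with
    | nil => simp [encL] at h
    | cons b l' =>
      simp only [encL, D.cons.injEq] at h
      rw [Cod.inj h.1, ih h.2]

theorem encO_inj {α : Type} [Cod α] : Function.Injective (encO (α := α)) := by
  intro a b h
  cases a <;> cases b
  · rfl
  · simp [encO] at h
  · simp [encO] at h
  · simp only [encO, D.cons.injEq, and_true] at h
    rw [Cod.inj h]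

instance instCodD : Cod D := ⟨fun x => x, fun _ _ h => h⟩
instance instCodB : Cod Bool := ⟨encB, encB_inj⟩
instance instCodN : Cod ℕ := ⟨encN, encN_inj⟩
instance instCodL {α : Type} [Cod α] : Cod (List α) := ⟨encL, encL_inj⟩
instance instCodO {α : Type} [Cod α] : Cod (Option α) := ⟨encO, encO_inj⟩
instance instCodU : Cod Unit := ⟨fun _ => D.nil, fun _ _ _ => rfl⟩
instance instCodP {α β : Type} [Cod α] [Cod β] : Cod (α × β) :=
  ⟨fun p => D.cons (Cod.enc p.1) (Cod.enc p.2), fun a b h => by
    obtain ⟨a₁, a₂⟩ := a
    obtain ⟨b₁, b₂⟩ := b
    simp only [D.cons.injEq] at h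
    rw [Cod.inj h.1, Cod.inj h.2]⟩

/-- The size of the code. -/
def size {α : Type} [Cod α] (a : α) : ℕ := (Cod.enc a).sz

/-- `f` is computed in polynomial time with the oracle `O`. -/
def PF (O : Set Str) {α β : Type} [Cod α] [Cod β] (f : α → β) : Prop :=
  PR O (fun a => Cod.enc a) (fun a => Cod.enc (f a))

/-! ### sizes -/

section

variable {α β : Type} [Cod α] [Cod β]

theorem size_pos (a : α) : 0 < size a := D.sz_pos _

theorem size_false : size false = 1 := rfl

theorem size_true : size true = 3 := rfl

theorem size_bool (b : Bool) : size b ≤ 3 := by cases b <;> simp [size_false, size_true]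

theorem size_zero : size (0 : ℕ) = 1 := rfl

theorem size_nat (n : ℕ) : size n = 2 * n + 1 := by
  induction n with
  | zero => rfl
  | succ n ih =>
    have h : size (n + 1) = D.nil.sz + size n + 1 := D.sz_cons _ _
    rw [h, ih, D.sz_nil]
    ring

theorem size_nil : size ([] : List α) = 1 := rfl

theorem size_cons (a : α) (l : List α) : size (a :: l) = size a + size l + 1 := D.sz_cons _ _

theorem size_none : size (none : Option α) = 1 := rfl

theorem size_some (a : α) : size (some a) = size a + 2 := by
  have h : size (some a) = size a + D.nil.sz + 1 := D.sz_cons _ _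
  rw [h, D.sz_nil]

theorem size_pair (a : α) (b : β) : size (a, b) = size a + size b + 1 := D.sz_cons _ _

theorem size_D (x : D) : size x = x.sz := rfl

theorem size_append (l l' : List α) : size (l ++ l') + 1 = size l + size l' := by
  induction l with
  | nil => rw [List.nil_append, size_nil]; omega
  | cons a l ih => rw [List.cons_append, size_cons, size_cons]; omega

theorem length_lt_size (l : List α) : l.length < size l := by
  induction l with
  | nil => rw [size_nil]; simp
  | cons a l ih =>
    rw [size_cons, List.length_cons]
    have := size_pos a
    omega

theorem size_mem {a : α} {l : List α} (h : a ∈ l) : size a < size l := by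
  induction l with
  | nil => simp at h
  | cons b l ih =>
    rw [size_cons]
    rcases List.mem_cons.1 h with rfl | h
    · have := size_pos l
      omega
    · have := ih h
      omega

theorem size_str (w : Str) : size w ≤ 4 * w.length + 1 := by
  induction w with
  | nil => rw [size_nil]; simp
  | cons b w ih =>
    rw [size_cons, List.length_cons]
    have := size_bool b
    omega

end

end Pool.Agent.Helper21.BX
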