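import Pool.Agent.Helper21.BX.T0
import Pool.Agent.Helper21.BX.E5
import Pool.Agent.Helper21.BX.E6

/-!
Project BX (MP_4a5e7e_lc): basic functions on data. The proofs use `PR.comp`, `PR.cons`, `PR.ifn` and
`PR.congr`; the equations are checked by cases.
-/

namespace Pool.Agent.Helper21.BX

open Pool.Agent.Helper5.SX

variable {O : Set Str} {α β γ δ : Type} [Cod α] [Cod β] [Cod γ] [Cod δ]

/-- Another expression for the value. -/
theorem PR.congr {ι : Type} {X Y Z : ι → D} (h : PR O X Y) (he : ∀ i, Y i = Z i) : PR O X Z := by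
  rwa [show Z = Y from funext fun i => (he i).symm]

theorem PF.congr {f g : α → β} (h : PF O f) (he : ∀ a, f a = g a) : PF O g := by
  rwa [show g = f from funext fun a => (he a).symm]

/-- From a tree function. -/
theorem PF.of_tree {f : α → β} {F : D → D} (hF : PT O F) (h : ∀ a, F (Cod.enc a) = Cod.enc (f a)) :
    PF O f := PR.congr (PR.sub hF (fun a : α => Cod.enc a)) h

theorem PF.ident : PF O (fun a : α => a) := PR.id

theorem PF.const (b : β) : PF O (fun _ : α => b) := PR.const (Cod.enc b)

theorem PF.comp {g : β → γ} {f : α → β} (hg : PF O g) (hf : PF O f) : PF O (fun a => g (f a)) :=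
  PR.comp (PR.sub hg f) hf

theorem PF.pair {f : α → β} {g : α → γ} (hf : PF O f) (hg : PF O g) :
    PF O (fun a => (f a, g a)) := PR.cons hf hg

theorem PF.fst {f : α → β × γ} (hf : PF O f) : PF O (fun a => (f a).1) :=
  PR.comp (Z := fun a => Cod.enc (f a).1) (PR.sub (PT.hd (O := O)) (fun a => Cod.enc (f a))) hf

theorem PF.snd {f : α → β × γ} (hf : PF O f) : PF O (fun a => (f a).2) :=
  PR.comp (Z := fun a => Cod.enc (f a).2) (PR.sub (PT.tl (O := O)) (fun a => Cod.enc (f a))) hf

/-- A function of a pair of values. -/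
theorem PF.comp₂ {g : β → γ → δ} {f : α → β} {f' : α → γ} (hg : PF O (fun p : β × γ => g p.1 p.2))
    (hf : PF O f) (hf' : PF O f') : PF O (fun a => g (f a) (f' a)) :=
  PF.comp (g := fun p : β × γ => g p.1 p.2) hg (hf.pair hf')

/-- The output is at most polynomially longer than the input (`PT.size`). -/
theorem PF.bound {f : α → β} (hf : PF O f) : ∃ r : ℕ, ∀ a, size (f a) ≤ size a ^ r + r :=
  PR.size hf

theorem PF.cond {c : α → Bool} {f g : α → β} (hc : PF O c) (hf : PF O f) (hg : PF O g) :
    PF O (fun a => if c a then f a else g a) := by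
  refine PR.congr (PR.ifn hc hg hf) fun a => ?_
  show D.ifn (encB (c a)) (Cod.enc (g a)) (Cod.enc (f a)) = Cod.enc (if c a = true then f a else g a)
  cases c a <;> rfl

theorem PF.bnot {c : α → Bool} (hc : PF O c) : PF O (fun a => !(c a)) :=
  PF.congr (PF.cond hc (PF.const false) (PF.const true)) fun a => by cases c a <;> rfl

theorem PF.band {c d : α → Bool} (hc : PF O c) (hd : PF O d) : PF O (fun a => c a && d a) :=
  PF.congr (PF.cond hc hd (PF.const false)) fun a => by cases c a <;> rfl

theorem PF.bor {c d : α → Bool} (hc : PF O c) (hd : PF O d) : PF O (fun a => c a || d a) :=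
  PF.congr (PF.cond hc (PF.const true) hd) fun a => by cases c a <;> rfl

theorem PF.lcons {f : α → β} {g : α → List β} (hf : PF O f) (hg : PF O g) :
    PF O (fun a => f a :: g a) := PR.cons hf hg

theorem PF.ltail {f : α → List β} (hf : PF O f) : PF O (fun a => (f a).tail) :=
  PF.comp (g := fun l : List β => l.tail) (PF.of_tree PT.tl (fun l => by cases l <;> rfl)) hf

theorem PF.lisEmpty {f : α → List β} (hf : PF O f) : PF O (fun a => (f a).isEmpty) := by
  refine PR.congr (PR.ifn hf (PR.const (encB true)) (PR.const (encB false))) fun a => ?_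
  show D.ifn (encL (f a)) (encB true) (encB false) = encB (f a).isEmpty
  cases f a <;> rfl

theorem PF.lhead {f : α → List β} (hf : PF O f) : PF O (fun a => (f a).head?) := by
  refine PR.congr (PR.ifn hf (PR.const D.nil) (PR.cons (PR.comp (Z := fun a => (Cod.enc (f a)).hd)
    (PR.sub (PT.hd (O := O)) (fun a => Cod.enc (f a))) hf) (PR.const D.nil))) fun a => ?_
  show D.ifn (encL (f a)) D.nil (D.cons (encL (f a)).hd D.nil) = encO (f a).head?
  cases f a <;> rfl

theorem PF.lheadD {f : α → List β} {d : α → β} (hf : PF O f) (hd : PF O d) :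
    PF O (fun a => (f a).headD (d a)) := by
  refine PR.congr (PR.ifn hf hd (PR.comp (Z := fun a => (Cod.enc (f a)).hd)
    (PR.sub (PT.hd (O := O)) (fun a => Cod.enc (f a))) hf)) fun a => ?_
  show D.ifn (encL (f a)) (Cod.enc (d a)) (encL (f a)).hd = Cod.enc ((f a).headD (d a))
  cases f a <;> rfl

end Pool.Agent.Helper21.BX
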