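import Pool.Agent.Helper21.BX.T1

/-!
Project BX (MP_4a5e7e_lc): distinctions of cases for data.
-/

namespace Pool.Agent.Helper21.BX

open Pool.Agent.Helper5.SX

variable {O : Set Str} {α β γ δ : Type} [Cod α] [Cod β] [Cod γ] [Cod δ]

theorem PF.listCases {l : α → List β} {f : α → γ} {g : α → β → List β → γ} (hl : PF O l)
    (hf : PF O f) (hg : PF O (fun p : α × β × List β => g p.1 p.2.1 p.2.2)) :
    PF O (fun a => (match l a with | [] => f a | b :: l' => g a b l' : γ)) := by
  sorry

theorem PF.osome {f : α → β} (hf : PF O f) : PF O (fun a => some (f a)) := by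
  sorry

theorem PF.oisSome {f : α → Option β} (hf : PF O f) : PF O (fun a => (f a).isSome) := by
  sorry

theorem PF.ogetD {f : α → Option β} {d : α → β} (hf : PF O f) (hd : PF O d) :
    PF O (fun a => (f a).getD (d a)) := by
  sorry

theorem PF.optCases {o : α → Option β} {f : α → γ} {g : α → β → γ} (ho : PF O o)
    (hf : PF O f) (hg : PF O (fun p : α × β => g p.1 p.2)) :
    PF O (fun a => (match o a with | none => f a | some b => g a b : γ)) := by
  sorry

theorem PF.nsucc {f : α → ℕ} (hf : PF O f) : PF O (fun a => f a + 1) := by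
  sorry

theorem PF.npred {f : α → ℕ} (hf : PF O f) : PF O (fun a => f a - 1) := by
  sorry

theorem PF.nisZero {f : α → ℕ} (hf : PF O f) : PF O (fun a => decide (f a = 0)) := by
  sorry

end Pool.Agent.Helper21.BX
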