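import Pool.Agent.Helper21.BX.T1b
import Pool.Agent.Helper21.BX.E7

/-!
Project BX (MP_4a5e7e_lc): iteration on data.
-/

namespace Pool.Agent.Helper21.BX

open Pool.Agent.Helper5.SX

variable {O : Set Str} {α β γ σ : Type} [Cod α] [Cod β] [Cod γ] [Cod σ]

theorem encN_len (n : ℕ) : (encN n).len = n := by
  induction n with
  | zero => rfl
  | succ n ih => simp [encN, D.len, ih]

/-- Iteration with a bound on the intermediate values.

Proof: `PR.iter` with `N a = Cod.enc (n a)` and `S a j = D.cons (Cod.enc a) (Cod.enc ((g a)^[j] (f a)))`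
(`encN_len`); the step is `PR.sub` of `PF.pair PF.fst hg` (`Function.iterate_succ_apply'`); at the end
`PT.tl`. -/
theorem PF.iterate {n : α → ℕ} {f : α → σ} {g : α → σ → σ} (hn : PF O n) (hf : PF O f)
    (hg : PF O (fun p : α × σ => g p.1 p.2)) (r : ℕ)
    (hb : ∀ a, ∀ i ≤ n a, size ((g a)^[i] (f a)) ≤ size a ^ r + r) :
    PF O (fun a => (g a)^[n a] (f a)) := by
  obtain ⟨r', hr'⟩ : PB (fun n => n + (n ^ r + r) + 1) :=
    (PB.id.add (PB.comp_pow PB.id r)).add (PB.const 1)
  have hstep : PR O (fun p : {p : α × ℕ // p.2 < (Cod.enc (n p.1)).len} =>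
      D.cons (Cod.enc p.1.1) (Cod.enc ((g p.1.1)^[p.1.2] (f p.1.1))))
      (fun p => D.cons (Cod.enc p.1.1) (Cod.enc ((g p.1.1)^[p.1.2 + 1] (f p.1.1)))) := by
    have h1 : PF O (fun p : α × σ => (p.1, g p.1 p.2)) := PF.pair (PF.fst PF.ident) hg
    refine PR.congr (PR.sub h1 (fun p : {p : α × ℕ // p.2 < (Cod.enc (n p.1)).len} =>
      (p.1.1, (g p.1.1)^[p.1.2] (f p.1.1)))) fun p => ?_
    rw [Function.iterate_succ_apply']
    rfl
  have hmain := PR.iter (O := O) (X := fun a : α => Cod.enc a) (N := fun a : α => Cod.enc (n a))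
    (fun a j => D.cons (Cod.enc a) (Cod.enc ((g a)^[j] (f a)))) hn (PR.cons PR.id hf) hstep r'
    (fun a j hj => by
      have hj' : j ≤ n a := hj.trans (encN_len (n a)).le
      have h1 := hb a j hj'
      have h2 : (D.cons (Cod.enc a) (Cod.enc ((g a)^[j] (f a)))).sz =
        size a + size ((g a)^[j] (f a)) + 1 := D.sz_cons _ _
      have h3 := hr' (size a)
      dsimp only at h3
      have h4 : (Cod.enc a).sz = size a := rfl
      rw [h4]
      exact h2.le.trans ((by omega : size a + size ((g a)^[j] (f a)) + 1 ≤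
        size a + (size a ^ r + r) + 1).trans h3))
  have h5 := PR.comp (Z := fun a => (D.cons (Cod.enc a)
    (Cod.enc ((g a)^[(Cod.enc (n a)).len] (f a)))).tl) (PR.sub (PT.tl (O := O))
    (fun a => D.cons (Cod.enc a) (Cod.enc ((g a)^[(Cod.enc (n a)).len] (f a))))) hmain
  refine PR.congr h5 fun a => ?_
  have h6 : (Cod.enc (n a)).len = n a := encN_len (n a)
  rw [h6]
  rfl

/-- Iteration where each step adds at most a polynomial in the size of the parameter.

Proof: `PF.iterate`; by induction on `i` the size is at most `size (f a) + i * (size a ^ q + q)`, and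
`i ≤ n a ≤ size (n a)`; `PF.bound`, `pb_iff`. -/
theorem PF.iterate_add {n : α → ℕ} {f : α → σ} {g : α → σ → σ} (hn : PF O n) (hf : PF O f)
    (hg : PF O (fun p : α × σ => g p.1 p.2)) (q : ℕ)
    (hb : ∀ a, ∀ i < n a, size (g a ((g a)^[i] (f a))) ≤
      size ((g a)^[i] (f a)) + (size a ^ q + q)) :
    PF O (fun a => (g a)^[n a] (f a)) := by
  obtain ⟨s, hs⟩ := PF.bound hf
  obtain ⟨t, ht⟩ := PF.bound hn
  obtain ⟨r, hr⟩ : PB (fun n => (n ^ s + s) + (n ^ t + t) * (n ^ q + q)) :=
    (PB.comp_pow PB.id s).add ((PB.comp_pow PB.id t).mul (PB.comp_pow PB.id q))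
  refine PF.iterate hn hf hg r fun a => ?_
  have h1 : ∀ i ≤ n a, size ((g a)^[i] (f a)) ≤ size (f a) + i * (size a ^ q + q) := by
    intro i
    induction i with
    | zero =>
      intro _
      rw [Nat.zero_mul, Nat.add_zero, Function.iterate_zero_apply]
    | succ i ih =>
      intro hi
      have h2 := ih (by omega)
      have h3 := hb a i (by omega)
      rw [Function.iterate_succ_apply']
      have h4 : (i + 1) * (size a ^ q + q) = i * (size a ^ q + q) + (size a ^ q + q) := by ring
      omega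
  intro i hi
  have h2 := h1 i hi
  have h3 : i ≤ size a ^ t + t := by
    have h4 := ht a
    rw [size_nat] at h4
    omega
  have h5 := Nat.mul_le_mul_right (size a ^ q + q) h3
  have h6 := hs a
  have h7 := hr (size a)
  dsimp only at h7
  omega

end Pool.Agent.Helper21.BX
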