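import Pool.Agent.Helper21.BX.T2

/-!
Project BX (MP_4a5e7e_lc): folds.
-/

namespace Pool.Agent.Helper21.BX

open Pool.Agent.Helper5.SX

variable {O : Set Str} {α β γ σ : Type} [Cod α] [Cod β] [Cod γ] [Cod σ]

/-- The length of the spine of the code of a list. -/
private theorem T3_len (l : List β) : (Cod.enc l).len = l.length := by
  induction l with
  | nil => rfl
  | cons b l ih => exact congrArg (· + 1) ih

/-- The length, without folds: `PT.iter` is not needed if `encN l.length` is produced by iteration.

Proof: the program is not the point; use `PR.iter` with `N a = Cod.enc (f a)` (its spine has length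
`(f a).length`) and `S a j = encN j`. -/
theorem PF.llength {f : α → List β} (hf : PF O f) : PF O (fun a => (f a).length) := by
  obtain ⟨m, hm⟩ := PF.bound hf
  obtain ⟨r, hr⟩ : PB (fun n => 2 * (n ^ m + m) + 1) :=
    ((PB.const 2).mul ((PB.id.pow m).add (PB.const m))).add (PB.const 1)
  have hs : PF O (fun n : ℕ => n + 1) := PF.nsucc PF.ident
  have h := PR.iter (O := O) (X := fun a : α => Cod.enc a) (N := fun a => Cod.enc (f a))
    (fun _ j => encN j) hf (PR.const _)
    (PR.sub hs fun p : {p : α × ℕ // p.2 < (Cod.enc (f p.1)).len} => p.1.2) r (fun a j hj => ?_)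
  · exact PR.congr h fun a => congrArg encN (T3_len (f a))
  · have h1 : j ≤ (f a).length := (T3_len (f a)) ▸ hj
    have h2 : (encN j).sz = 2 * j + 1 := size_nat j
    have h3 := length_lt_size (f a)
    have h4 := hm a
    refine le_trans ?_ (hr (Cod.enc a).sz)
    rw [h2]
    change size (f a) ≤ (Cod.enc a).sz ^ m + m at h4
    dsimp only
    omega

/-- One step of a fold. -/
private def T3_step (g : α → σ → β → σ) (a : α) (s : List β × σ) : List β × σ :=
  match s.1 with
  | [] => s
  | b :: l' => (l', g a s.2 b)

omit [Cod α] [Cod β] [Cod σ] in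
private theorem T3_iter (g : α → σ → β → σ) (a : α) (i : ℕ) (l : List β) (s : σ) :
    (T3_step g a)^[i] (l, s) = (l.drop i, (l.take i).foldl (g a) s) := by
  induction i generalizing l s with
  | zero => simp
  | succ i ih =>
    rw [Function.iterate_succ_apply]
    cases l with
    | nil =>
      have h : T3_step g a ([], s) = ([], s) := rfl
      rw [h, ih]
      simp
    | cons b l =>
      have h : T3_step g a (b :: l, s) = (l, g a s b) := rfl
      rw [h, ih]
      simp

/-- Fold with a bound on the intermediate values.

Proof: `PF.iterate` with `(l a).length` steps on the state `(rest, value)`, started with `(l a, f a)`;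
the step is `(b :: l', s) ↦ (l', g a s b)`, `([], s) ↦ ([], s)` (`PF.listCases`). After `i` steps the
state is `((l a).drop i, ((l a).take i).foldl (g a) (f a))`; the size of `(l a).drop i` is at most
the size of `l a`. -/
theorem PF.foldl {l : α → List β} {f : α → σ} {g : α → σ → β → σ} (hl : PF O l) (hf : PF O f)
    (hg : PF O (fun p : α × σ × β => g p.1 p.2.1 p.2.2)) (r : ℕ)
    (hb : ∀ a, ∀ l₁ l₂, l a = l₁ ++ l₂ → size (l₁.foldl (g a) (f a)) ≤ size a ^ r + r) :
    PF O (fun a => (l a).foldl (g a) (f a)) := by
  obtain ⟨m, hm⟩ := PF.bound hl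
  obtain ⟨r', hr'⟩ : PB (fun n => (n ^ m + m) + (n ^ r + r) + 1) :=
    (((PB.id.pow m).add (PB.const m)).add ((PB.id.pow r).add (PB.const r))).add (PB.const 1)
  have hstep : PF O (fun p : α × (List β × σ) => T3_step g p.1 p.2) := by
    refine PF.listCases (l := fun p : α × (List β × σ) => p.2.1) (f := fun p => p.2)
      (g := fun p b l' => (l', g p.1 p.2.2 b)) (PF.fst (PF.snd PF.ident)) (PF.snd PF.ident) ?_
    refine PF.pair (PF.snd (PF.snd PF.ident)) ?_
    exact PF.comp (g := fun p : α × σ × β => g p.1 p.2.1 p.2.2)
      (f := fun q : (α × (List β × σ)) × β × List β => (q.1.1, q.1.2.2, q.2.1)) hg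
      (PF.pair (PF.fst (PF.fst PF.ident)) (PF.pair (PF.snd (PF.snd (PF.fst PF.ident)))
        (PF.fst (PF.snd PF.ident))))
  have h := PF.iterate (n := fun a => (l a).length) (f := fun a => (l a, f a)) (g := T3_step g)
    (PF.llength hl) (PF.pair hl hf) hstep r' (fun a i hi => ?_)
  · refine PF.congr (PF.snd h) fun a => ?_
    rw [T3_iter, List.take_length]
  · rw [T3_iter, size_pair]
    refine le_trans ?_ (hr' (size a))
    have h1 := hb a ((l a).take i) ((l a).drop i) (List.take_append_drop i (l a)).symm
    have h2 := size_append ((l a).take i) ((l a).drop i)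
    rw [List.take_append_drop] at h2
    have h3 := size_pos ((l a).take i)
    have h4 := hm a
    dsimp only
    omega

/-- Fold where each step adds at most a polynomial in the size of the parameter.

Proof: `PF.foldl`; the size after `l₁` is at most `size (f a) + l₁.length * (size a ^ q + q)`, and
`l₁.length ≤ (l a).length < size (l a)`. -/
theorem PF.foldl_add {l : α → List β} {f : α → σ} {g : α → σ → β → σ} (hl : PF O l) (hf : PF O f)
    (hg : PF O (fun p : α × σ × β => g p.1 p.2.1 p.2.2)) (q : ℕ)
    (hb : ∀ a s, ∀ b ∈ l a, size (g a s b) ≤ size s + (size a ^ q + q)) :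
    PF O (fun a => (l a).foldl (g a) (f a)) := by
  obtain ⟨m, hm⟩ := PF.bound hl
  obtain ⟨m', hm'⟩ := PF.bound hf
  obtain ⟨r, hr⟩ : PB (fun n => (n ^ m' + m') + (n ^ m + m) * (n ^ q + q)) :=
    ((PB.id.pow m').add (PB.const m')).add
      (((PB.id.pow m).add (PB.const m)).mul ((PB.id.pow q).add (PB.const q)))
  refine PF.foldl hl hf hg r fun a l₁ l₂ h => ?_
  refine le_trans ?_ (hr (size a))
  have h1 : ∀ (l₁ : List β) (s : σ), (∀ b ∈ l₁, b ∈ l a) →
      size (l₁.foldl (g a) s) ≤ size s + l₁.length * (size a ^ q + q) := by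
    intro l₁
    induction l₁ with
    | nil => intro s _; simp
    | cons b l₁ ih =>
      intro s hs
      rw [List.foldl_cons, List.length_cons]
      have h2 := ih (g a s b) fun c hc => hs c (List.mem_cons_of_mem _ hc)
      have h3 := hb a s b (hs b List.mem_cons_self)
      have h4 : (l₁.length + 1) * (size a ^ q + q) =
          l₁.length * (size a ^ q + q) + (size a ^ q + q) := by ring
      omega
  have h2 := h1 l₁ (f a) fun b hb' => by rw [h]; exact List.mem_append_left _ hb'
  have h3 : l₁.length ≤ size a ^ m + m := by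
    have h4 := length_lt_size (l a)
    have h5 := hm a
    have h6 : l₁.length ≤ (l a).length := by rw [h, List.length_append]; omega
    omega
  have h4 := Nat.mul_le_mul_right (size a ^ q + q) h3
  have h5 := hm' a
  dsimp only
  omega

end Pool.Agent.Helper21.BX
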