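import Pool.Agent.Helper21.BX.T3

/-!
Project BX (MP_4a5e7e_lc): functions on lists.
-/

namespace Pool.Agent.Helper21.BX

open Pool.Agent.Helper5.SX

variable {O : Set Str} {α β γ σ : Type} [Cod α] [Cod β] [Cod γ] [Cod σ]

/-- `foldl` with `s b ↦ b :: s` (`PF.foldl_add`; the size of a member of the list is at most the size of
the list, `size_mem`, and `PF.bound`). -/
theorem PF.lreverse {f : α → List β} (hf : PF O f) : PF O (fun a => (f a).reverse) := by
  sorry

/-- `foldl` over the reversed first list. -/
theorem PF.lappend {f g : α → List β} (hf : PF O f) (hg : PF O g) : PF O (fun a => f a ++ g a) := by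
  sorry

/-- `foldl` with `s b ↦ g a b :: s`, and reverse. The size of `g a b` is bounded by a polynomial in
`size (a, b)` (`PF.bound`), which is at most a polynomial in `size a` for `b` in `l a`. -/
theorem PF.lmap {l : α → List β} {g : α → β → γ} (hl : PF O l)
    (hg : PF O (fun p : α × β => g p.1 p.2)) : PF O (fun a => (l a).map (g a)) := by
  sorry

theorem PF.lfilter {l : α → List β} {g : α → β → Bool} (hl : PF O l)
    (hg : PF O (fun p : α × β => g p.1 p.2)) : PF O (fun a => (l a).filter (g a)) := by
  sorry

/-- `foldl` with a bit as the value. -/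
theorem PF.lall {l : α → List β} {g : α → β → Bool} (hl : PF O l)
    (hg : PF O (fun p : α × β => g p.1 p.2)) : PF O (fun a => (l a).all (g a)) := by
  sorry

theorem PF.lany {l : α → List β} {g : α → β → Bool} (hl : PF O l)
    (hg : PF O (fun p : α × β => g p.1 p.2)) : PF O (fun a => (l a).any (g a)) := by
  sorry

/-- `(l a).filter (g a)` and `head?`. -/
theorem PF.lfind {l : α → List β} {g : α → β → Bool} (hl : PF O l)
    (hg : PF O (fun p : α × β => g p.1 p.2)) : PF O (fun a => (l a).find? (g a)) := by
  sorry

end Pool.Agent.Helper21.BX
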