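import Pool.Agent.Helper21.BX.T4

/-!
Project BX (MP_4a5e7e_lc): more functions on lists.
-/

namespace Pool.Agent.Helper21.BX

open Pool.Agent.Helper5.SX

variable {O : Set Str} {α β γ σ : Type} [Cod α] [Cod β] [Cod γ] [Cod σ]

omit [Cod β] in
private theorem T4b_tail_iterate (n : ℕ) (l : List β) : List.tail^[n] l = l.drop n := by
  induction n with
  | zero => simp
  | succ n ih => rw [Function.iterate_succ_apply', ih, List.tail_drop]

private theorem T4b_size_tail (l : List β) : size l.tail ≤ size l := by
  cases l with
  | nil => exact le_refl _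
  | cons b l =>
    rw [List.tail_cons, size_cons]
    omega

/-- `n a` times `tail` (`PF.iterate_add`: the size does not grow). -/
theorem PF.ldrop {n : α → ℕ} {l : α → List β} (hn : PF O n) (hl : PF O l) :
    PF O (fun a => (l a).drop (n a)) := by
  refine PF.congr (PF.iterate_add (g := fun (_ : α) (s : List β) => s.tail) hn hl
    (PF.ltail (PF.snd PF.ident)) 0 ?_) (fun a => T4b_tail_iterate _ _)
  intro a i _
  exact le_trans (T4b_size_tail _) (Nat.le_add_right _ _)

/-- The list reversed, `drop`, reversed again: `(l.reverse.drop (l.length - n)).reverse`; or an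
iteration with the state (rest, reversed part). -/
theorem PF.ltake {n : α → ℕ} {l : α → List β} (hn : PF O n) (hl : PF O l) :
    PF O (fun a => (l a).take (n a)) := by
  refine PF.congr (PF.lreverse (PF.ldrop (PF.llength (PF.ldrop hn hl)) (PF.lreverse hl)))
    (fun a => ?_)
  rw [List.drop_reverse, List.reverse_reverse, List.length_drop]
  rcases le_total (n a) (l a).length with h | h
  · congr 1
    omega
  · rw [List.take_of_length_le h, List.take_of_length_le (by omega)]

/-- `((l a).drop (n a)).headD (d a)`. -/
theorem PF.lgetD {n : α → ℕ} {l : α → List β} {d : α → β} (hn : PF O n) (hl : PF O l)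
    (hd : PF O d) : PF O (fun a => (l a).getD (n a) (d a)) := by
  refine PF.congr (PF.lheadD (PF.ldrop hn hl) hd) (fun a => ?_)
  rw [List.headD_eq_head?_getD, List.head?_drop, List.getD_eq_getElem?_getD]

/-- Iteration of `cons`. -/
theorem PF.lreplicate {n : α → ℕ} {f : α → β} (hn : PF O n) (hf : PF O f) :
    PF O (fun a => List.replicate (n a) (f a)) := by
  obtain ⟨r, hr⟩ := hf.bound
  refine PF.congr (PF.iterate_add (f := fun _ => ([] : List β))
    (g := fun (a : α) (s : List β) => f a :: s) hn (PF.const [])
    (PF.lcons (PF.comp hf (PF.fst PF.ident)) (PF.snd PF.ident)) (r + 1) ?_) (fun a => ?_)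
  · intro a i _
    rw [size_cons]
    have h1 := hr a
    have h2 : size a ^ r ≤ size a ^ (r + 1) := Nat.pow_le_pow_right (size_pos a) (Nat.le_succ r)
    omega
  · induction n a with
    | zero => rfl
    | succ k ih => rw [Function.iterate_succ_apply', ih, List.replicate_succ]

end Pool.Agent.Helper21.BX
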