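import Pool.Agent.Helper21.BX.T4b
import Pool.Agent.Helper21.BX.E9

/-!
Project BX (MP_4a5e7e_lc): equality of data.
-/

namespace Pool.Agent.Helper21.BX

open Pool.Agent.Helper5.SX

variable {O : Set Str} {α β γ : Type} [Cod α] [Cod β] [Cod γ]

/-- The prefix code is prefix free. Induction on `x`. -/
theorem code_append_inj {x y : D} {u v : Str} (h : x.code ++ u = y.code ++ v) : x = y ∧ u = v := by
  induction x generalizing y u v with
  | nil =>
    cases y with
    | nil => exact ⟨rfl, by simpa [D.code] using h⟩
    | cons a b => simp [D.code] at h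
  | cons a b iha ihb =>
    cases y with
    | nil => simp [D.code] at h
    | cons a' b' =>
      have h' : a.code ++ (b.code ++ u) = a'.code ++ (b'.code ++ v) := by
        simpa [D.code, List.append_assoc] using h
      obtain ⟨h1, h2⟩ := iha h'
      obtain ⟨h3, h4⟩ := ihb h2
      exact ⟨by rw [h1, h3], h4⟩

theorem code_inj : Function.Injective D.code := fun x y h =>
  (code_append_inj (u := []) (v := []) (by rw [h])).1

/-- One step of the comparison. -/
private def T5_step (s : Str × Bool) (b : Bool) : Str × Bool :=
  (s.1.tail, s.2 && (if b then s.1.headD (!b) else !(s.1.headD (!b))))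

private theorem T5_fold (u w : Str) (c : Bool) :
    ((u.foldl T5_step (w, c)).2 && (u.foldl T5_step (w, c)).1.isEmpty) = (c && decide (u = w)) := by
  induction u generalizing w c with
  | nil => cases w <;> simp
  | cons b u ih =>
    rw [List.foldl_cons, show T5_step (w, c) b =
      (w.tail, c && (if b then w.headD (!b) else !(w.headD (!b)))) from rfl, ih]
    cases w with
    | nil => cases b <;> simp
    | cons d w => cases b <;> cases d <;> simp <;> congr

/-- Comparison of two strings: fold over the first string, with the state (rest of the second string,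
bit); at the end the rest must be empty. -/
theorem PF.strEq : PF O (fun p : Str × Str => decide (p.1 = p.2)) := by
  have hg : PF O (fun p : (Str × Str) × (Str × Bool) × Bool => T5_step p.2.1 p.2.2) := by
    have h1 : PF O (fun p : (Str × Str) × (Str × Bool) × Bool => p.2.1.1) :=
      PF.fst (PF.fst (PF.snd PF.ident))
    have h2 : PF O (fun p : (Str × Str) × (Str × Bool) × Bool => p.2.1.2) :=
      PF.snd (PF.fst (PF.snd PF.ident))
    have h3 : PF O (fun p : (Str × Str) × (Str × Bool) × Bool => p.2.2) :=
      PF.snd (PF.snd PF.ident)
    have h4 := PF.lheadD h1 (PF.bnot h3)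
    exact PF.pair (PF.ltail h1) (PF.band h2 (PF.cond h3 h4 (PF.bnot h4)))
  have hf := PF.foldl_add (O := O) (l := fun p : Str × Str => p.1) (f := fun p => (p.2, true))
    (g := fun _ s b => T5_step s b) (PF.fst PF.ident)
    (PF.pair (PF.snd PF.ident) (PF.const true)) hg 2 (fun a s b _ => by
      have h1 : size s.1.tail ≤ size s.1 := by
        cases s.1 with
        | nil => exact le_rfl
        | cons c w =>
          rw [List.tail_cons, size_cons]
          omega
      have h2 := size_bool (s.2 && (if b then s.1.headD (!b) else !(s.1.headD (!b))))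
      have h3 : size (T5_step s b) = size s.1.tail +
        size (s.2 && (if b then s.1.headD (!b) else !(s.1.headD (!b)))) + 1 := size_pair _ _
      have h4 : size s = size s.1 + size s.2 + 1 := size_pair s.1 s.2
      have h5 := size_pos s.2
      omega)
  refine PF.congr (PF.band (PF.snd hf) (PF.lisEmpty (PF.fst hf))) fun p => ?_
  have h := T5_fold p.1 p.2 true
  rw [Bool.true_and] at h
  exact h

open Classical in
/-- Equality of data with codes: `PF.codeOf`, `code_inj`, `Cod.inj`, `PF.strEq`. -/
theorem PF.deq {f g : α → β} (hf : PF O f) (hg : PF O g) :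
    PF O (fun a => decide (f a = g a)) := by
  have h := PF.comp₂ (g := fun u w : Str => decide (u = w)) PF.strEq
    (PF.comp (PF.codeOf (O := O) (α := β)) hf) (PF.comp (PF.codeOf (O := O) (α := β)) hg)
  refine PF.congr h fun a => ?_
  rw [decide_eq_decide]
  exact ⟨fun h' => Cod.inj (code_inj h'), fun h' => by rw [h']⟩

open Classical in
/-- Membership in a list: `PF.lany` and `PF.deq`. -/
theorem PF.lmem {f : α → β} {l : α → List β} (hf : PF O f) (hl : PF O l) :
    PF O (fun a => decide (f a ∈ l a)) := by
  have h := PF.lany (O := O) (l := l) (g := fun a b => decide (f a = b)) hl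
    (PF.deq (PF.comp hf (PF.fst PF.ident)) (PF.snd PF.ident))
  refine PF.congr h fun a => ?_
  rw [Bool.eq_iff_iff, List.any_eq_true, decide_eq_true_iff]
  constructor
  · rintro ⟨b, hb, hb'⟩
    rwa [of_decide_eq_true hb']
  · exact fun h' => ⟨f a, h', by simp⟩

end Pool.Agent.Helper21.BX
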