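import Pool.Agent.Helper21.BX.T3

/-!
Project BX (MP_4a5e7e_lc): arithmetic (numbers are unary).
-/

namespace Pool.Agent.Helper21.BX

open Pool.Agent.Helper5.SX

variable {O : Set Str} {α β γ : Type} [Cod α] [Cod β] [Cod γ]

/-- Iterate the successor (`PF.iterate_add`, `size_nat`). -/
theorem PF.nadd {f g : α → ℕ} (hf : PF O f) (hg : PF O g) : PF O (fun a => f a + g a) := by
  sorry

/-- Iterate the predecessor. -/
theorem PF.nsub {f g : α → ℕ} (hf : PF O f) (hg : PF O g) : PF O (fun a => f a - g a) := by
  sorry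

/-- Iterate `x ↦ x + f a`. -/
theorem PF.nmul {f g : α → ℕ} (hf : PF O f) (hg : PF O g) : PF O (fun a => f a * g a) := by
  sorry

/-- Induction on `k`. -/
theorem PF.npow {f : α → ℕ} (hf : PF O f) (k : ℕ) : PF O (fun a => f a ^ k) := by
  sorry

/-- `f a ≤ g a` iff `f a - g a = 0`. -/
theorem PF.nle {f g : α → ℕ} (hf : PF O f) (hg : PF O g) : PF O (fun a => decide (f a ≤ g a)) := by
  sorry

theorem PF.nlt {f g : α → ℕ} (hf : PF O f) (hg : PF O g) : PF O (fun a => decide (f a < g a)) := by
  sorry

theorem PF.neq {f g : α → ℕ} (hf : PF O f) (hg : PF O g) : PF O (fun a => decide (f a = g a)) := by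
  sorry

/-- A power of two, if it is at most `C`. -/
def powc (C n : ℕ) : Option ℕ := if 2 ^ n ≤ C then some (2 ^ n) else none

/-- Iterate `f a` times: `some v ↦ some (v + v)` if `v + v ≤ C`, otherwise `none`; start with `some 1` if
`1 ≤ C`. By induction on `i` the value after `i` rounds is `powc C i` (the powers of `2` are
increasing). The sizes are at most `2 * C + 3`. -/
theorem PF.powc {C n : α → ℕ} (hC : PF O C) (hn : PF O n) : PF O (fun a => BX.powc (C a) (n a)) := by
  sorry

end Pool.Agent.Helper21.BX
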