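import Pool.Agent.Helper21.BX.T7

/-!
Project BX (MP_4a5e7e_lc): search through the strings of a given length, facts.
-/

namespace Pool.Agent.Helper21.BX

open Pool.Agent.Helper5.SX

/-- By induction on `n`. -/
theorem fnd_some {P : Str → Bool} {n : ℕ} {w v : Str} (h : fnd P n w = some v) :
    v.length = w.length ∧ P v = true := by
  sorry

/-- By induction on `n`: each string `v` of the same length with `lval w ≤ lval v < lval w + n` is
reached. -/
theorem fnd_none {P : Str → Bool} {n : ℕ} {w : Str} (h : fnd P n w = none) {v : Str}
    (hl : v.length = w.length) (h1 : lval w ≤ lval v) (h2 : lval v < lval w + n) : P v = false := by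
  sorry

/-- More rounds do not change the result, if there are enough rounds to reach the end. -/
theorem fnd_ge {P : Str → Bool} {m n : ℕ} {w : Str} (hm : 2 ^ w.length ≤ lval w + m)
    (hn : 2 ^ w.length ≤ lval w + n) : fnd P m w = fnd P n w := by
  sorry

theorem findS_some {P : Str → Bool} {W : ℕ} {v : Str} (h : findS P W = some v) :
    v.length = W ∧ P v = true := by
  sorry

theorem findS_isSome {P : Str → Bool} {W : ℕ} :
    (findS P W).isSome = true ↔ ∃ v : Str, v.length = W ∧ P v = true := by
  sorry

theorem findS_eq {P : Str → Bool} {W C : ℕ} (h : 2 ^ W ≤ C) :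
    fnd P C (List.replicate W false) = findS P W := by
  sorry

end Pool.Agent.Helper21.BX
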