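import Pool.Agent.Helper21.BX.T7b

/-!
Project BX (MP_4a5e7e_lc): the search is a function of polynomial time, given a clock.
-/

namespace Pool.Agent.Helper21.BX

open Pool.Agent.Helper5.SX

variable {O : Set Str} {α β γ : Type} [Cod α] [Cod β] [Cod γ]

/-- One step of a machine for `sc`: the state is `(flag, reversed part, rest)`; ... Or: `sc w = none` if
all the bits are `true`; otherwise, with `i` the number of leading `true`, `sc w` is
`List.replicate i false ++ true :: w.drop (i + 1)`. The number of leading `true` is computed by a fold
with the state (number, bit). -/
theorem PF.sc {f : α → Str} (hf : PF O f) : PF O (fun a => Helper5.SX.sc (f a)) := by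
  sorry

/-- Iterate, `C a` times, on the state (next string or `none`, found string or `none`): the size is
always at most `2 * size (w a) + 20`, as all the strings have the same length (`size_str` and
`sc_some`: `size` of a string of length `n` is between `2 n + 1` and `4 n + 1`). -/
theorem PF.fnd {P : α → Str → Bool} {C : α → ℕ} {w : α → Str}
    (hP : PF O (fun p : α × Str => P p.1 p.2)) (hC : PF O C) (hw : PF O w) :
    PF O (fun a => BX.fnd (P a) (C a) (w a)) := by
  sorry

/-- The search through all the strings of length `W a`, cut off after `C a` rounds; it is `findS` if
`2 ^ W a ≤ C a`. -/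
theorem PF.findC {P : α → Str → Bool} {C W : α → ℕ}
    (hP : PF O (fun p : α × Str => P p.1 p.2)) (hC : PF O C) (hW : PF O W) :
    PF O (fun a => BX.fnd (P a) (C a) (List.replicate (W a) false)) :=
  PF.fnd hP hC (PF.lreplicate hW (PF.const false))

end Pool.Agent.Helper21.BX
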